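import Mathlib

/-! # Non-crossing sets of arcs: splitting at an arc -/

set_option autoImplicit false

open Finset

namespace Pool.Agent.Q89.ME

/-- two arcs are disjoint and do not cross -/
def Compat (p q : ℕ × ℕ) : Prop :=
  p.2 < q.1 ∨ q.2 < p.1 ∨ (p.1 < q.1 ∧ q.2 < p.2) ∨ (q.1 < p.1 ∧ p.2 < q.2)

/-- non-crossing sets of disjoint arcs with ends in `S` -/
def IsArcs (S : Finset ℕ) (K : Finset (ℕ × ℕ)) : Prop :=
  (∀ p ∈ K, p.1 ∈ S ∧ p.2 ∈ S ∧ p.1 < p.2) ∧ ∀ p ∈ K, ∀ q ∈ K, p ≠ q → Compat p q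

/-- perfect ones -/
def IsFull (S : Finset ℕ) (K : Finset (ℕ × ℕ)) : Prop :=
  IsArcs S K ∧ ∀ x ∈ S, ∃ p ∈ K, p.1 = x ∨ p.2 = x

open Classical in
noncomputable def arcs (S : Finset ℕ) : Finset (Finset (ℕ × ℕ)) :=
  ((S ×ˢ S).powerset).filter (IsArcs S)

open Classical in
noncomputable def full (S : Finset ℕ) : Finset (Finset (ℕ × ℕ)) :=
  ((S ×ˢ S).powerset).filter (IsFull S)

open Classical in
lemma mem_arcs {S : Finset ℕ} {K : Finset (ℕ × ℕ)} : K ∈ arcs S ↔ IsArcs S K := by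
  unfold arcs
  rw [mem_filter, mem_powerset, and_iff_right_iff_imp]
  intro h p hp
  exact mem_product.2 ⟨(h.1 p hp).1, (h.1 p hp).2.1⟩

open Classical in
lemma mem_full {S : Finset ℕ} {K : Finset (ℕ × ℕ)} : K ∈ full S ↔ IsFull S K := by
  unfold full
  rw [mem_filter, mem_powerset, and_iff_right_iff_imp]
  intro h p hp
  exact mem_product.2 ⟨(h.1.1 p hp).1, (h.1.1 p hp).2.1⟩

/-- points inside an arc -/
def ins (S : Finset ℕ) (a j : ℕ) : Finset ℕ := S.filter fun x => a < x ∧ x < j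
/-- points outside an arc -/
def out (S : Finset ℕ) (a j : ℕ) : Finset ℕ := S.filter fun x => x < a ∨ j < x

/-- arcs inside an arc -/
def kin (K : Finset (ℕ × ℕ)) (a j : ℕ) : Finset (ℕ × ℕ) := K.filter fun p => a < p.1 ∧ p.2 < j
/-- arcs outside an arc -/
def kout (K : Finset (ℕ × ℕ)) (a j : ℕ) : Finset (ℕ × ℕ) :=
  K.filter fun p => p ≠ (a, j) ∧ ¬ (a < p.1 ∧ p.2 < j)

def glue (a j : ℕ) (x : Finset (ℕ × ℕ) × Finset (ℕ × ℕ)) : Finset (ℕ × ℕ) :=
  insert (a, j) (x.1 ∪ x.2)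

lemma Compat.symm {p q : ℕ × ℕ} (h : Compat p q) : Compat q p := by
  unfold Compat at *; tauto

lemma out_of_compat {p : ℕ × ℕ} {a j : ℕ} (hp : p.1 < p.2) (haj : a < j) (h : Compat p (a, j))
    (hn : ¬ (a < p.1 ∧ p.2 < j)) : (p.1 < a ∨ j < p.1) ∧ (p.2 < a ∨ j < p.2) := by
  unfold Compat at h; dsimp at h
  omega

lemma arcs_kin {S : Finset ℕ} {K : Finset (ℕ × ℕ)} {a j : ℕ} (h : IsArcs S K) :
    IsArcs (ins S a j) (kin K a j) := by
  constructor
  · intro p hp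
    obtain ⟨h1, h2, h3⟩ := mem_filter.1 hp
    obtain ⟨s1, s2, s3⟩ := h.1 p h1
    exact ⟨mem_filter.2 ⟨s1, by omega, by omega⟩, mem_filter.2 ⟨s2, by omega, by omega⟩, s3⟩
  · intro p hp q hq hpq
    exact h.2 p (mem_filter.1 hp).1 q (mem_filter.1 hq).1 hpq

lemma arcs_kout {S : Finset ℕ} {K : Finset (ℕ × ℕ)} {a j : ℕ} (h : IsArcs S K)
    (hK : (a, j) ∈ K) : IsArcs (out S a j) (kout K a j) := by
  constructor
  · intro p hp
    obtain ⟨h1, h2, h3⟩ := mem_filter.1 hp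
    obtain ⟨s1, s2, s3⟩ := h.1 p h1
    have h4 := out_of_compat s3 (h.1 _ hK).2.2 (h.2 p h1 _ hK h2) h3
    exact ⟨mem_filter.2 ⟨s1, h4.1⟩, mem_filter.2 ⟨s2, h4.2⟩, s3⟩
  · intro p hp q hq hpq
    exact h.2 p (mem_filter.1 hp).1 q (mem_filter.1 hq).1 hpq

lemma arcs_glue {S : Finset ℕ} {a j : ℕ} (ha : a ∈ S) (hj : j ∈ S) (haj : a < j)
    {K1 K2 : Finset (ℕ × ℕ)} (h1 : IsArcs (ins S a j) K1) (h2 : IsArcs (out S a j) K2) :
    IsArcs S (glue a j (K1, K2)) := by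
  have i1 : ∀ p ∈ K1, a < p.1 ∧ p.1 < p.2 ∧ p.2 < j := fun p hp =>
    ⟨(mem_filter.1 (h1.1 p hp).1).2.1, (h1.1 p hp).2.2, (mem_filter.1 (h1.1 p hp).2.1).2.2⟩
  have i2 : ∀ p ∈ K2, (p.1 < a ∨ j < p.1) ∧ (p.2 < a ∨ j < p.2) ∧ p.1 < p.2 := fun p hp =>
    ⟨(mem_filter.1 (h2.1 p hp).1).2, (mem_filter.1 (h2.1 p hp).2.1).2, (h2.1 p hp).2.2⟩
  constructor
  · intro p hp
    rcases mem_insert.1 hp with rfl | hp
    · exact ⟨ha, hj, haj⟩
    · rcases mem_union.1 hp with hp | hp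
      · exact ⟨(mem_filter.1 (h1.1 p hp).1).1, (mem_filter.1 (h1.1 p hp).2.1).1, (h1.1 p hp).2.2⟩
      · exact ⟨(mem_filter.1 (h2.1 p hp).1).1, (mem_filter.1 (h2.1 p hp).2.1).1, (h2.1 p hp).2.2⟩
  · intro p hp q hq hpq
    rcases mem_insert.1 hp with rfl | hp <;> rcases mem_insert.1 hq with rfl | hq
    · exact absurd rfl hpq
    · rcases mem_union.1 hq with hq | hq
      · have := i1 q hq; unfold Compat; dsimp; omega
      · have := i2 q hq; unfold Compat; dsimp; omega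
    · rcases mem_union.1 hp with hp | hp
      · have := i1 p hp; unfold Compat; dsimp; omega
      · have := i2 p hp; unfold Compat; dsimp; omega
    · rcases mem_union.1 hp with hp | hp <;> rcases mem_union.1 hq with hq | hq
      · exact h1.2 p hp q hq hpq
      · have := i1 p hp; have := i2 q hq; unfold Compat; omega
      · have := i2 p hp; have := i1 q hq; unfold Compat; omega
      · exact h2.2 p hp q hq hpq

lemma glue_kin_kout {K : Finset (ℕ × ℕ)} {a j : ℕ} (hK : (a, j) ∈ K) :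
    glue a j (kin K a j, kout K a j) = K := by
  ext p
  unfold glue kin kout
  simp only [mem_insert, mem_union, mem_filter]
  constructor
  · rintro (rfl | ⟨h, _⟩ | ⟨h, _⟩)
    · exact hK
    · exact h
    · exact h
  · intro h
    by_cases h1 : p = (a, j)
    · left; exact h1
    · right
      by_cases h2 : a < p.1 ∧ p.2 < j
      · left; exact ⟨h, h2⟩
      · right; exact ⟨h, h1, h2⟩

lemma kin_glue {S : Finset ℕ} {a j : ℕ} {K1 K2 : Finset (ℕ × ℕ)} (h1 : IsArcs (ins S a j) K1)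
    (h2 : IsArcs (out S a j) K2) : kin (glue a j (K1, K2)) a j = K1 := by
  ext p
  unfold glue kin
  simp only [mem_insert, mem_union, mem_filter]
  constructor
  · rintro ⟨rfl | h | h, h3⟩
    · exact absurd h3.1 (lt_irrefl _)
    · exact h
    · have i2 := (mem_filter.1 (h2.1 p h).1).2
      have i3 := (mem_filter.1 (h2.1 p h).2.1).2
      have i4 := (h2.1 p h).2.2
      omega
  · intro h
    have i2 := (mem_filter.1 (h1.1 p h).1).2
    have i3 := (mem_filter.1 (h1.1 p h).2.1).2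
    exact ⟨Or.inr (Or.inl h), i2.1, i3.2⟩

lemma kout_glue {S : Finset ℕ} {a j : ℕ} (haj : a < j) {K1 K2 : Finset (ℕ × ℕ)}
    (h1 : IsArcs (ins S a j) K1)
    (h2 : IsArcs (out S a j) K2) : kout (glue a j (K1, K2)) a j = K2 := by
  ext p
  unfold glue kout
  simp only [mem_insert, mem_union, mem_filter]
  constructor
  · rintro ⟨rfl | h | h, h3, h4⟩
    · exact absurd rfl h3
    · have i2 := (mem_filter.1 (h1.1 p h).1).2
      have i3 := (mem_filter.1 (h1.1 p h).2.1).2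
      exact absurd ⟨i2.1, i3.2⟩ h4
    · exact h
  · intro h
    have i2 := (mem_filter.1 (h2.1 p h).1).2
    have i3 := (mem_filter.1 (h2.1 p h).2.1).2
    have i4 := (h2.1 p h).2.2
    refine ⟨Or.inr (Or.inr h), ?_, by omega⟩
    rintro rfl
    dsimp at i2
    omega

lemma card_glue {S : Finset ℕ} {a j : ℕ} (haj : a < j) {K1 K2 : Finset (ℕ × ℕ)}
    (h1 : IsArcs (ins S a j) K1) (h2 : IsArcs (out S a j) K2) :
    (glue a j (K1, K2)).card = K1.card + K2.card + 1 := by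
  have i1 : ∀ p ∈ K1, a < p.1 ∧ p.1 < p.2 ∧ p.2 < j := fun p hp =>
    ⟨(mem_filter.1 (h1.1 p hp).1).2.1, (h1.1 p hp).2.2, (mem_filter.1 (h1.1 p hp).2.1).2.2⟩
  have i2 : ∀ p ∈ K2, (p.1 < a ∨ j < p.1) ∧ (p.2 < a ∨ j < p.2) ∧ p.1 < p.2 := fun p hp =>
    ⟨(mem_filter.1 (h2.1 p hp).1).2, (mem_filter.1 (h2.1 p hp).2.1).2, (h2.1 p hp).2.2⟩
  unfold glue
  rw [card_insert_of_notMem, card_union_of_disjoint]
  · rw [disjoint_left]
    intro p hp hp2
    have := i1 p hp; have := i2 p hp2; omega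
  · intro h
    rcases mem_union.1 h with h | h
    · have := i1 _ h; dsimp at this; omega
    · have := i2 _ h; dsimp at this; omega

/-- splitting perfect matchings -/
lemma full_split {S : Finset ℕ} {K : Finset (ℕ × ℕ)} {a j : ℕ} (h : IsFull S K) (hK : (a, j) ∈ K) :
    IsFull (ins S a j) (kin K a j) ∧ IsFull (out S a j) (kout K a j) := by
  refine ⟨⟨arcs_kin h.1, ?_⟩, ⟨arcs_kout h.1 hK, ?_⟩⟩
  · intro x hx
    obtain ⟨hxS, hx2⟩ := mem_filter.1 hx
    obtain ⟨p, hp, hpx⟩ := h.2 x hxS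
    refine ⟨p, mem_filter.2 ⟨hp, ?_⟩, hpx⟩
    have hne : p ≠ (a, j) := by rintro rfl; dsimp at hpx; omega
    have h1 := h.1.2 p hp _ hK hne
    have h2 := (h.1.1 p hp).2.2
    unfold Compat at h1; dsimp at h1
    omega
  · intro x hx
    obtain ⟨hxS, hx2⟩ := mem_filter.1 hx
    obtain ⟨p, hp, hpx⟩ := h.2 x hxS
    have h3 := (h.1.1 _ hK).2.2
    dsimp at h3
    have hne : p ≠ (a, j) := by rintro rfl; dsimp at hpx; omega
    have h1 := h.1.2 p hp _ hK hne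
    have h2 := (h.1.1 p hp).2.2
    refine ⟨p, mem_filter.2 ⟨hp, hne, ?_⟩, hpx⟩
    unfold Compat at h1; dsimp at h1
    omega

lemma full_glue {S : Finset ℕ} {a j : ℕ} (ha : a ∈ S) (hj : j ∈ S) (haj : a < j)
    {K1 K2 : Finset (ℕ × ℕ)} (h1 : IsFull (ins S a j) K1) (h2 : IsFull (out S a j) K2) :
    IsFull S (glue a j (K1, K2)) := by
  refine ⟨arcs_glue ha hj haj h1.1 h2.1, ?_⟩
  intro x hx
  by_cases hxa : x = a
  · exact ⟨(a, j), mem_insert_self _ _, Or.inl hxa.symm⟩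
  by_cases hxj : x = j
  · exact ⟨(a, j), mem_insert_self _ _, Or.inr hxj.symm⟩
  by_cases hxi : a < x ∧ x < j
  · obtain ⟨p, hp, h3⟩ := h1.2 x (mem_filter.2 ⟨hx, hxi⟩)
    exact ⟨p, mem_insert_of_mem (mem_union_left _ hp), h3⟩
  · obtain ⟨p, hp, h3⟩ := h2.2 x (mem_filter.2 ⟨hx, by omega⟩)
    exact ⟨p, mem_insert_of_mem (mem_union_right _ hp), h3⟩

/-- number of perfect matchings containing `K` -/
noncomputable def cnt (S : Finset ℕ) (K : Finset (ℕ × ℕ)) : ℕ := ((full S).filter (K ⊆ ·)).card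

lemma cnt_glue {S : Finset ℕ} {a j : ℕ} (ha : a ∈ S) (hj : j ∈ S) (haj : a < j)
    {K1 K2 : Finset (ℕ × ℕ)} (h1 : IsArcs (ins S a j) K1) (h2 : IsArcs (out S a j) K2) :
    cnt S (glue a j (K1, K2)) = cnt (ins S a j) K1 * cnt (out S a j) K2 := by
  unfold cnt
  rw [← card_product]
  symm
  refine card_nbij' (fun x => glue a j x) (fun K => (kin K a j, kout K a j)) ?_ ?_ ?_ ?_
  · rintro ⟨M1, M2⟩ hM
    rw [mem_coe, mem_product, mem_filter, mem_filter, mem_full, mem_full] at hM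
    dsimp at hM
    obtain ⟨⟨f1, s1⟩, f2, s2⟩ := hM
    rw [mem_coe, mem_filter, mem_full]
    exact ⟨full_glue ha hj haj f1 f2, insert_subset_insert _ (union_subset_union s1 s2)⟩
  · intro M hM
    rw [mem_coe, mem_filter, mem_full] at hM
    obtain ⟨f, s⟩ := hM
    have hK : (a, j) ∈ M := s (mem_insert_self _ _)
    obtain ⟨g1, g2⟩ := full_split f hK
    rw [mem_coe, mem_product, mem_filter, mem_filter, mem_full, mem_full]
    refine ⟨⟨g1, ?_⟩, g2, ?_⟩
    · have := filter_subset_filter (fun p : ℕ × ℕ => a < p.1 ∧ p.2 < j) s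
      rw [← kin_glue h1 h2]
      exact this
    · have := filter_subset_filter (fun p : ℕ × ℕ => p ≠ (a, j) ∧ ¬ (a < p.1 ∧ p.2 < j)) s
      rw [← kout_glue haj h1 h2]
      exact this
  · rintro ⟨M1, M2⟩ hM
    rw [mem_coe, mem_product, mem_filter, mem_filter, mem_full, mem_full] at hM
    dsimp at hM
    obtain ⟨⟨f1, s1⟩, f2, s2⟩ := hM
    dsimp only
    rw [kin_glue f1.1 f2.1, kout_glue haj f1.1 f2.1]
  · intro M hM
    rw [mem_coe, mem_filter, mem_full] at hM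
    exact glue_kin_kout (hM.2 (mem_insert_self _ _))

end Pool.Agent.Q89.ME
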