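import Pool.Agent.Q89.ME.A

/-! # The weighted number of pairs of matchings: recursion -/

set_option autoImplicit false

open Finset

namespace Pool.Agent.Q89.ME

/-- sums over the points of a finite set, by the numbers of smaller and larger points -/
lemma sum_rank (F : ℕ → ℕ → ℝ) : ∀ (k : ℕ) (A : Finset ℕ), A.card = k + 1 →
    ∑ j ∈ A, F (A.filter (· < j)).card (A.filter (j < ·)).card =
      ∑ x ∈ antidiagonal k, F x.1 x.2 := by
  intro k A hA
  have e := A.orderIsoOfFin hA
  rw [← sum_coe_sort A (fun j => F (A.filter (· < j)).card (A.filter (j < ·)).card)]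
  rw [← Equiv.sum_comp e.toEquiv]
  have h1 : ∀ i : Fin (k + 1), (A.filter (· < (e i : ℕ))).card = i := by
    intro i
    have : A.filter (· < (e i : ℕ)) = (univ.filter (fun l : Fin (k + 1) => l < i)).map
        ⟨fun l => (e l : ℕ), fun x y h => e.injective (Subtype.ext h)⟩ := by
      ext x
      simp only [mem_filter, mem_map, mem_univ, true_and]
      constructor
      · rintro ⟨hx, hlt⟩
        obtain ⟨l, hl⟩ := e.surjective ⟨x, hx⟩
        refine ⟨l, ?_, (congrArg Subtype.val hl : ((e l : A) : ℕ) = x)⟩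
        rw [← e.lt_iff_lt, hl]
        exact hlt
      · rintro ⟨l, hl, rfl⟩
        exact ⟨(e l).2, e.lt_iff_lt.2 hl⟩
    rw [this, card_map]
    rw [show (univ.filter (fun l : Fin (k + 1) => l < i)) = Finset.Iio i by ext; simp]
    rw [Fin.card_Iio]
  have h2 : ∀ i : Fin (k + 1), (A.filter ((e i : ℕ) < ·)).card = k - i := by
    intro i
    have : A.filter ((e i : ℕ) < ·) = (univ.filter (fun l : Fin (k + 1) => i < l)).map
        ⟨fun l => (e l : ℕ), fun x y h => e.injective (Subtype.ext h)⟩ := by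
      ext x
      simp only [mem_filter, mem_map, mem_univ, true_and]
      constructor
      · rintro ⟨hx, hlt⟩
        obtain ⟨l, hl⟩ := e.surjective ⟨x, hx⟩
        refine ⟨l, ?_, (congrArg Subtype.val hl : ((e l : A) : ℕ) = x)⟩
        rw [← e.lt_iff_lt, hl]
        exact hlt
      · rintro ⟨l, hl, rfl⟩
        exact ⟨(e l).2, e.lt_iff_lt.2 hl⟩
    rw [this, card_map]
    rw [show (univ.filter (fun l : Fin (k + 1) => i < l)) = Finset.Ioi i by ext; simp]
    rw [Fin.card_Ioi]
    omega
  have h3 : ∀ i : Fin (k + 1), F (A.filter (· < ((e.toEquiv i : A) : ℕ))).card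
      (A.filter (((e.toEquiv i : A) : ℕ) < ·)).card = F i (k - i) := by
    intro i
    have := h1 i
    have := h2 i
    simp only [OrderIso.coe_toEquiv] at *
    rw [h1 i, h2 i]
  simp only [h3]
  rw [Finset.Nat.sum_antidiagonal_eq_sum_range_succ F, Finset.sum_range]

/-- weighted sum over the partial matchings `K` of `A`, after the points of `B` -/
noncomputable def Z (t : ℝ) (B A : Finset ℕ) : ℝ :=
  ∑ K ∈ arcs A, t ^ K.card * ((cnt (B ∪ A) K : ℕ) : ℝ) ^ 2

lemma arcs_empty : arcs ∅ = {∅} := by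
  ext K
  rw [mem_arcs, mem_singleton]
  constructor
  · intro h
    rw [eq_empty_iff_forall_notMem]
    intro p hp
    exact absurd (h.1 p hp).1 (notMem_empty _)
  · rintro rfl
    exact ⟨by simp, by simp⟩

/-- number of perfect matchings -/
noncomputable def nf (S : Finset ℕ) : ℕ := (full S).card

lemma cnt_empty (S : Finset ℕ) : cnt S ∅ = nf S := by
  unfold cnt nf
  congr 1
  ext K
  simp

lemma Z_empty (t : ℝ) (B : Finset ℕ) : Z t B ∅ = (nf B : ℝ) ^ 2 := by
  unfold Z
  rw [arcs_empty, sum_singleton, union_empty, cnt_empty]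
  simp

lemma cases_min {A : Finset ℕ} {a : ℕ} (hmin : ∀ x ∈ A, a ≤ x)
    {K : Finset (ℕ × ℕ)} (hK : IsArcs A K) :
    IsArcs (A.erase a) K ∨ ∃ j ∈ A.erase a, (a, j) ∈ K := by
  by_cases h : ∃ j ∈ A.erase a, (a, j) ∈ K
  · right; exact h
  · left
    push Not at h
    refine ⟨fun p hp => ?_, hK.2⟩
    obtain ⟨h1, h2, h3⟩ := hK.1 p hp
    have h4 := hmin _ h1
    have h5 : p.1 ≠ a := by
      intro h5
      refine h p.2 (mem_erase.2 ⟨by omega, h2⟩) ?_
      rw [← h5]
      exact hp
    exact ⟨mem_erase.2 ⟨h5, h1⟩, mem_erase.2 ⟨by omega, h2⟩, h3⟩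

/-- the sum over the sets of arcs containing an arc at the first point -/
lemma sum_first {A : Finset ℕ} {a : ℕ} (hmin : ∀ x ∈ A, a ≤ x)
    (f : Finset (ℕ × ℕ) → ℝ) :
    ∑ K ∈ arcs A, f K = ∑ K ∈ arcs (A.erase a), f K +
      ∑ j ∈ A.erase a, ∑ K ∈ (arcs A).filter ((a, j) ∈ ·), f K := by
  classical
  have hdisj : ∀ j ∈ A.erase a, ∀ j' ∈ A.erase a, j ≠ j' →
      Disjoint ((arcs A).filter ((a, j) ∈ ·)) ((arcs A).filter ((a, j') ∈ ·)) := by
    intro j _ j' _ hne
    rw [disjoint_left]
    intro K h1 h2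
    obtain ⟨k1, k2⟩ := mem_filter.1 h1
    obtain ⟨_, k3⟩ := mem_filter.1 h2
    have := (mem_arcs.1 k1).2 _ k2 _ k3 (by simpa using hne)
    have := ((mem_arcs.1 k1).1 _ k2).2.2
    have := ((mem_arcs.1 k1).1 _ k3).2.2
    unfold Compat at *
    dsimp at *
    omega
  rw [← sum_biUnion (fun j hj j' hj' h => hdisj j hj j' hj' h), ← sum_union]
  · refine sum_congr ?_ fun _ _ => rfl
    ext K
    rw [mem_union, mem_biUnion, mem_arcs, mem_arcs]
    constructor
    · intro h
      rcases cases_min hmin h with h1 | ⟨j, hj, h1⟩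
      · exact Or.inl h1
      · exact Or.inr ⟨j, hj, mem_filter.2 ⟨mem_arcs.2 h, h1⟩⟩
    · rintro (h | ⟨j, hj, h⟩)
      · exact ⟨fun p hp => ⟨mem_of_mem_erase (h.1 p hp).1, mem_of_mem_erase (h.1 p hp).2.1,
          (h.1 p hp).2.2⟩, h.2⟩
      · exact mem_arcs.1 (mem_filter.1 h).1
  · rw [disjoint_left]
    intro K h1 h2
    obtain ⟨j, hj, h3⟩ := mem_biUnion.1 h2
    have := ((mem_arcs.1 h1).1 _ (mem_filter.1 h3).2).1
    exact absurd rfl (mem_erase.1 this).1

lemma sum_arc {A B : Finset ℕ} {a j : ℕ} (ha : a ∈ A) (hmin : ∀ x ∈ A, a ≤ x)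
    (hj : j ∈ A.erase a) (hBA : ∀ b ∈ B, ∀ x ∈ A, b < x) (t : ℝ) :
    ∑ K ∈ (arcs A).filter ((a, j) ∈ ·), t ^ K.card * ((cnt (B ∪ A) K : ℕ) : ℝ) ^ 2 =
      t * (Z t ∅ ((A.erase a).filter (· < j)) * Z t B ((A.erase a).filter (j < ·))) := by
  obtain ⟨hja, hjA⟩ := mem_erase.1 hj
  have haj : a < j := lt_of_le_of_ne (hmin j hjA) (Ne.symm hja)
  have e1 : ins A a j = (A.erase a).filter (· < j) := by
    ext x
    simp only [ins, mem_filter, mem_erase]
    constructor
    · rintro ⟨h1, h2, h3⟩; exact ⟨⟨by omega, h1⟩, h3⟩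
    · rintro ⟨⟨h1, h2⟩, h3⟩
      have := hmin x h2
      exact ⟨h2, by omega, h3⟩
  have e2 : out A a j = (A.erase a).filter (j < ·) := by
    ext x
    simp only [out, mem_filter, mem_erase]
    constructor
    · rintro ⟨h1, h2⟩
      have := hmin x h1
      exact ⟨⟨by omega, h1⟩, by omega⟩
    · rintro ⟨⟨h1, h2⟩, h3⟩
      exact ⟨h2, Or.inr h3⟩
  have e3 : ins (B ∪ A) a j = ∅ ∪ (A.erase a).filter (· < j) := by
    rw [empty_union, ← e1]
    ext x
    simp only [ins, mem_filter, mem_union]
    constructor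
    · rintro ⟨h1 | h1, h2⟩
      · have := hBA x h1 a ha
        omega
      · exact ⟨h1, h2⟩
    · rintro ⟨h1, h2⟩
      exact ⟨Or.inr h1, h2⟩
  have e4 : out (B ∪ A) a j = B ∪ (A.erase a).filter (j < ·) := by
    rw [← e2]
    ext x
    simp only [out, mem_filter, mem_union]
    constructor
    · rintro ⟨h1 | h1, h2⟩
      · exact Or.inl h1
      · exact Or.inr ⟨h1, h2⟩
    · rintro (h1 | ⟨h1, h2⟩)
      · exact ⟨Or.inl h1, Or.inl (hBA x h1 a ha)⟩
      · exact ⟨Or.inr h1, h2⟩
  have haU : a ∈ B ∪ A := mem_union_right _ ha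
  have hjU : j ∈ B ∪ A := mem_union_right _ hjA
  have sub1 : ∀ {K}, IsArcs (ins A a j) K → IsArcs (ins (B ∪ A) a j) K := by
    intro K h
    rw [e3, empty_union, ← e1]
    exact h
  have sub2 : ∀ {K}, IsArcs (out A a j) K → IsArcs (out (B ∪ A) a j) K := by
    intro K h
    rw [e4, ← e2]
    exact ⟨fun p hp => ⟨mem_union_right _ (h.1 p hp).1, mem_union_right _ (h.1 p hp).2.1,
      (h.1 p hp).2.2⟩, h.2⟩
  unfold Z
  rw [sum_mul_sum, mul_sum]
  simp only [mul_sum]
  rw [← sum_product' (arcs ((A.erase a).filter (· < j))) (arcs ((A.erase a).filter (j < ·)))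
    (fun K1 K2 => t * (t ^ K1.card * ((cnt (∅ ∪ (A.erase a).filter (· < j)) K1 : ℕ) : ℝ) ^ 2 *
      (t ^ K2.card * ((cnt (B ∪ (A.erase a).filter (j < ·)) K2 : ℕ) : ℝ) ^ 2)))]
  symm
  refine sum_nbij' (fun x => glue a j x) (fun K => (kin K a j, kout K a j)) ?_ ?_ ?_ ?_ ?_
  · rintro ⟨K1, K2⟩ hK
    rw [mem_product, mem_arcs, mem_arcs, ← e1, ← e2] at hK
    rw [mem_filter, mem_arcs]
    exact ⟨arcs_glue ha hjA haj hK.1 hK.2, mem_insert_self _ _⟩
  · intro K hK
    rw [mem_filter, mem_arcs] at hK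
    rw [mem_product, mem_arcs, mem_arcs, ← e1, ← e2]
    exact ⟨arcs_kin hK.1, arcs_kout hK.1 hK.2⟩
  · rintro ⟨K1, K2⟩ hK
    rw [mem_product, mem_arcs, mem_arcs, ← e1, ← e2] at hK
    rw [kin_glue hK.1 hK.2, kout_glue haj hK.1 hK.2]
  · intro K hK
    rw [mem_filter, mem_arcs] at hK
    exact glue_kin_kout hK.2
  · rintro ⟨K1, K2⟩ hK
    rw [mem_product, mem_arcs, mem_arcs, ← e1, ← e2] at hK
    rw [card_glue haj hK.1 hK.2, cnt_glue haU hjU haj (sub1 hK.1) (sub2 hK.2), e3, e4]
    push_cast
    ring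

/-- the numbers of perfect matchings: recursion -/
noncomputable def cc : ℕ → ℕ
  | 0 => 1
  | 1 => 0
  | k + 2 => ∑ x : Fin (k + 1), cc x * cc (k - x)
termination_by k => k
decreasing_by all_goals omega

lemma nf_empty : nf ∅ = 1 := by
  unfold nf
  rw [card_eq_one]
  refine ⟨∅, ?_⟩
  ext K
  rw [mem_full, mem_singleton]
  constructor
  · intro h
    rw [eq_empty_iff_forall_notMem]
    intro p hp
    exact absurd (h.1.1 p hp).1 (notMem_empty _)
  · rintro rfl
    exact ⟨⟨by simp, by simp⟩, by simp⟩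

/-- the perfect matchings, by the arc of the first point -/
lemma nf_first {A : Finset ℕ} {a : ℕ} (ha : a ∈ A) (hmin : ∀ x ∈ A, a ≤ x) :
    nf A = ∑ j ∈ A.erase a, nf ((A.erase a).filter (· < j)) * nf ((A.erase a).filter (j < ·)) := by
  classical
  have hdisj : ∀ j ∈ A.erase a, ∀ j' ∈ A.erase a, j ≠ j' →
      Disjoint ((full A).filter ((a, j) ∈ ·)) ((full A).filter ((a, j') ∈ ·)) := by
    intro j _ j' _ hne
    rw [disjoint_left]
    intro K h1 h2
    obtain ⟨k1, k2⟩ := mem_filter.1 h1
    obtain ⟨_, k3⟩ := mem_filter.1 h2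
    have := (mem_full.1 k1).1.2 _ k2 _ k3 (by simpa using hne)
    have := ((mem_full.1 k1).1.1 _ k2).2.2
    have := ((mem_full.1 k1).1.1 _ k3).2.2
    unfold Compat at *
    dsimp at *
    omega
  have hu : full A = (A.erase a).biUnion fun j => (full A).filter ((a, j) ∈ ·) := by
    ext K
    rw [mem_biUnion]
    constructor
    · intro h
      obtain ⟨p, hp, hpa⟩ := (mem_full.1 h).2 a ha
      obtain ⟨h1, h2, h3⟩ := (mem_full.1 h).1.1 p hp
      have h4 := hmin _ h1
      have h5 : p.1 = a := by omega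
      refine ⟨p.2, mem_erase.2 ⟨by omega, h2⟩, mem_filter.2 ⟨h, ?_⟩⟩
      rw [← h5]
      exact hp
    · rintro ⟨j, _, h⟩
      exact (mem_filter.1 h).1
  unfold nf
  conv_lhs => rw [hu]
  rw [card_biUnion (fun j hj j' hj' h => hdisj j hj j' hj' h)]
  refine sum_congr rfl fun j hj => ?_
  obtain ⟨hja, hjA⟩ := mem_erase.1 hj
  have haj : a < j := lt_of_le_of_ne (hmin j hjA) (Ne.symm hja)
  have e1 : ins A a j = (A.erase a).filter (· < j) := by
    ext x
    simp only [ins, mem_filter, mem_erase]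
    constructor
    · rintro ⟨h1, h2, h3⟩; exact ⟨⟨by omega, h1⟩, h3⟩
    · rintro ⟨⟨h1, h2⟩, h3⟩
      have := hmin x h2
      exact ⟨h2, by omega, h3⟩
  have e2 : out A a j = (A.erase a).filter (j < ·) := by
    ext x
    simp only [out, mem_filter, mem_erase]
    constructor
    · rintro ⟨h1, h2⟩
      have := hmin x h1
      exact ⟨⟨by omega, h1⟩, by omega⟩
    · rintro ⟨⟨h1, h2⟩, h3⟩
      exact ⟨h2, Or.inr h3⟩
  have h0 : IsArcs (ins A a j) ∅ := ⟨by simp, by simp⟩
  have h0' : IsArcs (out A a j) ∅ := ⟨by simp, by simp⟩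
  have := cnt_glue ha hjA haj h0 h0'
  rw [cnt_empty, cnt_empty, e1, e2] at this
  unfold nf at this
  rw [← this]
  unfold cnt glue
  congr 1
  ext K
  simp

lemma nf_eq : ∀ (k : ℕ) (A : Finset ℕ), A.card = k → nf A = cc k := by
  intro k
  induction k using Nat.strong_induction_on with
  | _ k ih =>
    intro A hA
    rcases Nat.eq_zero_or_pos k with rfl | hk
    · rw [card_eq_zero.1 hA, nf_empty, cc]
    · have hne : A.Nonempty := by rw [← card_pos, hA]; exact hk
      have ha := A.min'_mem hne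
      have hmin : ∀ x ∈ A, A.min' hne ≤ x := fun x hx => A.min'_le x hx
      rw [nf_first ha hmin]
      have hcard : (A.erase (A.min' hne)).card = k - 1 := by rw [card_erase_of_mem ha, hA]
      rcases Nat.eq_or_lt_of_le hk with hk1 | hk1
      · rw [← hk1] at hcard
        rw [card_eq_zero.1 hcard, sum_empty, ← hk1, cc]
      · obtain ⟨m, rfl⟩ : ∃ m, k = m + 2 := ⟨k - 2, by omega⟩
        have h1 : ∀ j ∈ A.erase (A.min' hne),
            nf ((A.erase (A.min' hne)).filter (· < j)) * nf ((A.erase (A.min' hne)).filter (j < ·)) =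
            cc ((A.erase (A.min' hne)).filter (· < j)).card *
              cc ((A.erase (A.min' hne)).filter (j < ·)).card := by
          intro j hj
          have c1 : ((A.erase (A.min' hne)).filter (· < j)).card < m + 2 := by
            have := card_filter_le (A.erase (A.min' hne)) (· < j)
            omega
          have c2 : ((A.erase (A.min' hne)).filter (j < ·)).card < m + 2 := by
            have := card_filter_le (A.erase (A.min' hne)) (j < ·)
            omega
          rw [ih _ c1 _ rfl, ih _ c2 _ rfl]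
        rw [sum_congr rfl h1]
        have h2 := sum_rank (fun i l => ((cc i * cc l : ℕ) : ℝ)) m _ (by rw [hcard]; omega)
        have h3 : (∑ j ∈ A.erase (A.min' hne), cc ((A.erase (A.min' hne)).filter (· < j)).card *
              cc ((A.erase (A.min' hne)).filter (j < ·)).card : ℕ) =
              ∑ x ∈ antidiagonal m, cc x.1 * cc x.2 := by
          have := h2
          exact_mod_cast this
        rw [h3, cc, Finset.Nat.sum_antidiagonal_eq_sum_range_succ (fun i l => cc i * cc l),
          Finset.sum_range]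

lemma cc_odd_even : ∀ m : ℕ, cc (2 * m) = catalan m ∧ cc (2 * m + 1) = 0 := by
  intro m
  induction m using Nat.strong_induction_on with
  | _ m ih =>
    rcases m with _ | m
    · simp [cc]
    · have odd : ∀ i, i % 2 = 1 → i < 2 * (m + 1) → cc i = 0 := by
        intro i hi hlt
        have := (ih (i / 2) (by omega)).2
        rwa [show 2 * (i / 2) + 1 = i by omega] at this
      constructor
      · rw [show 2 * (m + 1) = 2 * m + 2 by ring, cc, catalan_succ]
        rw [← Finset.sum_range (fun x => cc x * cc (2 * m - x)),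
          ← Finset.sum_range (fun x => catalan x * catalan (m - x))]
        symm
        have h1 : ∑ i ∈ range (2 * m + 1), cc i * cc (2 * m - i) =
            ∑ i ∈ (range (m + 1)).image (fun i => 2 * i), cc i * cc (2 * m - i) := by
          symm
          apply sum_subset
          · intro i hi
            rw [mem_image] at hi
            obtain ⟨l, hl, rfl⟩ := hi
            rw [mem_range] at *
            omega
          · intro i hi hni
            rw [mem_range] at hi
            rcases Nat.even_or_odd i with he | ho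
            · obtain ⟨l, hl⟩ := he
              exfalso
              apply hni
              rw [mem_image]
              exact ⟨l, by rw [mem_range]; omega, by omega⟩
            · rw [odd i (Nat.odd_iff.1 ho) (by omega), zero_mul]
        rw [h1, sum_image (fun a _ b _ h => by omega)]
        refine sum_congr rfl fun i hi => ?_
        rw [mem_range] at hi
        rw [show 2 * m - 2 * i = 2 * (m - i) by omega, (ih i (by omega)).1, (ih (m - i) (by omega)).1]
      · rw [show 2 * (m + 1) + 1 = (2 * m + 1) + 2 by ring, cc]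
        refine sum_eq_zero fun i _ => ?_
        rcases Nat.even_or_odd (i : ℕ) with he | ho
        · have := Nat.even_iff.1 he
          rw [odd (2 * m + 1 - i) (by omega) (by omega), mul_zero]
        · rw [odd i (Nat.odd_iff.1 ho) (by omega), zero_mul]

/-- squares of the numbers of matchings -/
noncomputable def gg (k : ℕ) : ℝ := (cc k : ℝ) ^ 2

/-- the weighted numbers depend only on the numbers of points, by a recursion -/
theorem Z_eq (t : ℝ) (U : ℕ → ℕ → ℝ) (h0 : ∀ q, U 0 q = gg q) (h1 : ∀ q, U 1 q = U 0 (q + 1))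
    (h2 : ∀ N q, U (N + 2) q = U (N + 1) (q + 1) + t * ∑ x ∈ antidiagonal N, U x.1 0 * U x.2 q) :
    ∀ (m : ℕ) (A B : Finset ℕ), A.card = m → (∀ b ∈ B, ∀ x ∈ A, b < x) → Z t B A = U m B.card := by
  intro m
  induction m using Nat.strong_induction_on with
  | _ m ih =>
    intro A B hA hBA
    rcases Nat.eq_zero_or_pos m with rfl | hm
    · rw [card_eq_zero.1 hA, Z_empty, h0, nf_eq _ B rfl, gg]
    · have hne : A.Nonempty := by rw [← card_pos, hA]; exact hm
      set a := A.min' hne with ha0
      have ha : a ∈ A := A.min'_mem hne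
      have hmin : ∀ x ∈ A, a ≤ x := fun x hx => A.min'_le x hx
      have hcard : (A.erase a).card = m - 1 := by rw [card_erase_of_mem ha, hA]
      have e0 : Z t B A = Z t (insert a B) (A.erase a) +
          ∑ j ∈ A.erase a, t * (Z t ∅ ((A.erase a).filter (· < j)) *
            Z t B ((A.erase a).filter (j < ·))) := by
        conv_lhs => unfold Z
        rw [sum_first hmin]
        congr 1
        · unfold Z
          rw [insert_union, ← union_insert, insert_erase ha]
        · exact sum_congr rfl fun j hj => sum_arc ha hmin hj hBA t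
      have haB : a ∉ B := fun h => lt_irrefl _ (hBA a h a ha)
      have e1 : Z t (insert a B) (A.erase a) = U (m - 1) (B.card + 1) := by
        rw [ih (m - 1) (by omega) (A.erase a) (insert a B) hcard, card_insert_of_notMem haB]
        intro b hb x hx
        obtain ⟨hxa, hxA⟩ := mem_erase.1 hx
        rcases mem_insert.1 hb with rfl | hb
        · exact lt_of_le_of_ne (hmin x hxA) (Ne.symm hxa)
        · exact hBA b hb x hxA
      rcases Nat.eq_or_lt_of_le hm with hm1 | hm1
      · rw [e0, e1, ← hm1, h1]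
        have : A.erase a = ∅ := by rw [← card_eq_zero, hcard]; omega
        rw [this, sum_empty, add_zero]
      · obtain ⟨k, rfl⟩ : ∃ k, m = k + 2 := ⟨m - 2, by omega⟩
        rw [e0, e1, h2]
        congr 1
        rw [← sum_rank (fun i l => U i 0 * U l B.card) k (A.erase a) (by rw [hcard]; omega), mul_sum]
        refine sum_congr rfl fun j hj => ?_
        have c1 : ((A.erase a).filter (· < j)).card < k + 2 := by
          have := card_filter_le (A.erase a) (· < j)
          omega
        have c2 : ((A.erase a).filter (j < ·)).card < k + 2 := by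
          have := card_filter_le (A.erase a) (j < ·)
          omega
        rw [ih _ c1 _ ∅ rfl (by simp), ih _ c2 _ B rfl, card_empty]
        intro b hb x hx
        exact hBA b hb x (mem_of_mem_erase (mem_filter.1 hx).1)

/-- the generating function of the common arcs of two matchings -/
theorem pair_sum (t : ℝ) (S : Finset ℕ) :
    ∑ μ ∈ full S, ∑ ν ∈ full S, (1 + t) ^ (μ ∩ ν).card = Z t ∅ S := by
  classical
  have e1 : ∀ μ ∈ full S, ∀ ν ∈ full S, (1 + t) ^ (μ ∩ ν).card =
      ∑ K ∈ arcs S, t ^ K.card * ((if K ⊆ μ then 1 else 0) * (if K ⊆ ν then 1 else 0)) := by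
    intro μ hμ ν hν
    have h1 := Finset.sum_pow_mul_eq_add_pow t 1 (μ ∩ ν)
    simp only [one_pow, mul_one] at h1
    rw [add_comm, ← h1]
    have h2 : (μ ∩ ν).powerset = (arcs S).filter fun K => K ⊆ μ ∧ K ⊆ ν := by
      ext K
      rw [mem_powerset, subset_inter_iff, mem_filter, mem_arcs]
      constructor
      · intro h
        refine ⟨⟨fun p hp => (mem_full.1 hμ).1.1 p (h.1 hp),
          fun p hp q hq hpq => (mem_full.1 hμ).1.2 p (h.1 hp) q (h.1 hq) hpq⟩, h⟩
      · exact fun h => h.2
    rw [h2, sum_filter]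
    refine sum_congr rfl fun K _ => ?_
    by_cases k1 : K ⊆ μ <;> by_cases k2 : K ⊆ ν <;> simp [k1, k2]
  rw [sum_congr rfl fun μ hμ => sum_congr rfl fun ν hν => e1 μ hμ ν hν]
  have e2 : ∀ μ ∈ full S, ∑ ν ∈ full S, ∑ K ∈ arcs S,
      t ^ K.card * ((if K ⊆ μ then (1 : ℝ) else 0) * (if K ⊆ ν then 1 else 0)) =
      ∑ K ∈ arcs S, t ^ K.card * ((if K ⊆ μ then (1 : ℝ) else 0) * (cnt S K : ℝ)) := by
    intro μ _
    rw [sum_comm]
    refine sum_congr rfl fun K _ => ?_
    rw [← mul_sum, ← mul_sum]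
    congr 2
    unfold cnt
    rw [card_filter]
    push_cast
    rfl
  rw [sum_congr rfl e2, sum_comm]
  unfold Z
  rw [empty_union]
  refine sum_congr rfl fun K _ => ?_
  rw [← mul_sum, ← sum_mul, sq]
  congr 2
  unfold cnt
  rw [card_filter]
  push_cast
  rfl

end Pool.Agent.Q89.ME
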