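import Mathlib

/-! # First passage paths: the ballot formula, convolution, and the recursion of the matchings -/

set_option autoImplicit false

open Finset PowerSeries

namespace Pool.Agent.Q89.ME

/-- weights of the paths of `N` steps from `h`, first hitting `0` at time `N`; a step `k - 1` has
weight `φ k` -/
noncomputable def P (φ : ℕ → ℝ) : ℕ → ℕ → ℝ
  | 0, 0 => 1
  | 0, _ + 1 => 0
  | _ + 1, 0 => 0
  | N + 1, h + 1 => ∑ k ∈ range (N + 1), φ k * P φ N (h + k)

lemma P_zero_zero (φ : ℕ → ℝ) : P φ 0 0 = 1 := rfl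
lemma P_zero_succ (φ : ℕ → ℝ) (h : ℕ) : P φ 0 (h + 1) = 0 := rfl
lemma P_succ_zero (φ : ℕ → ℝ) (N : ℕ) : P φ (N + 1) 0 = 0 := rfl
lemma P_succ_succ (φ : ℕ → ℝ) (N h : ℕ) :
    P φ (N + 1) (h + 1) = ∑ k ∈ range (N + 1), φ k * P φ N (h + k) := rfl

lemma P_eq_zero (φ : ℕ → ℝ) : ∀ N h : ℕ, N < h → P φ N h = 0 := by
  intro N
  induction N with
  | zero =>
    intro h hh
    obtain ⟨k, rfl⟩ : ∃ k, h = k + 1 := ⟨h - 1, by omega⟩
    rfl
  | succ N ih =>
    intro h hh
    obtain ⟨k, rfl⟩ : ∃ k, h = k + 1 := ⟨h - 1, by omega⟩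
    rw [P_succ_succ]
    exact sum_eq_zero fun j _ => by rw [ih _ (by omega), mul_zero]

/-- the sum may be extended or shortened -/
lemma P_succ_range (φ : ℕ → ℝ) (N h M : ℕ) (hM : N + 1 ≤ h + M) :
    P φ (N + 1) (h + 1) = ∑ k ∈ range M, φ k * P φ N (h + k) := by
  rw [P_succ_succ]
  rcases le_total M (N + 1) with hle | hle
  · symm
    apply sum_subset (range_mono hle)
    intro k _ hk
    rw [mem_range, not_lt] at hk
    rw [P_eq_zero _ _ _ (by omega), mul_zero]
  · apply sum_subset (range_mono hle)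
    intro k _ hk
    rw [mem_range, not_lt] at hk
    rw [P_eq_zero _ _ _ (by omega), mul_zero]

lemma P_conv (φ : ℕ → ℝ) : ∀ N h1 h2 : ℕ,
    P φ N (h1 + h2) = ∑ x ∈ antidiagonal N, P φ x.1 h1 * P φ x.2 h2 := by
  intro N
  induction N with
  | zero =>
    intro h1 h2
    rw [HasAntidiagonal.antidiagonal_zero, sum_singleton]
    rcases h1 with _ | h1
    · rw [zero_add, P_zero_zero, one_mul]
    · rw [P_zero_succ, zero_mul, show h1 + 1 + h2 = (h1 + h2) + 1 by ring, P_zero_succ]
  | succ N ih =>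
    intro h1 h2
    rcases h1 with _ | h
    · rw [zero_add, sum_eq_single (0, N + 1)]
      · rw [P_zero_zero, one_mul]
      · rintro ⟨i, j⟩ hij hne
        rw [HasAntidiagonal.mem_antidiagonal] at hij
        rcases i with _ | i
        · exact absurd (by simp at hij; simp [hij]) hne
        · rw [P_succ_zero, zero_mul]
      · intro hn
        exact absurd (by simp) hn
    · rw [show h + 1 + h2 = (h + h2) + 1 by ring, P_succ_succ,
        Finset.Nat.sum_antidiagonal_succ]
      simp only [P_zero_succ, zero_mul, zero_add]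
      have h3 : ∀ x ∈ antidiagonal N, P φ (x.1 + 1) (h + 1) * P φ x.2 h2 =
          ∑ k ∈ range (N + 1), φ k * (P φ x.1 (h + k) * P φ x.2 h2) := by
        intro x hx
        rw [HasAntidiagonal.mem_antidiagonal] at hx
        rw [P_succ_range φ x.1 h (N + 1) (by omega), sum_mul]
        exact sum_congr rfl fun k _ => by ring
      rw [sum_congr rfl h3, sum_comm]
      refine sum_congr rfl fun k _ => ?_
      rw [← mul_sum, ← ih, show h + h2 + k = h + k + h2 by ring]

/-- the ballot formula -/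
theorem ballot (φ : ℕ → ℝ) : ∀ N h : ℕ, h ≤ N →
    ((N : ℝ) + 1) * P φ (N + 1) (h + 1) = ((h : ℝ) + 1) * coeff (N - h) ((mk φ) ^ (N + 1)) := by
  intro N
  induction N with
  | zero =>
    intro h hh
    obtain rfl : h = 0 := by omega
    rw [P_succ_succ]
    simp [P_zero_zero]
  | succ N ih =>
    intro h hh
    set F : ℝ⟦X⟧ := mk φ with hF
    set M : ℕ := N + 1 - h with hM
    have hN1 : ((N : ℝ) + 1) ≠ 0 := by positivity
    have hN2 : ((N : ℝ) + 2) ≠ 0 := by positivity
    -- the product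
    have e1 : coeff M (F ^ (N + 1 + 1)) =
        ∑ x ∈ antidiagonal M, φ x.1 * coeff x.2 (F ^ (N + 1)) := by
      rw [pow_succ', coeff_mul]
      exact sum_congr rfl fun x _ => by rw [hF, coeff_mk]
    -- the derivative
    have e2 : (M : ℝ) * coeff M (F ^ (N + 1 + 1)) =
        ((N : ℝ) + 2) * ∑ x ∈ antidiagonal M, ((x.1 : ℝ) * φ x.1) * coeff x.2 (F ^ (N + 1)) := by
      have hd : (X : ℝ⟦X⟧) * PowerSeries.derivative ℝ (F ^ (N + 1 + 1)) =
          ((N : ℝ) + 2) • ((X * PowerSeries.derivative ℝ F) * F ^ (N + 1)) := by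
        have := Derivation.leibniz_pow (PowerSeries.derivative ℝ) F (N + 1 + 1)
        rw [this]
        simp only [Nat.add_sub_cancel, smul_eq_mul]
        rw [← Nat.cast_smul_eq_nsmul ℝ, mul_smul_comm]
        push_cast
        rw [show (N : ℝ) + 1 + 1 = N + 2 by ring]
        congr 1
        ring
      have c1 : ∀ (G : ℝ⟦X⟧) (k : ℕ), coeff k (X * PowerSeries.derivative ℝ G) = (k : ℝ) * coeff k G := by
        intro G k
        rcases k with _ | k
        · simp
        · rw [PowerSeries.coeff_succ_X_mul, PowerSeries.coeff_derivative]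
          push_cast
          ring
      have h4 := congrArg (coeff M) hd
      rw [c1, coeff_smul, coeff_mul] at h4
      rw [h4]
      congr 1
      refine sum_congr rfl fun x _ => ?_
      rw [c1, hF, coeff_mk]
    -- the recursion
    have e3 : ((N : ℝ) + 1) * P φ (N + 1 + 1) (h + 1) =
        ∑ x ∈ antidiagonal M, φ x.1 * (((h : ℝ) + x.1) * coeff x.2 (F ^ (N + 1))) := by
      rw [P_succ_range φ (N + 1) h (M + 1) (by omega),
        Finset.Nat.sum_antidiagonal_eq_sum_range_succ_mk, mul_sum]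
      refine sum_congr rfl fun k hk => ?_
      rw [mem_range] at hk
      dsimp only
      rcases Nat.eq_zero_or_pos (h + k) with h0 | h0
      · have hh0 : h = 0 := by omega
        have hk0 : k = 0 := by omega
        subst hh0; subst hk0
        rw [P_succ_zero]
        simp
      · have h5 := ih (h + k - 1) (by omega)
        have h6 : h + k - 1 + 1 = h + k := by omega
        rw [h6] at h5
        have h7 : (((h + k - 1 : ℕ) : ℝ) + 1) = (h : ℝ) + k := by
          have : (((h + k - 1 : ℕ) : ℝ) + 1) = ((h + k - 1 + 1 : ℕ) : ℝ) := by push_cast; ring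
          rw [this, h6]; push_cast; ring
        rw [h7, show N - (h + k - 1) = M - k by omega] at h5
        rw [mul_left_comm, h5]
    have e4 : ((N : ℝ) + 2) * (((N : ℝ) + 1) * P φ (N + 1 + 1) (h + 1)) =
        ((N : ℝ) + 1) * (((h : ℝ) + 1) * coeff M (F ^ (N + 1 + 1))) := by
      have hMr : (M : ℝ) = N + 1 - h := by
        rw [hM, Nat.cast_sub hh]; push_cast; ring
      have e5 : ∑ x ∈ antidiagonal M, φ x.1 * (((h : ℝ) + x.1) * coeff x.2 (F ^ (N + 1))) =
          h * coeff M (F ^ (N + 1 + 1)) +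
            ∑ x ∈ antidiagonal M, ((x.1 : ℝ) * φ x.1) * coeff x.2 (F ^ (N + 1)) := by
        rw [e1, mul_sum, ← sum_add_distrib]
        exact sum_congr rfl fun x _ => by ring
      rw [e3, e5, mul_add, ← e2, hMr]
      ring
    have e6 : ((N : ℝ) + 1) * (((N : ℝ) + 2) * P φ (N + 1 + 1) (h + 1)) =
        ((N : ℝ) + 1) * (((h : ℝ) + 1) * coeff M (F ^ (N + 1 + 1))) := by
      rw [← e4]; ring
    have e7 := mul_left_cancel₀ hN1 e6
    push_cast
    rw [show (N : ℝ) + 1 + 1 = N + 2 by ring]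
    exact e7

/-- the solution of the recursion -/
noncomputable def Uf (g : ℕ → ℝ) (φ : ℕ → ℝ) (N q : ℕ) : ℝ :=
  ∑ Q ∈ range (N + 1), g (q + Q) * P φ (N + 1) (Q + 1)

theorem Uf_rec (g φ : ℕ → ℝ) (t : ℝ) (h0 : φ 0 = 1) (h1 : φ 1 = 0)
    (h2 : ∀ k, φ (k + 2) = t * g k) (N q : ℕ) :
    Uf g φ (N + 2) q = Uf g φ (N + 1) (q + 1) +
      t * ∑ x ∈ antidiagonal N, Uf g φ x.1 0 * Uf g φ x.2 q := by
  -- expand P
  have e1 : ∀ Q : ℕ, P φ (N + 3) (Q + 1) = P φ (N + 2) Q +
      t * ∑ k ∈ range (N + 1), g k * P φ (N + 2) (Q + k + 2) := by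
    intro Q
    rw [show N + 3 = (N + 2) + 1 by ring, P_succ_range φ (N + 2) Q (N + 1 + 2) (by omega),
      sum_range_succ', sum_range_succ', mul_sum]
    rw [h0, h1]
    simp only [add_zero, zero_mul, one_mul]
    rw [add_comm]
    congr 1
    refine sum_congr rfl fun k _ => ?_
    rw [h2, show Q + (k + 1 + 1) = Q + k + 2 by ring]
    ring
  unfold Uf
  rw [show N + 2 + 1 = N + 3 by ring]
  simp only [e1, mul_add, sum_add_distrib]
  congr 1
  · rw [sum_range_succ']
    rw [show N + 2 = N + 1 + 1 by ring, P_succ_zero, mul_zero, add_zero]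
    exact sum_congr rfl fun k _ => by rw [show q + (k + 1) = q + 1 + k by ring]
  · -- the convolution
    have e2 : ∀ Q k : ℕ, P φ (N + 2) (Q + k + 2) =
        ∑ x ∈ antidiagonal N, P φ (x.1 + 1) (k + 1) * P φ (x.2 + 1) (Q + 1) := by
      intro Q k
      rw [show Q + k + 2 = (k + 1) + (Q + 1) by ring, P_conv, Finset.Nat.sum_antidiagonal_succ,
        P_zero_succ, zero_mul, zero_add, Finset.Nat.sum_antidiagonal_succ', P_zero_succ, mul_zero,
        zero_add]
    simp only [e2]
    have e3 : ∀ x ∈ antidiagonal N, (∑ Q ∈ range (x.1 + 1), g (0 + Q) * P φ (x.1 + 1) (Q + 1)) *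
        (∑ Q ∈ range (x.2 + 1), g (q + Q) * P φ (x.2 + 1) (Q + 1)) =
        (∑ k ∈ range (N + 1), g k * P φ (x.1 + 1) (k + 1)) *
        (∑ Q ∈ range (N + 3), g (q + Q) * P φ (x.2 + 1) (Q + 1)) := by
      intro x hx
      rw [HasAntidiagonal.mem_antidiagonal] at hx
      congr 1
      · simp only [zero_add]
        apply sum_subset (range_mono (by omega))
        intro k _ hk
        rw [mem_range, not_lt] at hk
        rw [P_eq_zero _ _ _ (by omega), mul_zero]
      · apply sum_subset (range_mono (by omega))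
        intro k _ hk
        rw [mem_range, not_lt] at hk
        rw [P_eq_zero _ _ _ (by omega), mul_zero]
    rw [sum_congr rfl e3]
    have e4 : ∀ Q ∈ range (N + 3), g (q + Q) * (t * ∑ k ∈ range (N + 1), g k *
        ∑ x ∈ antidiagonal N, P φ (x.1 + 1) (k + 1) * P φ (x.2 + 1) (Q + 1)) =
        ∑ k ∈ range (N + 1), ∑ x ∈ antidiagonal N,
          t * (g k * P φ (x.1 + 1) (k + 1)) * (g (q + Q) * P φ (x.2 + 1) (Q + 1)) := by
      intro Q _
      simp only [mul_sum]
      exact sum_congr rfl fun k _ => sum_congr rfl fun x _ => by ring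
    have e5 : ∀ x ∈ antidiagonal N, t * ((∑ k ∈ range (N + 1), g k * P φ (x.1 + 1) (k + 1)) *
        (∑ Q ∈ range (N + 3), g (q + Q) * P φ (x.2 + 1) (Q + 1))) =
        ∑ k ∈ range (N + 1), ∑ Q ∈ range (N + 3),
          t * (g k * P φ (x.1 + 1) (k + 1)) * (g (q + Q) * P φ (x.2 + 1) (Q + 1)) := by
      intro x _
      rw [sum_mul_sum, mul_sum]
      refine sum_congr rfl fun k _ => ?_
      rw [mul_sum]
      exact sum_congr rfl fun Q _ => by ring
    rw [sum_congr rfl e4, mul_sum, sum_congr rfl e5, sum_comm]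
    rw [sum_comm (s := antidiagonal N)]
    refine sum_congr rfl fun k _ => ?_
    rw [sum_comm]

end Pool.Agent.Q89.ME
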