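import Pool.Agent.Q89.ME.A2
import Pool.Agent.Q89.ME.B

/-! # The exact identity -/

set_option autoImplicit false

open Finset PowerSeries

namespace Pool.Agent.Q89.ME

/-- derivative of a power, coefficients -/
lemma coeff_pow_deriv (φ : ℕ → ℝ) (N M : ℕ) :
    (M : ℝ) * coeff M ((mk φ : ℝ⟦X⟧) ^ (N + 1)) =
      ((N : ℝ) + 1) * ∑ x ∈ antidiagonal M, ((x.1 : ℝ) * φ x.1) * coeff x.2 ((mk φ : ℝ⟦X⟧) ^ N) := by
  set F : ℝ⟦X⟧ := mk φ with hF
  have hd : (X : ℝ⟦X⟧) * PowerSeries.derivative ℝ (F ^ (N + 1)) =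
      ((N : ℝ) + 1) • ((X * PowerSeries.derivative ℝ F) * F ^ N) := by
    have := Derivation.leibniz_pow (PowerSeries.derivative ℝ) F (N + 1)
    rw [this]
    simp only [Nat.add_sub_cancel, smul_eq_mul]
    rw [← Nat.cast_smul_eq_nsmul ℝ, mul_smul_comm]
    push_cast
    congr 1
    ring
  have c1 : ∀ (G : ℝ⟦X⟧) (k : ℕ), coeff k (X * PowerSeries.derivative ℝ G) = (k : ℝ) * coeff k G := by
    intro G k
    rcases k with _ | k
    · simp
    · rw [PowerSeries.coeff_succ_X_mul, PowerSeries.coeff_derivative]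
      push_cast
      ring
  have h4 := congrArg (coeff M) hd
  rw [c1, coeff_smul, coeff_mul] at h4
  rw [h4]
  congr 1
  refine sum_congr rfl fun x _ => ?_
  rw [c1, hF, coeff_mk]

/-- series in even powers -/
lemma coeff_even (φ : ℕ → ℝ) (hφ : ∀ m, φ (2 * m + 1) = 0) (N : ℕ) : ∀ m : ℕ,
    coeff (2 * m) ((mk φ : ℝ⟦X⟧) ^ N) = coeff m ((mk fun k => φ (2 * k) : ℝ⟦X⟧) ^ N) ∧
    coeff (2 * m + 1) ((mk φ : ℝ⟦X⟧) ^ N) = 0 := by
  induction N with
  | zero =>
    intro m
    rw [pow_zero, pow_zero, coeff_one, coeff_one, coeff_one]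
    constructor
    · rcases m with _ | m
      · simp
      · rw [if_neg (by omega), if_neg (by omega)]
    · rw [if_neg (by omega)]
  | succ N ih =>
    intro m
    rw [pow_succ', pow_succ', coeff_mul, coeff_mul, coeff_mul]
    simp only [coeff_mk]
    constructor
    · rw [Finset.Nat.sum_antidiagonal_eq_sum_range_succ
        (fun i l => φ i * coeff l ((mk φ : ℝ⟦X⟧) ^ N)),
        Finset.Nat.sum_antidiagonal_eq_sum_range_succ
        (fun i l => φ (2 * i) * coeff l ((mk fun k => φ (2 * k) : ℝ⟦X⟧) ^ N))]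
      have h1 : ∑ i ∈ range (2 * m + 1), φ i * coeff (2 * m - i) ((mk φ : ℝ⟦X⟧) ^ N) =
          ∑ i ∈ (range (m + 1)).image (fun i => 2 * i),
            φ i * coeff (2 * m - i) ((mk φ : ℝ⟦X⟧) ^ N) := by
        symm
        apply sum_subset
        · intro i hi
          rw [mem_image] at hi
          obtain ⟨l, hl, rfl⟩ := hi
          rw [mem_range] at *
          omega
        · intro i hi hni
          rw [mem_range] at hi
          rcases Nat.even_or_odd i with he | ho
          · obtain ⟨l, hl⟩ := he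
            exfalso
            apply hni
            rw [mem_image]
            exact ⟨l, by rw [mem_range]; omega, by omega⟩
          · obtain ⟨l, rfl⟩ := ho
            rw [hφ, zero_mul]
      rw [Nat.succ_eq_add_one, h1, sum_image (fun a _ b _ h => by omega)]
      refine sum_congr rfl fun i hi => ?_
      rw [mem_range] at hi
      rw [show 2 * m - 2 * i = 2 * (m - i) by omega, (ih (m - i)).1]
    · refine sum_eq_zero fun x hx => ?_
      rw [HasAntidiagonal.mem_antidiagonal] at hx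
      rcases Nat.even_or_odd x.1 with he | ho
      · obtain ⟨l, hl⟩ := he
        have : x.2 = 2 * (m - l) + 1 := by omega
        rw [this, (ih (m - l)).2, mul_zero]
      · obtain ⟨l, hl⟩ := ho
        rw [hl, hφ, zero_mul]

/-- `C_{m-1}² / 16^m` -/
noncomputable def b : ℕ → ℝ
  | 0 => 0
  | r + 1 => (catalan r : ℝ) ^ 2 / 16 ^ (r + 1)

lemma b_zero : b 0 = 0 := rfl
lemma b_succ (r : ℕ) : b (r + 1) = (catalan r : ℝ) ^ 2 / 16 ^ (r + 1) := rfl

/-- `(2r+1) C_r² / 16^r` -/
noncomputable def d (r : ℕ) : ℝ := (2 * r + 1) * (catalan r : ℝ) ^ 2 / 16 ^ r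

/-- the coefficients of `1 + t B` -/
noncomputable def fs (t : ℝ) (m : ℕ) : ℝ := (if m = 0 then 1 else 0) + t * b m

/-- the power series `1 + t B` -/
noncomputable def Fs (t : ℝ) : ℝ⟦X⟧ := mk (fs t)

/-- the step weights of the paths -/
noncomputable def st (t : ℝ) : ℕ → ℝ
  | 0 => 1
  | 1 => 0
  | k + 2 => t * gg k

lemma gg_even (m : ℕ) : gg (2 * m) = (catalan m : ℝ) ^ 2 := by
  unfold gg; rw [(cc_odd_even m).1]
lemma gg_odd (m : ℕ) : gg (2 * m + 1) = 0 := by
  unfold gg; rw [(cc_odd_even m).2]; simp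

lemma st_odd (t : ℝ) (m : ℕ) : st t (2 * m + 1) = 0 := by
  rcases m with _ | m
  · rfl
  · rw [show 2 * (m + 1) + 1 = (2 * m + 1) + 2 by ring]
    show t * gg (2 * m + 1) = 0
    rw [gg_odd, mul_zero]

lemma rescale_Fs (t : ℝ) : PowerSeries.rescale (16 : ℝ) (Fs t) = mk fun k => st t (2 * k) := by
  ext m
  rw [coeff_rescale, Fs, coeff_mk, coeff_mk, fs]
  rcases m with _ | m
  · simp [b_zero, st]
  · rw [if_neg (by omega), b_succ, show 2 * (m + 1) = 2 * m + 2 by ring]
    show _ = t * gg (2 * m)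
    rw [gg_even]
    field_simp
    ring

lemma Uf_even (t : ℝ) (n : ℕ) :
    (2 * (n : ℝ) + 1) * Uf gg (st t) (2 * n) 0 =
      ∑ j ∈ range (n + 1), (2 * ((n - j : ℕ) : ℝ) + 1) * (catalan (n - j) : ℝ) ^ 2 *
        (16 ^ j * coeff j (Fs t ^ (2 * n + 1))) := by
  unfold Uf
  rw [mul_sum]
  have h1 : ∀ Q ∈ range (2 * n + 1), (2 * (n : ℝ) + 1) * (gg (0 + Q) * P (st t) (2 * n + 1) (Q + 1)) =
      gg Q * (((Q : ℝ) + 1) * coeff (2 * n - Q) ((mk (st t) : ℝ⟦X⟧) ^ (2 * n + 1))) := by
    intro Q hQ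
    rw [mem_range] at hQ
    rw [← ballot (st t) (2 * n) Q (by omega), zero_add]
    push_cast
    ring
  rw [sum_congr rfl h1]
  have h2 : ∑ Q ∈ range (2 * n + 1), gg Q * (((Q : ℝ) + 1) *
      coeff (2 * n - Q) ((mk (st t) : ℝ⟦X⟧) ^ (2 * n + 1))) =
      ∑ Q ∈ (range (n + 1)).image (fun j => 2 * (n - j)), gg Q * (((Q : ℝ) + 1) *
      coeff (2 * n - Q) ((mk (st t) : ℝ⟦X⟧) ^ (2 * n + 1))) := by
    symm
    apply sum_subset
    · intro i hi
      rw [mem_image] at hi
      obtain ⟨l, hl, rfl⟩ := hi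
      rw [mem_range] at *
      omega
    · intro i hi hni
      rw [mem_range] at hi
      rcases Nat.even_or_odd i with he | ho
      · obtain ⟨l, hl⟩ := he
        exfalso
        apply hni
        rw [mem_image]
        exact ⟨n - l, by rw [mem_range]; omega, by omega⟩
      · obtain ⟨l, rfl⟩ := ho
        rw [gg_odd, zero_mul]
  rw [h2, sum_image (fun a ha b' hb h => by
    rw [mem_coe, mem_range] at ha hb; omega)]
  refine sum_congr rfl fun j hj => ?_
  rw [mem_range] at hj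
  rw [gg_even, show 2 * n - 2 * (n - j) = 2 * j by omega,
    (coeff_even (st t) (st_odd t) (2 * n + 1) j).1, ← rescale_Fs, ← map_pow, coeff_rescale]
  push_cast
  ring

lemma catalan_pos (n : ℕ) : 0 < (catalan n : ℝ) := by
  have h := succ_mul_catalan_eq_centralBinom n
  have h2 := Nat.centralBinom_pos n
  rw [← h] at h2
  exact_mod_cast Nat.pos_of_mul_pos_left h2

lemma d_pos (r : ℕ) : 0 < d r := by
  have := catalan_pos r
  unfold d
  positivity

/-- the weights of the identity -/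
noncomputable def ph (n j : ℕ) : ℝ := d (n - j) / d n

/-- **the exact identity** -/
theorem identity (t : ℝ) (n : ℕ) (S : Finset ℕ) (hS : S.card = 2 * n) :
    (∑ μ ∈ full S, ∑ ν ∈ full S, (1 + t) ^ (μ ∩ ν).card) / (catalan n : ℝ) ^ 2 =
      ∑ j ∈ range (n + 1), ph n j * coeff j (Fs t ^ (2 * n + 1)) := by
  have hrec : ∀ N q, Uf gg (st t) (N + 2) q = Uf gg (st t) (N + 1) (q + 1) +
      t * ∑ x ∈ antidiagonal N, Uf gg (st t) x.1 0 * Uf gg (st t) x.2 q :=
    fun N q => Uf_rec gg (st t) t rfl rfl (fun _ => rfl) N q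
  have h0 : ∀ q, Uf gg (st t) 0 q = gg q := by
    intro q
    unfold Uf
    rw [zero_add, sum_range_one, P_succ_succ]
    simp [P_zero_zero, st]
  have h1 : ∀ q, Uf gg (st t) 1 q = Uf gg (st t) 0 (q + 1) := by
    intro q
    rw [h0]
    unfold Uf
    rw [sum_range_succ, sum_range_one, P_succ_succ, P_succ_succ, sum_range_succ, sum_range_one,
      sum_range_succ, sum_range_one]
    simp [P_zero_zero, st, P_succ_succ, P_succ_zero, P_zero_succ]
  have e1 := Z_eq t (Uf gg (st t)) h0 h1 hrec (2 * n) S ∅ hS (by simp)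
  rw [pair_sum, e1, card_empty]
  have e2 := Uf_even t n
  have hn : (2 * (n : ℝ) + 1) ≠ 0 := by positivity
  have hc := (catalan_pos n).ne'
  rw [eq_comm, eq_div_iff (by positivity), ← mul_right_inj' hn, e2, sum_mul, mul_sum]
  refine sum_congr rfl fun j hj => ?_
  rw [mem_range] at hj
  have e3 : (16 : ℝ) ^ n = 16 ^ (n - j) * 16 ^ j := by
    rw [← pow_add]; congr 1; omega
  unfold ph d
  rw [e3]
  field_simp

lemma card_full {S : Finset ℕ} {n : ℕ} (hS : S.card = 2 * n) : (full S).card = catalan n := by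
  have := nf_eq _ S hS
  rw [(cc_odd_even n).1] at this
  exact this

end Pool.Agent.Q89.ME
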