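import Pool.Agent.Q89.ME.C

/-! # The sequences `b`, `d` and the weights -/

set_option autoImplicit false

open Finset PowerSeries Filter Topology

namespace Pool.Agent.Q89.ME

lemma catalan_ratio (r : ℕ) :
    ((r : ℝ) + 2) * (catalan (r + 1) : ℝ) = 2 * (2 * r + 1) * (catalan r : ℝ) := by
  have h1 := succ_mul_catalan_eq_centralBinom r
  have h2 := succ_mul_catalan_eq_centralBinom (r + 1)
  have h3 := Nat.succ_mul_centralBinom_succ r
  rw [← h1, ← h2] at h3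
  have h4 : ((r : ℝ) + 1) * (((r : ℝ) + 2) * (catalan (r + 1) : ℝ)) =
      ((r : ℝ) + 1) * (2 * (2 * r + 1) * (catalan r : ℝ)) := by
    have := congrArg (Nat.cast : ℕ → ℝ) h3
    push_cast at this
    linarith
  exact mul_left_cancel₀ (by positivity) h4

/-- normalised `d` -/
noncomputable def e (r : ℕ) : ℝ := ((r : ℝ) + 1) ^ 2 * d r

lemma e_pos (r : ℕ) : 0 < e r := by
  have := d_pos r
  unfold e
  positivity

lemma e_zero : e 0 = 1 := by
  unfold e d
  simp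

lemma e_succ (r : ℕ) : e (r + 1) = e r * ((2 * r + 1) * (2 * r + 3) / (4 * ((r : ℝ) + 1) ^ 2)) := by
  have h := catalan_ratio r
  have h2 : (catalan (r + 1) : ℝ) = 2 * (2 * r + 1) * (catalan r : ℝ) / (r + 2) := by
    rw [eq_div_iff (by positivity), mul_comm]; exact h
  unfold e d
  rw [h2]
  push_cast
  have h3 : ((r : ℝ) + 2) ≠ 0 := by positivity
  have h4 : ((r : ℝ) + 1) ≠ 0 := by positivity
  have h5 : ((r : ℝ) + 1 + 1) = r + 2 := by ring
  rw [h5]
  field_simp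
  ring

lemma e_succ_le (r : ℕ) : e (r + 1) ≤ e r := by
  rw [e_succ]
  apply mul_le_of_le_one_right (e_pos r).le
  rw [div_le_one (by positivity)]
  nlinarith

lemma e_anti : Antitone e := antitone_nat_of_succ_le e_succ_le

lemma e_le_one (r : ℕ) : e r ≤ 1 := by
  rw [← e_zero]; exact e_anti (Nat.zero_le r)

lemma e_ge (r : ℕ) : ((r : ℝ) + 1) / (2 * r + 1) ≤ e r := by
  induction r with
  | zero => rw [e_zero]; simp
  | succ r ih =>
    rw [e_succ]
    have h1 : ((r : ℝ) + 1) / (2 * r + 1) * ((2 * r + 1) * (2 * r + 3) / (4 * ((r : ℝ) + 1) ^ 2)) ≤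
        e r * ((2 * r + 1) * (2 * r + 3) / (4 * ((r : ℝ) + 1) ^ 2)) :=
      mul_le_mul_of_nonneg_right ih (by positivity)
    refine le_trans ?_ h1
    push_cast
    have h4 : ((r : ℝ) + 1) / (2 * r + 1) * ((2 * r + 1) * (2 * r + 3) / (4 * ((r : ℝ) + 1) ^ 2)) =
        (2 * r + 3) / (4 * ((r : ℝ) + 1)) := by
      field_simp
    rw [h4, div_le_div_iff₀ (by positivity) (by positivity)]
    nlinarith

lemma e_ge_half (r : ℕ) : 1 / 2 ≤ e r := by
  refine le_trans ?_ (e_ge r)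
  rw [div_le_div_iff₀ (by positivity) (by positivity)]
  linarith

/-- the limit of `e` -/
noncomputable def einf : ℝ := ⨅ r, e r

lemma tendsto_e : Tendsto e atTop (𝓝 einf) :=
  tendsto_atTop_ciInf e_anti ⟨1 / 2, by rintro _ ⟨r, rfl⟩; exact e_ge_half r⟩

lemma einf_pos : 0 < einf := by
  have : 1 / 2 ≤ einf := le_ciInf e_ge_half
  linarith

lemma d_eq (r : ℕ) : d r = e r / ((r : ℝ) + 1) ^ 2 := by
  unfold e
  field_simp

lemma d_anti : Antitone d := by
  apply antitone_nat_of_succ_le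
  intro r
  rw [d_eq, d_eq]
  push_cast
  have h1 := e_succ_le r
  have h2 := (e_pos (r + 1)).le
  apply div_le_div₀ (e_pos r).le h1 (by positivity)
  nlinarith [(Nat.cast_nonneg r : (0 : ℝ) ≤ r)]

lemma b_eq (m : ℕ) : b (m + 1) = e m / (16 * (((m : ℝ) + 1) ^ 2 * (2 * m + 1))) := by
  rw [b_succ]
  unfold e d
  field_simp
  ring

lemma b_nonneg (m : ℕ) : 0 ≤ b m := by
  rcases m with _ | m
  · exact le_rfl
  · rw [b_succ]; positivity

lemma b_pos (m : ℕ) : 0 < b (m + 1) := by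
  have := catalan_pos m
  rw [b_succ]; positivity

lemma b_le (m : ℕ) (hm : 1 ≤ m) : b m ≤ 1 / (16 * (m : ℝ) ^ 3) := by
  obtain ⟨k, rfl⟩ : ∃ k, m = k + 1 := ⟨m - 1, by omega⟩
  rw [b_eq]
  push_cast
  have h1 := e_le_one k
  have h2 := (e_pos k).le
  have hk : (0 : ℝ) ≤ k := Nat.cast_nonneg k
  apply div_le_div₀ zero_le_one h1 (by positivity)
  have : ((k : ℝ) + 1) ^ 3 = (k + 1) ^ 2 * (k + 1) := by ring
  rw [this]
  have h3 : (0 : ℝ) ≤ (k + 1) ^ 2 := by positivity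
  nlinarith [mul_nonneg h3 hk]

lemma mb_le (m : ℕ) (hm : 1 ≤ m) : (m : ℝ) * b m ≤ 1 / (16 * (m : ℝ) ^ 2) := by
  have h := b_le m hm
  have hm' : (0 : ℝ) < m := by exact_mod_cast hm
  calc (m : ℝ) * b m ≤ m * (1 / (16 * (m : ℝ) ^ 3)) := mul_le_mul_of_nonneg_left h hm'.le
    _ = 1 / (16 * (m : ℝ) ^ 2) := by field_simp

lemma summable_inv_sq : Summable fun m : ℕ => 1 / (m : ℝ) ^ 2 :=
  Real.summable_one_div_nat_pow.2 (by norm_num)

lemma mb_le' (m : ℕ) : (m : ℝ) * b m ≤ 1 / 16 * (1 / (m : ℝ) ^ 2) := by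
  rcases Nat.eq_zero_or_pos m with rfl | hm
  · simp
  · refine (mb_le m hm).trans (le_of_eq ?_)
    have hm' : (0 : ℝ) < m := by exact_mod_cast hm
    field_simp

lemma summable_mb : Summable fun m : ℕ => (m : ℝ) * b m :=
  Summable.of_nonneg_of_le (fun m => mul_nonneg (Nat.cast_nonneg m) (b_nonneg m)) mb_le'
    (summable_inv_sq.mul_left _)

lemma b_le_mb (m : ℕ) : b m ≤ m * b m := by
  rcases Nat.eq_zero_or_pos m with rfl | hm
  · simp [b_zero]
  · have hm' : (1 : ℝ) ≤ m := by exact_mod_cast hm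
    exact le_mul_of_one_le_left (b_nonneg m) hm'

lemma summable_b : Summable b :=
  Summable.of_nonneg_of_le b_nonneg b_le_mb summable_mb

/-- `y₀ = ∑ b_m` -/
noncomputable def y0 : ℝ := ∑' m, b m
/-- `μ₁ = ∑ m b_m` -/
noncomputable def mu1 : ℝ := ∑' m : ℕ, (m : ℝ) * b m

lemma y0_pos : 0 < y0 := summable_b.tsum_pos b_nonneg 1 (b_pos 0)

lemma y0_lt_one : y0 < 1 := by
  have h1 : y0 ≤ ∑' m : ℕ, 1 / 16 * (1 / (m : ℝ) ^ 2) :=
    summable_b.tsum_le_tsum (fun m => (b_le_mb m).trans (mb_le' m)) (summable_inv_sq.mul_left _)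
  rw [tsum_mul_left, hasSum_zeta_two.tsum_eq] at h1
  have h2 := Real.pi_lt_four
  have h3 := Real.pi_pos
  nlinarith

lemma mu1_pos : 0 < mu1 :=
  summable_mb.tsum_pos (fun m => mul_nonneg (Nat.cast_nonneg m) (b_nonneg m)) 1
    (by have := b_pos 0; simpa using this)

lemma ph_ge_one {n j : ℕ} : 1 ≤ ph n j := by
  unfold ph
  rw [one_le_div (d_pos n)]
  exact d_anti (by omega)

lemma ph_pos (n j : ℕ) : 0 < ph n j := div_pos (d_pos _) (d_pos _)

lemma ph_eq {n j : ℕ} (hj : j ≤ n) :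
    ph n j = e (n - j) / e n * (((n : ℝ) + 1) / ((n : ℝ) - j + 1)) ^ 2 := by
  unfold ph
  rw [d_eq, d_eq, Nat.cast_sub hj]
  have h1 : (n : ℝ) - j + 1 ≠ 0 := by
    have : (j : ℝ) ≤ n := by exact_mod_cast hj
    have : 0 < (n : ℝ) - j + 1 := by linarith
    exact this.ne'
  have h2 := (e_pos n).ne'
  field_simp

lemma ph_le {n j : ℕ} (hj : j ≤ n) :
    ph n j ≤ 2 * (((n : ℝ) + 1) / ((n : ℝ) - j + 1)) ^ 2 := by
  rw [ph_eq hj]
  apply mul_le_mul_of_nonneg_right _ (sq_nonneg _)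
  rw [div_le_iff₀ (e_pos n)]
  have := e_le_one (n - j)
  have := e_ge_half n
  linarith

end Pool.Agent.Q89.ME
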