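import Pool.Agent.Q89.ME.D

/-! # The local bound and the limit of the correction factor -/

set_option autoImplicit false

open Finset PowerSeries Filter Topology

namespace Pool.Agent.Q89.ME

lemma conv_hasSum {f g : ℕ → ℝ} {a c : ℝ} (hf0 : ∀ n, 0 ≤ f n) (hg0 : ∀ n, 0 ≤ g n)
    (hf : HasSum f a) (hg : HasSum g c) :
    HasSum (fun n => ∑ x ∈ antidiagonal n, f x.1 * g x.2) (a * c) := by
  have h1 : Summable fun x : ℕ × ℕ => f x.1 * g x.2 :=
    hf.summable.mul_of_nonneg hg.summable hf0 hg0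
  have h2 := summable_sum_mul_antidiagonal_of_summable_mul h1
  have h3 := hf.summable.tsum_mul_tsum_eq_tsum_sum_antidiagonal hg.summable h1
  rw [hf.tsum_eq, hg.tsum_eq] at h3
  rw [h3]
  exact h2.hasSum

lemma fs_nonneg {t : ℝ} (ht : 0 ≤ t) (m : ℕ) : 0 ≤ fs t m := by
  unfold fs
  have := b_nonneg m
  split_ifs <;> positivity

lemma coeff_nonneg {t : ℝ} (ht : 0 ≤ t) (N : ℕ) : ∀ j, 0 ≤ coeff j (Fs t ^ N) := by
  induction N with
  | zero =>
    intro j
    rw [pow_zero, coeff_one]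
    split_ifs <;> norm_num
  | succ N ih =>
    intro j
    rw [pow_succ', coeff_mul]
    refine sum_nonneg fun x _ => mul_nonneg ?_ (ih _)
    rw [Fs, coeff_mk]
    exact fs_nonneg ht _

lemma hasSum_fs (t : ℝ) : HasSum (fs t) (1 + t * y0) := by
  unfold fs
  have h1 : HasSum (fun m : ℕ => if m = 0 then (1 : ℝ) else 0) 1 := by
    have := hasSum_ite_eq (0 : ℕ) (1 : ℝ)
    exact this
  exact h1.add (summable_b.hasSum.mul_left t)

lemma hasSum_coeff {t : ℝ} (ht : 0 ≤ t) (N : ℕ) :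
    HasSum (fun j => coeff j (Fs t ^ N)) ((1 + t * y0) ^ N) := by
  induction N with
  | zero =>
    simp only [pow_zero, coeff_one]
    exact hasSum_ite_eq (0 : ℕ) (1 : ℝ)
  | succ N ih =>
    have h := conv_hasSum (fs_nonneg ht) (coeff_nonneg ht N) (hasSum_fs t) ih
    rw [pow_succ' (1 + t * y0)]
    have h2 : (fun j => coeff j (Fs t ^ (N + 1))) =
        fun n => ∑ x ∈ antidiagonal n, fs t x.1 * coeff x.2 (Fs t ^ N) := by
      funext j
      rw [pow_succ', coeff_mul]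
      exact sum_congr rfl fun x _ => by rw [Fs, coeff_mk]
    rw [h2]
    exact h

/-- the normalised coefficients -/
noncomputable def Q (t : ℝ) (N j : ℕ) : ℝ := coeff j (Fs t ^ N) / (1 + t * y0) ^ N

lemma one_add_pos {t : ℝ} (ht : 0 ≤ t) : 0 < 1 + t * y0 := by
  have := y0_pos
  positivity

lemma Q_nonneg {t : ℝ} (ht : 0 ≤ t) (N j : ℕ) : 0 ≤ Q t N j :=
  div_nonneg (coeff_nonneg ht N j) (pow_nonneg (one_add_pos ht).le N)

lemma hasSum_Q {t : ℝ} (ht : 0 ≤ t) (N : ℕ) : HasSum (Q t N) 1 := by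
  have h := (hasSum_coeff ht N).div_const ((1 + t * y0) ^ N)
  rw [div_self (pow_ne_zero _ (one_add_pos ht).ne')] at h
  exact h

lemma Q_le_one {t : ℝ} (ht : 0 ≤ t) (N j : ℕ) : Q t N j ≤ 1 := by
  rw [← (hasSum_Q ht N).tsum_eq]
  exact (hasSum_Q ht N).summable.le_tsum j (fun i _ => Q_nonneg ht N i)

lemma mfs (t : ℝ) (m : ℕ) : (m : ℝ) * fs t m = t * (m * b m) := by
  unfold fs
  rcases Nat.eq_zero_or_pos m with rfl | hm
  · simp
  · rw [if_neg (by omega)]; ring

lemma jQ {t : ℝ} (ht : 0 ≤ t) (N j : ℕ) : (j : ℝ) * Q t (N + 1) j =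
    (N + 1) * t / (1 + t * y0) * ∑ x ∈ antidiagonal j, ((x.1 : ℝ) * b x.1) * Q t N x.2 := by
  have h := coeff_pow_deriv (fs t) N j
  unfold Q
  rw [mul_div_assoc', show (Fs t) = mk (fs t) from rfl, h]
  simp only [mfs]
  rw [mul_sum, mul_sum, sum_div]
  refine sum_congr rfl fun x _ => ?_
  have h1 := (one_add_pos ht).ne'
  rw [pow_succ]
  field_simp

lemma jQ_le {t : ℝ} (ht : 0 ≤ t) (N j : ℕ) : (j : ℝ) * Q t (N + 1) j ≤
    (N + 1) * t * ∑ x ∈ antidiagonal j, ((x.1 : ℝ) * b x.1) * Q t N x.2 := by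
  rw [jQ ht]
  apply mul_le_mul_of_nonneg_right
  · apply div_le_self (by positivity)
    have := y0_pos
    nlinarith
  · exact sum_nonneg fun x _ => mul_nonneg (mul_nonneg (Nat.cast_nonneg _) (b_nonneg _))
      (Q_nonneg ht _ _)

lemma sum_Q_le {t : ℝ} (ht : 0 ≤ t) (N : ℕ) (A : Finset ℕ) : ∑ j ∈ A, Q t N j ≤ 1 := by
  rw [← (hasSum_Q ht N).tsum_eq]
  exact (hasSum_Q ht N).summable.sum_le_tsum A (fun i _ => Q_nonneg ht N i)

/-- the mean -/
lemma hasSum_jQ {t : ℝ} (ht : 0 ≤ t) (N : ℕ) : HasSum (fun j : ℕ => (j : ℝ) * Q t (N + 1) j)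
    ((N + 1) * t / (1 + t * y0) * (mu1 * 1)) := by
  have h := (conv_hasSum (fun n => mul_nonneg (Nat.cast_nonneg n) (b_nonneg n)) (Q_nonneg ht N)
    summable_mb.hasSum (hasSum_Q ht N)).mul_left ((N + 1) * t / (1 + t * y0))
  have h2 : (fun j : ℕ => (j : ℝ) * Q t (N + 1) j) = fun j : ℕ => (N + 1) * t / (1 + t * y0) *
      ∑ x ∈ antidiagonal j, ((x.1 : ℝ) * b x.1) * Q t N x.2 := by
    funext j; exact jQ ht N j
  rw [h2]
  exact h

/-- the step -/
lemma Q_step {t K : ℝ} (ht : 0 ≤ t) (hK : 0 ≤ K) (N j : ℕ) (hj : 1 ≤ j)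
    (h : ∀ l, j ≤ 2 * l → Q t N l ≤ K) :
    Q t (N + 1) j ≤ (N + 1) * t * (1 / (4 * (j : ℝ) ^ 3) + mu1 * K / j) := by
  have hj' : (0 : ℝ) < j := by exact_mod_cast hj
  have h1 : ∑ x ∈ antidiagonal j, ((x.1 : ℝ) * b x.1) * Q t N x.2 ≤
      ∑ x ∈ antidiagonal j, (1 / (4 * (j : ℝ) ^ 2) * Q t N x.2 + K * ((x.1 : ℝ) * b x.1)) := by
    refine sum_le_sum fun x hx => ?_
    rw [HasAntidiagonal.mem_antidiagonal] at hx
    have hb0 : 0 ≤ (x.1 : ℝ) * b x.1 := mul_nonneg (Nat.cast_nonneg _) (b_nonneg _)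
    have hq0 := Q_nonneg ht N x.2
    rcases le_or_gt j (2 * x.2) with hle | hlt
    · have h2 := h x.2 hle
      have h3 : (x.1 : ℝ) * b x.1 * Q t N x.2 ≤ (x.1 : ℝ) * b x.1 * K :=
        mul_le_mul_of_nonneg_left h2 hb0
      have h4 : 0 ≤ 1 / (4 * (j : ℝ) ^ 2) * Q t N x.2 := by positivity
      linarith
    · have h2 : j ≤ 2 * x.1 := by omega
      have h3 := mb_le x.1 (by omega)
      have h4 : (x.1 : ℝ) * b x.1 ≤ 1 / (4 * (j : ℝ) ^ 2) := by
        refine h3.trans ?_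
        apply div_le_div₀ zero_le_one le_rfl (by positivity)
        have h5 : (j : ℝ) ≤ 2 * x.1 := by exact_mod_cast h2
        nlinarith
      have h5 := mul_le_mul_of_nonneg_right h4 hq0
      have h6 : 0 ≤ K * ((x.1 : ℝ) * b x.1) := mul_nonneg hK hb0
      linarith
  have h2 : ∑ x ∈ antidiagonal j, (1 / (4 * (j : ℝ) ^ 2) * Q t N x.2 + K * ((x.1 : ℝ) * b x.1)) ≤
      1 / (4 * (j : ℝ) ^ 2) + K * mu1 := by
    rw [sum_add_distrib, ← mul_sum, ← mul_sum]
    have h3 : ∑ x ∈ antidiagonal j, Q t N x.2 ≤ 1 := by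
      rw [← Finset.Nat.sum_antidiagonal_swap]
      simp only [Prod.snd_swap]
      rw [Finset.Nat.sum_antidiagonal_eq_sum_range_succ (fun i _ => Q t N i)]
      exact sum_Q_le ht N _
    have h4 : ∑ x ∈ antidiagonal j, (x.1 : ℝ) * b x.1 ≤ mu1 := by
      rw [Finset.Nat.sum_antidiagonal_eq_sum_range_succ (fun i _ => (i : ℝ) * b i)]
      exact summable_mb.sum_le_tsum _ (fun i _ => mul_nonneg (Nat.cast_nonneg _) (b_nonneg _))
    have h5 : 0 ≤ 1 / (4 * (j : ℝ) ^ 2) := by positivity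
    have h6 := mul_le_mul_of_nonneg_left h3 h5
    have h7 := mul_le_mul_of_nonneg_left h4 hK
    linarith
  have h3 : (j : ℝ) * Q t (N + 1) j ≤ (N + 1) * t * (1 / (4 * (j : ℝ) ^ 2) + K * mu1) :=
    (jQ_le ht N j).trans (mul_le_mul_of_nonneg_left (h1.trans h2) (by positivity))
  have h4 : Q t (N + 1) j ≤ (N + 1) * t * (1 / (4 * (j : ℝ) ^ 2) + K * mu1) / j := by
    rw [le_div_iff₀ hj', mul_comm]; exact h3
  refine h4.trans (le_of_eq ?_)
  field_simp

lemma Q_zero (t : ℝ) (j : ℕ) (hj : 1 ≤ j) : Q t 0 j = 0 := by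
  unfold Q
  rw [pow_zero, coeff_one, if_neg (by omega), zero_div]

/-- the iterated local bound -/
lemma Q_local (A : ℝ) (hA : 0 ≤ A) (i : ℕ) (hi : i ≤ 5) : ∀ ε : ℝ, 0 < ε → ∃ C : ℝ, 0 ≤ C ∧
    ∀ n : ℕ, 1 ≤ n → ∀ N : ℕ, N ≤ 2 * n + 1 → ∀ t : ℝ, 0 ≤ t → t * √n ≤ A → ∀ j : ℕ,
      ε * n ≤ j → Q t N j ≤ C / (√n) ^ i := by
  induction i with
  | zero =>
    intro ε hε
    exact ⟨1, zero_le_one, fun n _ N _ t ht _ j _ => by simpa using Q_le_one ht N j⟩
  | succ i ih =>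
    intro ε hε
    obtain ⟨C, hC, hC2⟩ := ih (by omega) (ε / 2) (by positivity)
    have hmu := mu1_pos
    refine ⟨3 * A / (4 * ε ^ 3) + 3 * A * mu1 * C / ε, by positivity, ?_⟩
    intro n hn N hN t ht htA j hj
    have hn' : (1 : ℝ) ≤ n := by exact_mod_cast hn
    have hs : 1 ≤ √(n : ℝ) := by rw [Real.one_le_sqrt]; exact hn'
    have hs0 : 0 < √(n : ℝ) := by linarith
    have hsq : √(n : ℝ) ^ 2 = n := Real.sq_sqrt (by linarith)
    have hjpos : (0 : ℝ) < j := lt_of_lt_of_le (by positivity) hj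
    have hj1 : 1 ≤ j := by exact_mod_cast hjpos
    rcases N with _ | N
    · rw [Q_zero t j hj1]; positivity
    · have h1 := Q_step ht (K := C / (√n) ^ i) (by positivity) N j hj1 (fun l hl => by
        apply hC2 n hn N (by omega) t ht htA l
        have : (j : ℝ) ≤ 2 * l := by exact_mod_cast hl
        linarith)
      refine h1.trans ?_
      have h2 : ((N : ℝ) + 1) * t ≤ 3 * A * √n := by
        have h3 : ((N : ℝ) + 1) ≤ 3 * n := by
          have : ((N + 1 : ℕ) : ℝ) ≤ ((2 * n + 1 : ℕ) : ℝ) := by exact_mod_cast hN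
          push_cast at this
          linarith
        calc ((N : ℝ) + 1) * t ≤ 3 * n * t := mul_le_mul_of_nonneg_right h3 ht
          _ = 3 * (t * √n) * √n := by
            conv_lhs => rw [← hsq]
            ring
          _ ≤ 3 * A * √n := by
            apply mul_le_mul_of_nonneg_right _ hs0.le
            linarith
      have h3 : 1 / (4 * (j : ℝ) ^ 3) ≤ 1 / (4 * (ε * n) ^ 3) := by
        apply div_le_div₀ zero_le_one le_rfl (by positivity)
        have := pow_le_pow_left₀ (by positivity) hj 3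
        linarith
      have h4 : mu1 * (C / √n ^ i) / j ≤ mu1 * (C / √n ^ i) / (ε * n) := by
        apply div_le_div₀ (by positivity) le_rfl (by positivity) hj
      calc ((N : ℝ) + 1) * t * (1 / (4 * (j : ℝ) ^ 3) + mu1 * (C / √n ^ i) / j)
          ≤ 3 * A * √n * (1 / (4 * (ε * n) ^ 3) + mu1 * (C / √n ^ i) / (ε * n)) := by
            apply mul_le_mul h2 (add_le_add h3 h4) (by positivity) (by positivity)
        _ = 3 * A / (4 * ε ^ 3) * (√n / n ^ 3) + 3 * A * mu1 * C / ε / √n ^ i * (√n / n) := by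
            field_simp
        _ ≤ 3 * A / (4 * ε ^ 3) * (1 / √n ^ (i + 1)) + 3 * A * mu1 * C / ε / √n ^ i * (1 / √n) := by
            have h5 : √(n : ℝ) / n ^ 3 ≤ 1 / √n ^ (i + 1) := by
              have h8 : (n : ℝ) ^ 3 = √n ^ 6 := by
                conv_lhs => rw [← hsq]
                ring
              rw [div_le_div_iff₀ (by positivity) (by positivity), one_mul, ← pow_succ', h8]
              exact pow_le_pow_right₀ hs (by omega)
            have h6 : √(n : ℝ) / n = 1 / √n := by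
              rw [div_eq_div_iff (by positivity) (by positivity), one_mul, ← sq, hsq]
            rw [h6]
            have h7 : 0 ≤ 3 * A / (4 * ε ^ 3) := by positivity
            have := mul_le_mul_of_nonneg_left h5 h7
            linarith
        _ = _ := by
            rw [add_div, pow_succ]
            field_simp
            ring

end Pool.Agent.Q89.ME
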