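import Pool.Agent.Q89.ME.E

/-! # The limit of the correction factor -/

set_option autoImplicit false

open Finset PowerSeries Filter Topology

namespace Pool.Agent.Q89.ME

/-- the correction factor -/
noncomputable def R (t : ℝ) (n : ℕ) : ℝ := ∑ j ∈ range (n + 1), ph n j * Q t (2 * n + 1) j

lemma R_lower {t A : ℝ} (ht : 0 ≤ t) {n : ℕ} (hn : 1 ≤ n) (hA : t * √n ≤ A) :
    1 - 3 * A * mu1 / √n ≤ R t n := by
  have hn' : (1 : ℝ) ≤ n := by exact_mod_cast hn
  have hn0 : (0 : ℝ) < n := by linarith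
  have hs0 : 0 < √(n : ℝ) := Real.sqrt_pos.2 hn0
  have hsq : √(n : ℝ) ^ 2 = n := Real.sq_sqrt (by linarith)
  have hmu := mu1_pos
  set m : ℝ := ((2 * n : ℕ) + 1 : ℝ) * t / (1 + t * y0) * (mu1 * 1) with hm
  have h1 : HasSum (fun j : ℕ => Q t (2 * n + 1) j - (j : ℝ) * Q t (2 * n + 1) j / n) (1 - m / n) :=
    (hasSum_Q ht _).sub ((hasSum_jQ ht (2 * n)).div_const _)
  have h2 : HasSum (fun j : ℕ => if j ∈ range (n + 1) then Q t (2 * n + 1) j else 0)
      (∑ j ∈ range (n + 1), Q t (2 * n + 1) j) := by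
    have h := hasSum_sum_of_ne_finset_zero (L := SummationFilter.unconditional ℕ)
      (f := fun j : ℕ => if j ∈ range (n + 1) then
      Q t (2 * n + 1) j else 0) (s := range (n + 1)) (fun j hj => if_neg hj)
    rw [sum_congr rfl (fun j hj => if_pos hj)] at h
    exact h
  have h3 : 1 - m / n ≤ ∑ j ∈ range (n + 1), Q t (2 * n + 1) j := by
    refine hasSum_le (fun j => ?_) h1 h2
    have hq := Q_nonneg ht (2 * n + 1) j
    by_cases hj : j ∈ range (n + 1)
    · rw [if_pos hj]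
      have : 0 ≤ (j : ℝ) * Q t (2 * n + 1) j / n := by positivity
      linarith
    · rw [if_neg hj]
      rw [mem_range, not_lt] at hj
      have hj' : (n : ℝ) ≤ j := by
        have : n ≤ j := by omega
        exact_mod_cast this
      have : Q t (2 * n + 1) j ≤ (j : ℝ) * Q t (2 * n + 1) j / n := by
        rw [le_div_iff₀ hn0]
        nlinarith
      linarith
  have h4 : ∑ j ∈ range (n + 1), Q t (2 * n + 1) j ≤ R t n := by
    refine sum_le_sum fun j _ => ?_
    have hq := Q_nonneg ht (2 * n + 1) j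
    have hp := ph_ge_one (n := n) (j := j)
    nlinarith
  have h5 : m / n ≤ 3 * A * mu1 / √n := by
    have h6 : m ≤ 3 * n * t * mu1 := by
      rw [hm, mul_one]
      apply mul_le_mul_of_nonneg_right _ hmu.le
      have h7 : ((2 * n : ℕ) + 1 : ℝ) * t / (1 + t * y0) ≤ ((2 * n : ℕ) + 1 : ℝ) * t := by
        apply div_le_self (by positivity)
        have := y0_pos
        nlinarith
      refine h7.trans (mul_le_mul_of_nonneg_right ?_ ht)
      push_cast
      linarith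
    rw [div_le_div_iff₀ hn0 hs0]
    calc m * √n ≤ 3 * n * t * mu1 * √n := mul_le_mul_of_nonneg_right h6 hs0.le
      _ = (t * √n) * (3 * n * mu1) := by ring
      _ ≤ A * (3 * n * mu1) := mul_le_mul_of_nonneg_right hA (by positivity)
      _ = 3 * A * mu1 * n := by ring
  linarith

lemma sum_inv_sq_le (n : ℕ) : ∑ j ∈ range (n + 1), 1 / ((n : ℝ) - j + 1) ^ 2 ≤ 2 := by
  have h1 : ∀ j ∈ range (n + 1), 1 / ((n : ℝ) - j + 1) ^ 2 =
      (fun i : ℕ => 1 / (((i + 1 : ℕ) : ℝ)) ^ 2) (n + 1 - 1 - j) := by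
    intro j hj
    rw [mem_range] at hj
    dsimp only
    push_cast [Nat.cast_sub (show j ≤ n by omega)]
    rfl
  rw [sum_congr rfl h1, sum_range_reflect (fun i : ℕ => 1 / (((i + 1 : ℕ) : ℝ)) ^ 2) (n + 1)]
  have h2 : ∑ i ∈ range (n + 1), 1 / (((i + 1 : ℕ) : ℝ)) ^ 2 ≤ ∑' m : ℕ, 1 / (m : ℝ) ^ 2 := by
    have h3 : ∑ i ∈ range (n + 1), 1 / (((i + 1 : ℕ) : ℝ)) ^ 2 =
        ∑ m ∈ (range (n + 1)).image (fun i : ℕ => (i + 1 : ℕ)), 1 / ((m : ℕ) : ℝ) ^ 2 := by
      rw [sum_image (fun a _ b _ h => by omega)]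
    rw [h3]
    exact summable_inv_sq.sum_le_tsum _ (fun i _ => by positivity)
  rw [hasSum_zeta_two.tsum_eq] at h2
  have h4 := Real.pi_lt_d2
  have h5 := Real.pi_pos
  nlinarith

lemma R_upper {t C ε : ℝ} (ht : 0 ≤ t) (hC : 0 ≤ C) (hε : 0 < ε) (hε2 : ε < 1 / 2) {n : ℕ}
    (hn : 1 ≤ n)
    (h : ∀ j : ℕ, ε * n ≤ j → Q t (2 * n + 1) j ≤ C / (√n) ^ 5) :
    R t n ≤ e (n / 2) / e n * (1 / (1 - ε)) ^ 2 + 16 * C / √n := by
  have hn' : (1 : ℝ) ≤ n := by exact_mod_cast hn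
  have hn0 : (0 : ℝ) < n := by linarith
  have hs0 : 0 < √(n : ℝ) := Real.sqrt_pos.2 hn0
  have hsq : √(n : ℝ) ^ 2 = n := Real.sq_sqrt (by linarith)
  have hG0 : 0 ≤ e (n / 2) / e n * (1 / (1 - ε)) ^ 2 := by
    have := e_pos (n / 2)
    have := e_pos n
    positivity
  have h1 : R t n ≤ ∑ j ∈ range (n + 1), (e (n / 2) / e n * (1 / (1 - ε)) ^ 2 * Q t (2 * n + 1) j +
      2 * ((n : ℝ) + 1) ^ 2 * (C / √n ^ 5) * (1 / ((n : ℝ) - j + 1) ^ 2)) := by
    refine sum_le_sum fun j hj => ?_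
    rw [mem_range] at hj
    have hjn : j ≤ n := by omega
    have hjn' : (j : ℝ) ≤ n := by exact_mod_cast hjn
    have hd : 0 < (n : ℝ) - j + 1 := by linarith
    have hq := Q_nonneg ht (2 * n + 1) j
    have hp := (ph_pos n j).le
    rcases le_or_gt (ε * n) j with hle | hlt
    · have h2 := ph_le hjn
      have h3 : ph n j * Q t (2 * n + 1) j ≤ 2 * (((n : ℝ) + 1) / ((n : ℝ) - j + 1)) ^ 2 *
          (C / √n ^ 5) := mul_le_mul h2 (h j hle) hq (by positivity)
      have h4 : 0 ≤ e (n / 2) / e n * (1 / (1 - ε)) ^ 2 * Q t (2 * n + 1) j := mul_nonneg hG0 hq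
      have h5 : 2 * (((n : ℝ) + 1) / ((n : ℝ) - j + 1)) ^ 2 * (C / √n ^ 5) =
          2 * ((n : ℝ) + 1) ^ 2 * (C / √n ^ 5) * (1 / ((n : ℝ) - j + 1) ^ 2) := by
        rw [div_pow]; ring
      linarith
    · have h2 : ph n j ≤ e (n / 2) / e n * (1 / (1 - ε)) ^ 2 := by
        rw [ph_eq hjn]
        have h3 : e (n - j) ≤ e (n / 2) := by
          apply e_anti
          have : 2 * (j : ℝ) ≤ n := by nlinarith
          have : 2 * j ≤ n := by exact_mod_cast this
          omega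
        have h4 : ((n : ℝ) + 1) / ((n : ℝ) - j + 1) ≤ 1 / (1 - ε) := by
          rw [div_le_div_iff₀ hd (by linarith)]
          nlinarith
        have h5 : 0 ≤ ((n : ℝ) + 1) / ((n : ℝ) - j + 1) := by positivity
        apply mul_le_mul (div_le_div_of_nonneg_right h3 (e_pos n).le)
          (pow_le_pow_left₀ h5 h4 2) (by positivity)
        exact div_nonneg (e_pos _).le (e_pos _).le
      have h3 := mul_le_mul_of_nonneg_right h2 hq
      have h4 : 0 ≤ 2 * ((n : ℝ) + 1) ^ 2 * (C / √n ^ 5) * (1 / ((n : ℝ) - j + 1) ^ 2) := by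
        positivity
      linarith
  refine h1.trans ?_
  rw [sum_add_distrib, ← mul_sum, ← mul_sum]
  have h2 := mul_le_mul_of_nonneg_left (sum_Q_le ht (2 * n + 1) (range (n + 1))) hG0
  have h3 := mul_le_mul_of_nonneg_left (sum_inv_sq_le n)
    (show 0 ≤ 2 * ((n : ℝ) + 1) ^ 2 * (C / √n ^ 5) by positivity)
  have h4 : 2 * ((n : ℝ) + 1) ^ 2 * (C / √n ^ 5) * 2 ≤ 16 * C / √n := by
    have h5 : ((n : ℝ) + 1) ^ 2 ≤ 4 * √n ^ 4 := by
      have : √(n : ℝ) ^ 4 = n ^ 2 := by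
        conv_rhs => rw [← hsq]
        ring
      rw [this]
      nlinarith
    calc 2 * ((n : ℝ) + 1) ^ 2 * (C / √n ^ 5) * 2 ≤ 2 * (4 * √n ^ 4) * (C / √n ^ 5) * 2 := by
          gcongr
      _ = 16 * C / √n := by field_simp; ring
  linarith

/-- **the limit of the correction factor** -/
theorem R_tendsto {t : ℕ → ℝ} (ht : ∀ n, 0 ≤ t n) {A : ℝ} (hA0 : 0 ≤ A)
    (hA : ∀ n, 1 ≤ n → t n * √n ≤ A) :
    Tendsto (fun n => R (t n) n) atTop (𝓝 1) := by
  have hsqrt : Tendsto (fun n : ℕ => √(n : ℝ)) atTop atTop :=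
    (Real.tendsto_sqrt_atTop).comp tendsto_natCast_atTop_atTop
  rw [tendsto_order]
  constructor
  · intro a ha
    have h1 : Tendsto (fun n : ℕ => 1 - 3 * A * mu1 / √(n : ℝ)) atTop (𝓝 (1 - 0)) :=
      tendsto_const_nhds.sub (hsqrt.const_div_atTop _)
    rw [sub_zero] at h1
    filter_upwards [h1.eventually (lt_mem_nhds ha), eventually_ge_atTop 1] with n h2 h3
    exact h2.trans_le (R_lower (ht n) h3 (hA n h3))
  · intro a ha
    obtain ⟨ε, hε, hε2, hε3⟩ : ∃ ε : ℝ, 0 < ε ∧ ε < 1 / 2 ∧ (1 / (1 - ε)) ^ 2 < a := by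
      have h1 : ContinuousAt (fun ε : ℝ => (1 / (1 - ε)) ^ 2) 0 := by
        apply ContinuousAt.pow
        apply ContinuousAt.div continuousAt_const (by fun_prop)
        norm_num
      have h2 : ∀ᶠ ε in 𝓝 (0 : ℝ), (1 / (1 - ε)) ^ 2 < a := by
        apply h1.eventually_lt_const
        simpa using ha
      obtain ⟨δ, hδ, h3⟩ := Metric.eventually_nhds_iff.1 h2
      refine ⟨min (δ / 2) (1 / 4), by positivity, ?_, ?_⟩
      · exact lt_of_le_of_lt (min_le_right _ _) (by norm_num)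
      · apply h3
        rw [Real.dist_eq, sub_zero, abs_of_pos (by positivity)]
        exact lt_of_le_of_lt (min_le_left _ _) (by linarith)
    obtain ⟨C, hC, hC2⟩ := Q_local A hA0 5 le_rfl ε hε
    have he : Tendsto (fun n : ℕ => e (n / 2) / e n) atTop (𝓝 (einf / einf)) := by
      apply Tendsto.div _ tendsto_e einf_pos.ne'
      apply tendsto_e.comp
      exact Nat.tendsto_div_const_atTop (by norm_num)
    rw [div_self einf_pos.ne'] at he
    have h1 : Tendsto (fun n : ℕ => e (n / 2) / e n * (1 / (1 - ε)) ^ 2 + 16 * C / √(n : ℝ)) atTop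
        (𝓝 (1 * (1 / (1 - ε)) ^ 2 + 0)) :=
      (he.mul_const _).add (hsqrt.const_div_atTop _)
    rw [one_mul, add_zero] at h1
    filter_upwards [h1.eventually (gt_mem_nhds hε3), eventually_ge_atTop 1] with n h2 h3
    refine lt_of_le_of_lt (R_upper (ht n) hC hε hε2 h3 fun j hj => ?_) h2
    exact hC2 n h3 (2 * n + 1) le_rfl (t n) (ht n) (hA n h3) j hj

end Pool.Agent.Q89.ME
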