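import Mathlib

/-! # Continuity theorem for one-sided moment generating functions -/

set_option autoImplicit false

open MeasureTheory ProbabilityTheory Filter Topology Set

namespace Pool.Agent.Q89.ME

/-- a probability measure is determined by its moment generating function on the positive
half-line -/
theorem ext_of_mgf_pos {μ ν : Measure ℝ} [IsProbabilityMeasure μ] [IsProbabilityMeasure ν]
    (hμ : ∀ s : ℝ, 0 < s → Integrable (fun x => Real.exp (s * x)) μ)
    (hν : ∀ s : ℝ, 0 < s → Integrable (fun x => Real.exp (s * x)) ν)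
    (h : ∀ s : ℝ, 0 < s → ∫ x, Real.exp (s * x) ∂μ = ∫ x, Real.exp (s * x) ∂ν) : μ = ν := by
  have hin : ∀ (ρ : Measure ℝ), (∀ s : ℝ, 0 < s → Integrable (fun x => Real.exp (s * x)) ρ) →
      ∀ s : ℝ, 0 < s → s ∈ interior (integrableExpSet id ρ) := by
    intro ρ hρ s hs
    rw [mem_interior]
    exact ⟨Ioi 0, fun y hy => hρ y hy, isOpen_Ioi, hs⟩
  have han : ∀ (ρ : Measure ℝ), (∀ s : ℝ, 0 < s → Integrable (fun x => Real.exp (s * x)) ρ) →
      AnalyticOnNhd ℂ (complexMGF id ρ) {z : ℂ | 0 < z.re} := by
    intro ρ hρ z hz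
    exact analyticAt_complexMGF (hin ρ hρ z.re hz)
  have hpre : IsPreconnected {z : ℂ | 0 < z.re} := by
    apply Convex.isPreconnected
    exact convex_halfSpace_re_gt 0
  have h1 : EqOn (complexMGF id μ) (complexMGF id ν) {z : ℂ | 0 < z.re} := by
    apply (han μ hμ).eqOn_of_preconnected_of_frequently_eq (han ν hν) hpre
      (show (1 : ℂ) ∈ {z : ℂ | 0 < z.re} by simp)
    have h2 : ∃ᶠ x : ℝ in 𝓝[≠] (1 : ℝ), complexMGF id μ x = complexMGF id ν x := by
      apply Eventually.frequently
      apply eventually_nhdsWithin_of_eventually_nhds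
      filter_upwards [lt_mem_nhds (show (0 : ℝ) < 1 by norm_num)] with x hx
      rw [complexMGF_ofReal, complexMGF_ofReal]
      unfold mgf
      simp only [id]
      rw [h x hx]
    have h3 : Tendsto (fun x : ℝ => (x : ℂ)) (𝓝[≠] (1 : ℝ)) (𝓝[≠] (1 : ℂ)) := by
      apply tendsto_nhdsWithin_of_tendsto_nhds_of_eventually_within
      · have : Tendsto (fun x : ℝ => (x : ℂ)) (𝓝 (1 : ℝ)) (𝓝 ((1 : ℝ) : ℂ)) :=
          Complex.continuous_ofReal.tendsto 1
        rw [Complex.ofReal_one] at this
        exact this.mono_left nhdsWithin_le_nhds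
      · filter_upwards [self_mem_nhdsWithin] with x hx
        simpa using hx
    exact h3.frequently h2
  -- the boundary values
  have hb : ∀ (ρ : Measure ℝ) [IsProbabilityMeasure ρ],
      (∀ s : ℝ, 0 < s → Integrable (fun x => Real.exp (s * x)) ρ) → ∀ ξ : ℝ,
      Tendsto (fun s : ℝ => complexMGF id ρ (s + ξ * Complex.I)) (𝓝[>] 0)
        (𝓝 (complexMGF id ρ (ξ * Complex.I))) := by
    intro ρ _ hρ ξ
    unfold complexMGF
    apply tendsto_integral_filter_of_dominated_convergence (fun x => 1 + Real.exp (1 * x))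
    · exact Eventually.of_forall fun s => by fun_prop
    · have h4 : ∀ᶠ s : ℝ in 𝓝[>] 0, s ∈ Ioo (0 : ℝ) 1 :=
        Ioo_mem_nhdsGT one_pos
      filter_upwards [h4] with s hs
      refine Eventually.of_forall fun x => ?_
      rw [Complex.norm_exp]
      have : ((s + ξ * Complex.I) * (id x : ℝ)).re = s * x := by simp
      rw [this]
      rcases le_total 0 x with hx | hx
      · have : Real.exp (s * x) ≤ Real.exp (1 * x) := by
          apply Real.exp_le_exp.2
          nlinarith [hs.2]
        linarith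
      · have : Real.exp (s * x) ≤ 1 := by
          apply Real.exp_le_one_iff.2
          nlinarith [hs.1]
        have := Real.exp_pos (1 * x)
        linarith
    · exact (integrable_const _).add (hρ 1 one_pos)
    · refine Eventually.of_forall fun x => ?_
      apply (Complex.continuous_exp.tendsto _).comp
      apply Tendsto.mul_const
      have h5 : Tendsto (fun s : ℝ => (s : ℂ) + ξ * Complex.I) (𝓝 0)
          (𝓝 (((0 : ℝ) : ℂ) + ξ * Complex.I)) := by
        apply Tendsto.add_const
        exact Complex.continuous_ofReal.tendsto 0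
      rw [Complex.ofReal_zero, zero_add] at h5
      exact h5.mono_left nhdsWithin_le_nhds
  apply Measure.ext_of_charFun
  funext ξ
  rw [← complexMGF_id_mul_I, ← complexMGF_id_mul_I]
  refine tendsto_nhds_unique (hb μ hμ ξ) ((hb ν hν ξ).congr' ?_)
  filter_upwards [self_mem_nhdsWithin] with s hs
  exact (h1 (by simpa using hs)).symm

/-- truncated exponential -/
noncomputable def trunc (s : ℝ) (K : ℕ) : BoundedContinuousFunction ℝ ℝ :=
  BoundedContinuousFunction.ofNormedAddCommGroup (fun x => min (Real.exp (s * x)) K)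
    (by fun_prop) K (fun x => by
      rw [Real.norm_eq_abs, abs_of_nonneg (le_min (Real.exp_pos _).le (Nat.cast_nonneg _))]
      exact min_le_right _ _)

lemma trunc_apply (s : ℝ) (K : ℕ) (x : ℝ) : trunc s K x = min (Real.exp (s * x)) K := rfl

/-- a limit along a filter, with the limit of the moment generating functions -/
lemma mgf_of_weak {ι : Type*} {F : Filter ι} [F.NeBot] {μ : ι → ProbabilityMeasure ℝ}
    {ν : ProbabilityMeasure ℝ} (hw : Tendsto μ F (𝓝 ν)) {m : ℝ → ℝ}
    (hi : ∀ i (s : ℝ), 0 < s → Integrable (fun x => Real.exp (s * x)) (μ i : Measure ℝ))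
    (hm : ∀ s : ℝ, 0 < s → Tendsto (fun i => ∫ x, Real.exp (s * x) ∂(μ i : Measure ℝ)) F (𝓝 (m s)))
    {s : ℝ} (hs : 0 < s) :
    Integrable (fun x => Real.exp (s * x)) (ν : Measure ℝ) ∧
      ∫ x, Real.exp (s * x) ∂(ν : Measure ℝ) = m s := by
  have hw2 := ProbabilityMeasure.tendsto_iff_forall_integral_tendsto.1 hw
  have h1 : ∀ K : ℕ, ∫ x, trunc s K x ∂(ν : Measure ℝ) ≤ m s := by
    intro K
    refine le_of_tendsto_of_tendsto' (hw2 (trunc s K)) (hm s hs) fun i => ?_
    apply integral_mono (BoundedContinuousFunction.integrable _ _) (hi i s hs)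
    intro x
    exact min_le_left _ _
  have h2 : ∀ K : ℕ, 0 < K → m s - m (2 * s) / K ≤ ∫ x, trunc s K x ∂(ν : Measure ℝ) := by
    intro K hK
    have hK' : (0 : ℝ) < K := by exact_mod_cast hK
    refine le_of_tendsto_of_tendsto' ((hm s hs).sub ((hm (2 * s) (by positivity)).div_const (K : ℝ)))
      (hw2 (trunc s K)) fun i => ?_
    rw [sub_le_iff_le_add, ← integral_div, ← integral_add (BoundedContinuousFunction.integrable _ _)
      ((hi i (2 * s) (by positivity)).div_const _)]
    apply integral_mono (hi i s hs)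
      ((BoundedContinuousFunction.integrable _ _).add ((hi i (2 * s) (by positivity)).div_const _))
    intro x
    show Real.exp (s * x) ≤ trunc s K x + Real.exp (2 * s * x) / K
    rw [trunc_apply]
    have h3 : Real.exp (2 * s * x) = Real.exp (s * x) * Real.exp (s * x) := by
      rw [← Real.exp_add]; congr 1; ring
    have h4 := Real.exp_pos (s * x)
    rcases le_total (Real.exp (s * x)) K with h5 | h5
    · rw [min_eq_left h5]
      have : 0 ≤ Real.exp (2 * s * x) / K := by positivity
      linarith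
    · rw [h3, mul_div_assoc]
      have h6 : 1 ≤ Real.exp (s * x) / K := by rw [one_le_div hK']; exact h5
      have h7 : 0 ≤ min (Real.exp (s * x)) (K : ℝ) := le_min h4.le hK'.le
      nlinarith
  -- monotone convergence
  have h3 : ∀ x : ℝ, Tendsto (fun K : ℕ => trunc s K x) atTop (𝓝 (Real.exp (s * x))) := by
    intro x
    apply tendsto_const_nhds.congr'
    obtain ⟨K0, hK0⟩ := exists_nat_ge (Real.exp (s * x))
    filter_upwards [eventually_ge_atTop K0] with K hK
    rw [trunc_apply, min_eq_left]
    exact hK0.trans (by exact_mod_cast hK)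
  have h4 : Integrable (fun x => Real.exp (s * x)) (ν : Measure ℝ) := by
    refine ⟨by fun_prop, ?_⟩
    have h5 : ∫⁻ x, ‖Real.exp (s * x)‖ₑ ∂(ν : Measure ℝ) ≤ ENNReal.ofReal (m s) := by
      have h6 : ∀ x : ℝ, ‖Real.exp (s * x)‖ₑ = liminf (fun K : ℕ => ENNReal.ofReal (trunc s K x)) atTop := by
        intro x
        have h7 : Tendsto (fun K : ℕ => ENNReal.ofReal (trunc s K x)) atTop
            (𝓝 (ENNReal.ofReal (Real.exp (s * x)))) :=
          (ENNReal.continuous_ofReal.tendsto _).comp (h3 x)
        rw [h7.liminf_eq, ← ofReal_norm, Real.norm_of_nonneg (Real.exp_pos _).le]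
      simp only [h6]
      refine (lintegral_liminf_le fun K => by
        apply ENNReal.measurable_ofReal.comp
        exact (trunc s K).continuous.measurable).trans ?_
      refine liminf_le_of_le (by isBoundedDefault) fun b hb => ?_
      obtain ⟨K, hK⟩ := hb.exists
      refine hK.trans ?_
      rw [← ofReal_integral_eq_lintegral_ofReal (BoundedContinuousFunction.integrable _ _)]
      · exact ENNReal.ofReal_le_ofReal (h1 K)
      · exact Eventually.of_forall fun x => le_min (Real.exp_pos _).le (Nat.cast_nonneg _)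
    exact h5.trans_lt ENNReal.ofReal_lt_top
  refine ⟨h4, ?_⟩
  have h5 : Tendsto (fun K : ℕ => ∫ x, trunc s K x ∂(ν : Measure ℝ)) atTop
      (𝓝 (∫ x, Real.exp (s * x) ∂(ν : Measure ℝ))) := by
    apply tendsto_integral_of_dominated_convergence (fun x => Real.exp (s * x))
    · intro K; exact (trunc s K).continuous.aestronglyMeasurable
    · exact h4
    · intro K
      refine Eventually.of_forall fun x => ?_
      rw [trunc_apply, Real.norm_eq_abs,
        abs_of_nonneg (le_min (Real.exp_pos _).le (Nat.cast_nonneg _))]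
      exact min_le_left _ _
    · exact Eventually.of_forall h3
  apply le_antisymm
  · exact le_of_tendsto' h5 h1
  · have h6 : Tendsto (fun K : ℕ => m s - m (2 * s) / (K : ℝ)) atTop (𝓝 (m s - 0)) :=
      tendsto_const_nhds.sub (tendsto_natCast_atTop_atTop.const_div_atTop _)
    rw [sub_zero] at h6
    refine le_of_tendsto_of_tendsto h6 h5 ?_
    filter_upwards [eventually_gt_atTop 0] with K hK
    exact h2 K hK

/-- **continuity theorem**: bounded second moments and convergence of the moment generating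
functions on the positive half-line imply convergence in law -/
theorem weak_of_mgf_pos {μ : ℕ → ProbabilityMeasure ℝ} {ν : ProbabilityMeasure ℝ} {C : ℝ}
    (hsq : ∀ n, Integrable (fun x => x ^ 2) (μ n : Measure ℝ))
    (hC : ∀ n, ∫ x, x ^ 2 ∂(μ n : Measure ℝ) ≤ C)
    (hi : ∀ n (s : ℝ), 0 < s → Integrable (fun x => Real.exp (s * x)) (μ n : Measure ℝ))
    (hν : ∀ s : ℝ, 0 < s → Integrable (fun x => Real.exp (s * x)) (ν : Measure ℝ))
    (hm : ∀ s : ℝ, 0 < s → Tendsto (fun n => ∫ x, Real.exp (s * x) ∂(μ n : Measure ℝ)) atTop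
      (𝓝 (∫ x, Real.exp (s * x) ∂(ν : Measure ℝ)))) :
    Tendsto μ atTop (𝓝 ν) := by
  have h_tight : IsTightMeasureSet {(μ n : Measure ℝ) | n} := by
    rw [isTightMeasureSet_iff_tendsto_measure_norm_gt]
    have h1 : ∀ r : ℝ, 0 < r → (⨆ ρ ∈ {(μ n : Measure ℝ) | n}, ρ {x | r < ‖x‖}) ≤
        ENNReal.ofReal (C / r ^ 2) := by
      intro r hr
      refine iSup₂_le fun ρ hρ => ?_
      obtain ⟨n, rfl⟩ := hρ
      have h2 := mul_meas_ge_le_integral_of_nonneg (μ := (μ n : Measure ℝ)) (f := fun x => x ^ 2)
        (Eventually.of_forall fun x => sq_nonneg x) (hsq n) (r ^ 2)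
      have h3 : (μ n : Measure ℝ) {x | r < ‖x‖} ≤ (μ n : Measure ℝ) {x | r ^ 2 ≤ x ^ 2} := by
        apply measure_mono
        intro x hx
        rw [mem_ofPred_eq, Real.norm_eq_abs] at hx
        rw [mem_ofPred_eq, ← sq_abs x]
        exact pow_le_pow_left₀ hr.le hx.le 2
      refine h3.trans ?_
      rw [← ofReal_measureReal]
      apply ENNReal.ofReal_le_ofReal
      rw [le_div_iff₀ (by positivity), mul_comm]
      exact h2.trans (hC n)
    have h2 : Tendsto (fun r : ℝ => ENNReal.ofReal (C / r ^ 2)) atTop (𝓝 0) := by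
      rw [← ENNReal.ofReal_zero]
      apply (ENNReal.continuous_ofReal.tendsto _).comp
      exact (tendsto_pow_atTop (by norm_num)).const_div_atTop _
    refine tendsto_of_tendsto_of_tendsto_of_le_of_le' tendsto_const_nhds h2
      (Eventually.of_forall fun _ => bot_le) ?_
    filter_upwards [eventually_gt_atTop 0] with r hr
    exact h1 r hr
  refine (Filter.tendsto_iff_ultrafilter _ _ _).2 fun U hU ↦ ?_
  have h_compact : IsCompact (closure {μ n | n}) :=
    isCompact_closure_of_isTightMeasureSet (by simpa using h_tight)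
  obtain ⟨μ', -, hμ'⟩ := h_compact.ultrafilter_le_nhds (U.map μ)
    (.trans (by simp) (monotone_principal subset_closure))
  have hμ'' : Tendsto μ U (𝓝 μ') := hμ'
  have h1 : ∀ s : ℝ, 0 < s → Integrable (fun x => Real.exp (s * x)) (μ' : Measure ℝ) ∧
      ∫ x, Real.exp (s * x) ∂(μ' : Measure ℝ) = ∫ x, Real.exp (s * x) ∂(ν : Measure ℝ) :=
    fun s hs => mgf_of_weak hμ'' hi (fun s hs => (hm s hs).mono_left hU) hs
  have h2 : (μ' : Measure ℝ) = ν :=
    ext_of_mgf_pos (fun s hs => (h1 s hs).1) hν (fun s hs => (h1 s hs).2)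
  have h3 : μ' = ν := by ext; rw [h2]
  rw [h3] at hμ''
  exact hμ''

end Pool.Agent.Q89.ME
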