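import Mathlib

/-! # The limit of the powers -/

set_option autoImplicit false

open Filter Topology

namespace Pool.Agent.Q89.ME

lemma exp_quad_bound {y : ℝ} (hy : |y| ≤ 1) : |Real.exp y - 1 - y - y ^ 2 / 2| ≤ |y| ^ 3 := by
  have h := Real.exp_bound hy (n := 3) (by norm_num)
  rw [Finset.sum_range_succ, Finset.sum_range_succ, Finset.sum_range_one] at h
  simp only [Nat.factorial] at h
  norm_num at h
  have h1 : Real.exp y - 1 - y - y ^ 2 / 2 = Real.exp y - (1 + y + y ^ 2 / 2) := by ring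
  rw [h1]
  refine h.trans ?_
  have : 0 ≤ |y| ^ 3 := by positivity
  linarith

lemma tendsto_exp_quad (x : ℝ) {h : ℕ → ℝ} (hh : Tendsto h atTop (𝓝 0)) (h0 : ∀ᶠ n in atTop, h n ≠ 0) :
    Tendsto (fun n => (Real.exp (x * h n) - 1 - x * h n) / h n ^ 2) atTop (𝓝 (x ^ 2 / 2)) := by
  rw [tendsto_iff_norm_sub_tendsto_zero]
  have h1 : Tendsto (fun n => |x| ^ 3 * |h n|) atTop (𝓝 (|x| ^ 3 * |0|)) :=
    (hh.abs).const_mul _
  rw [abs_zero, mul_zero] at h1
  refine squeeze_zero' (Eventually.of_forall fun n => norm_nonneg _) ?_ h1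
  have h2 : ∀ᶠ n in atTop, |x * h n| ≤ 1 := by
    have h3 : Tendsto (fun n => |x * h n|) atTop (𝓝 |x * 0|) := (hh.const_mul x).abs
    rw [mul_zero, abs_zero] at h3
    exact h3.eventually (Iic_mem_nhds one_pos)
  filter_upwards [h0, h2] with n hn hn2
  have h4 := exp_quad_bound hn2
  have h5 : (Real.exp (x * h n) - 1 - x * h n) / h n ^ 2 - x ^ 2 / 2 =
      (Real.exp (x * h n) - 1 - x * h n - (x * h n) ^ 2 / 2) / h n ^ 2 := by
    field_simp
  rw [Real.norm_eq_abs, h5, abs_div, abs_of_pos (show 0 < h n ^ 2 by positivity),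
    div_le_iff₀ (by positivity)]
  refine h4.trans (le_of_eq ?_)
  rw [abs_mul, mul_pow, ← sq_abs (h n)]
  ring

/-- the limit of the main term -/
theorem main_limit (y s : ℝ) :
    Tendsto (fun n : ℕ => (1 + (Real.exp (s / √n) - 1) * y) ^ (2 * n + 1) *
      Real.exp (-(2 * √n * (y * s)))) atTop (𝓝 (Real.exp (y * (1 - y) * s ^ 2))) := by
  have hsqrt : Tendsto (fun n : ℕ => √(n : ℝ)) atTop atTop :=
    (Real.tendsto_sqrt_atTop).comp tendsto_natCast_atTop_atTop
  have hh : Tendsto (fun n : ℕ => 1 / √(n : ℝ)) atTop (𝓝 0) := hsqrt.const_div_atTop _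
  have h0 : ∀ᶠ n : ℕ in atTop, 1 / √(n : ℝ) ≠ 0 := by
    filter_upwards [eventually_gt_atTop 0] with n hn
    have : (0 : ℝ) < n := by exact_mod_cast hn
    positivity
  set g : ℕ → ℝ := fun n => (1 - y) * (Real.exp (-(y * s) * (1 / √n)) - 1) +
    y * (Real.exp ((1 - y) * s * (1 / √n)) - 1) with hg
  have h1 : Tendsto (fun n : ℕ => (n : ℝ) * g n) atTop (𝓝 (y * (1 - y) * s ^ 2 / 2)) := by
    have h2 := ((tendsto_exp_quad (-(y * s)) hh h0).const_mul (1 - y)).add
      ((tendsto_exp_quad ((1 - y) * s) hh h0).const_mul y)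
    have h3 : (1 - y) * ((-(y * s)) ^ 2 / 2) + y * (((1 - y) * s) ^ 2 / 2) =
        y * (1 - y) * s ^ 2 / 2 := by ring
    rw [h3] at h2
    refine h2.congr' ?_
    filter_upwards [eventually_gt_atTop 0] with n hn
    have hn' : (0 : ℝ) < n := by exact_mod_cast hn
    have hsq : (1 / √(n : ℝ)) ^ 2 = 1 / n := by rw [div_pow, Real.sq_sqrt hn'.le, one_pow]
    rw [hsq, hg]
    field_simp
    ring
  have h4 := Real.tendsto_one_add_pow_exp_of_tendsto h1
  have h5 : Tendsto (fun n : ℕ => 1 + (Real.exp (s / √n) - 1) * y) atTop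
      (𝓝 (1 + (Real.exp 0 - 1) * y)) := by
    apply Tendsto.const_add
    apply Tendsto.mul_const
    apply Tendsto.sub_const
    exact (Real.continuous_exp.tendsto _).comp (hsqrt.const_div_atTop _)
  rw [Real.exp_zero, sub_self, zero_mul, add_zero] at h5
  have h6 := (h4.mul h4).mul h5
  have h7 : Real.exp (y * (1 - y) * s ^ 2 / 2) * Real.exp (y * (1 - y) * s ^ 2 / 2) * 1 =
      Real.exp (y * (1 - y) * s ^ 2) := by
    rw [mul_one, ← Real.exp_add]; congr 1; ring
  rw [h7] at h6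
  refine h6.congr' ?_
  filter_upwards [eventually_gt_atTop 0] with n hn
  have hn' : (0 : ℝ) < n := by exact_mod_cast hn
  have hs0 : 0 < √(n : ℝ) := Real.sqrt_pos.2 hn'
  have h8 : 1 + g n = (1 + (Real.exp (s / √n) - 1) * y) * Real.exp (-(y * s) * (1 / √n)) := by
    rw [hg]
    dsimp only
    have h9 : Real.exp ((1 - y) * s * (1 / √n)) = Real.exp (s / √n) * Real.exp (-(y * s) * (1 / √n)) := by
      rw [← Real.exp_add]; congr 1; ring
    rw [h9]
    ring
  rw [h8, mul_pow, ← Real.exp_nat_mul]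
  have h10 : Real.exp (-(2 * √n * (y * s))) = Real.exp ((n : ℝ) * (-(y * s) * (1 / √n))) *
      Real.exp ((n : ℝ) * (-(y * s) * (1 / √n))) := by
    rw [← Real.exp_add]
    congr 1
    have h11 : (n : ℝ) * (1 / √n) = √n := by
      rw [mul_one_div, div_eq_iff hs0.ne', Real.mul_self_sqrt hn'.le]
    calc -(2 * √n * (y * s)) = -2 * √n * (y * s) := by ring
      _ = -2 * ((n : ℝ) * (1 / √n)) * (y * s) := by rw [h11]
      _ = _ := by ring
  rw [h10]
  ring

end Pool.Agent.Q89.ME
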