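import Pool.Agent.Q89.ME.D

/-! # The first two moments -/

set_option autoImplicit false

open Finset PowerSeries

namespace Pool.Agent.Q89.ME

lemma Fs_eq (t : ℝ) : Fs t = 1 + t • (mk b : ℝ⟦X⟧) := by
  ext m
  rw [Fs, coeff_mk, fs, map_add, coeff_one, coeff_smul, coeff_mk]
  rfl

lemma coeff_Fs_pow (t : ℝ) (N j : ℕ) : coeff j (Fs t ^ N) =
    ∑ k ∈ range (N + 1), t ^ k * (coeff j ((mk b : ℝ⟦X⟧) ^ k) * (N.choose k : ℝ)) := by
  rw [Fs_eq, add_comm, add_pow, map_sum]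
  refine sum_congr rfl fun k _ => ?_
  rw [one_pow, mul_one, smul_pow, ← map_natCast (C (R := ℝ)), coeff_mul_C, coeff_smul]
  simp [mul_assoc]

/-- coefficients of the exact identity -/
theorem factorial_moment (n : ℕ) (S : Finset ℕ) (hS : S.card = 2 * n) (k : ℕ) (hk : k ≤ 2 * n + 1) :
    (∑ μ ∈ full S, ∑ ν ∈ full S, ((μ ∩ ν).card.choose k : ℝ)) / (catalan n : ℝ) ^ 2 =
      ((2 * n + 1).choose k : ℝ) * ∑ j ∈ range (n + 1), ph n j * coeff j ((mk b : ℝ⟦X⟧) ^ k) := by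
  set p : Polynomial ℝ := ∑ μ ∈ full S, ∑ ν ∈ full S,
    (Polynomial.C (1 / (catalan n : ℝ) ^ 2)) * (1 + Polynomial.X) ^ (μ ∩ ν).card with hp
  set q : Polynomial ℝ := ∑ j ∈ range (n + 1), ∑ k ∈ range (2 * n + 1 + 1),
    Polynomial.C (ph n j * (coeff j ((mk b : ℝ⟦X⟧) ^ k) * ((2 * n + 1).choose k : ℝ))) *
      Polynomial.X ^ k with hq
  have hpq : p = q := by
    apply Polynomial.funext
    intro t
    have h := identity t n S hS
    rw [hp, hq]
    simp only [Polynomial.eval_finsetSum, Polynomial.eval_mul, Polynomial.eval_C,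
      Polynomial.eval_pow, Polynomial.eval_add, Polynomial.eval_one, Polynomial.eval_X]
    simp only [coeff_Fs_pow] at h
    simp only [← mul_sum]
    rw [one_div, inv_mul_eq_div, h]
    refine sum_congr rfl fun j _ => ?_
    rw [mul_sum]
    exact sum_congr rfl fun k _ => by ring
  have h := congrArg (fun r => Polynomial.coeff r k) hpq
  simp only [hp, hq, Polynomial.finsetSum_coeff, Polynomial.coeff_C_mul,
    Polynomial.coeff_one_add_X_pow, Polynomial.coeff_X_pow] at h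
  simp only [← mul_sum] at h
  rw [one_div, inv_mul_eq_div] at h
  rw [h, mul_sum]
  refine sum_congr rfl fun j _ => ?_
  rw [sum_eq_single k]
  · rw [if_pos rfl]; ring
  · intro i _ hik
    rw [if_neg (Ne.symm hik), mul_zero]
  · intro hn
    exact absurd (mem_range.2 (by omega)) hn

/-- `b * b` -/
noncomputable def b2 (j : ℕ) : ℝ := ∑ x ∈ antidiagonal j, b x.1 * b x.2

noncomputable def al (n : ℕ) : ℝ := ∑ j ∈ range (n + 1), ph n j * b j
noncomputable def be (n : ℕ) : ℝ := ∑ j ∈ range (n + 1), ph n j * b2 j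

theorem moment_one (n : ℕ) (S : Finset ℕ) (hS : S.card = 2 * n) :
    (∑ μ ∈ full S, ∑ ν ∈ full S, ((μ ∩ ν).card : ℝ)) / (catalan n : ℝ) ^ 2 =
      (2 * n + 1) * al n := by
  have h := factorial_moment n S hS 1 (by omega)
  simp only [Nat.choose_one_right, pow_one, coeff_mk] at h
  rw [h, al]
  push_cast
  ring

theorem moment_two (n : ℕ) (S : Finset ℕ) (hS : S.card = 2 * n) (hn : 1 ≤ n) :
    (∑ μ ∈ full S, ∑ ν ∈ full S, ((μ ∩ ν).card : ℝ) * (((μ ∩ ν).card : ℝ) - 1)) /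
      (catalan n : ℝ) ^ 2 = (2 * n + 1) * (2 * n) * be n := by
  have h := factorial_moment n S hS 2 (by omega)
  simp only [Nat.cast_choose_two] at h
  have h2 : ∀ j, coeff j ((mk b : ℝ⟦X⟧) ^ 2) = b2 j := by
    intro j
    rw [sq, coeff_mul, b2]
    exact sum_congr rfl fun x _ => by rw [coeff_mk, coeff_mk]
  simp only [h2] at h
  rw [← be] at h
  have h3 : (∑ μ ∈ full S, ∑ ν ∈ full S, ((μ ∩ ν).card : ℝ) * (((μ ∩ ν).card : ℝ) - 1) / 2) =
      (∑ μ ∈ full S, ∑ ν ∈ full S, ((μ ∩ ν).card : ℝ) * (((μ ∩ ν).card : ℝ) - 1)) / 2 := by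
    simp only [sum_div]
  rw [h3, div_right_comm] at h
  have h4 := congrArg (fun x => x * 2) h
  simp only [div_mul_cancel₀ _ (two_ne_zero' ℝ)] at h4
  rw [h4]
  push_cast
  ring

end Pool.Agent.Q89.ME
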