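import Pool.Agent.Q89.ME.G1
import Pool.Agent.Q89.ME.E2

/-! # Corrected sums: bounds and limits -/

set_option autoImplicit false

open Finset PowerSeries Filter Topology

namespace Pool.Agent.Q89.ME

lemma e_diff (r : ℕ) : e r - e (r + 1) ≤ 1 / (4 * ((r : ℝ) + 1) ^ 2) := by
  rw [e_succ]
  have h1 : e r - e r * ((2 * r + 1) * (2 * r + 3) / (4 * ((r : ℝ) + 1) ^ 2)) =
      e r * (1 / (4 * ((r : ℝ) + 1) ^ 2)) := by
    field_simp
    ring
  rw [h1]
  exact mul_le_of_le_one_left (by positivity) (e_le_one r)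

lemma e_diff' (n : ℕ) : ∀ j : ℕ, j ≤ n → e (n - j) - e n ≤ j / (4 * ((n : ℝ) - j + 1) ^ 2) := by
  intro j
  induction j with
  | zero => intro _; simp
  | succ j ih =>
    intro hj
    have h1 := ih (by omega)
    have h2 := e_diff (n - (j + 1))
    rw [show n - (j + 1) + 1 = n - j by omega] at h2
    have hjn : (j : ℝ) + 1 ≤ n := by exact_mod_cast hj
    have h3 : (((n - (j + 1) : ℕ) : ℝ) + 1) = n - j := by
      rw [Nat.cast_sub hj]; push_cast; ring
    rw [h3] at h2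
    have h4 : (j : ℝ) / (4 * ((n : ℝ) - j + 1) ^ 2) ≤ j / (4 * ((n : ℝ) - j) ^ 2) := by
      apply div_le_div_of_nonneg_left (Nat.cast_nonneg _)
      · have : 0 < (n : ℝ) - j := by linarith
        positivity
      · have : 0 < (n : ℝ) - j := by linarith
        nlinarith
    have h5 : ((j + 1 : ℕ) : ℝ) / (4 * ((n : ℝ) - (j + 1 : ℕ) + 1) ^ 2) =
        j / (4 * ((n : ℝ) - j) ^ 2) + 1 / (4 * ((n : ℝ) - j) ^ 2) := by
      push_cast
      rw [show (n : ℝ) - (j + 1) + 1 = n - j by ring, add_div]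
    rw [h5]
    linarith

/-- the excess of the weight -/
lemma ph_excess {n j : ℕ} (h : 2 * j ≤ n) : (n : ℝ) * (ph n j - 1) ≤ 18 * j := by
  have hj' : 2 * (j : ℝ) ≤ n := by exact_mod_cast h
  have hj0 : (0 : ℝ) ≤ j := Nat.cast_nonneg _
  have hd : ((n : ℝ) + 1) / 2 ≤ (n : ℝ) - j + 1 := by linarith
  have hn1 : 0 < (n : ℝ) + 1 := by positivity
  have hd0 : 0 < (n : ℝ) - j + 1 := by linarith
  rw [ph_eq (by omega)]
  have h1 : e (n - j) / e n ≤ 1 + 2 * j / ((n : ℝ) + 1) ^ 2 := by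
    have h2 := e_diff' n j (by omega)
    have h3 : (j : ℝ) / (4 * ((n : ℝ) - j + 1) ^ 2) ≤ j / ((n : ℝ) + 1) ^ 2 := by
      apply div_le_div_of_nonneg_left hj0 (by positivity)
      nlinarith
    have h4 := e_ge_half n
    have h5 := e_pos n
    rw [div_le_iff₀ h5]
    have h6 : 0 ≤ (j : ℝ) / ((n : ℝ) + 1) ^ 2 := by positivity
    have h7 : 2 * (j : ℝ) / ((n : ℝ) + 1) ^ 2 * e n ≥ j / ((n : ℝ) + 1) ^ 2 := by
      rw [show 2 * (j : ℝ) / ((n : ℝ) + 1) ^ 2 * e n = (j / ((n : ℝ) + 1) ^ 2) * (2 * e n) by ring]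
      nlinarith
    nlinarith
  have h2 : (((n : ℝ) + 1) / ((n : ℝ) - j + 1)) ^ 2 ≤ 1 + 8 * j / ((n : ℝ) + 1) := by
    rw [div_pow, div_le_iff₀ (by positivity)]
    have h3 : (1 + 8 * j / ((n : ℝ) + 1)) * ((n : ℝ) - j + 1) ^ 2 =
        ((n : ℝ) - j + 1) ^ 2 + 8 * j / ((n : ℝ) + 1) * ((n : ℝ) - j + 1) ^ 2 := by ring
    have h4 : 2 * j * ((n : ℝ) + 1) ≤ 8 * j / ((n : ℝ) + 1) * ((n : ℝ) - j + 1) ^ 2 := by
      rw [div_mul_eq_mul_div, le_div_iff₀ hn1]
      have : ((n : ℝ) + 1) ^ 2 / 4 ≤ ((n : ℝ) - j + 1) ^ 2 := by nlinarith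
      nlinarith
    rw [h3]
    nlinarith
  have h3 : e (n - j) / e n * (((n : ℝ) + 1) / ((n : ℝ) - j + 1)) ^ 2 ≤
      (1 + 2 * j / ((n : ℝ) + 1) ^ 2) * (1 + 8 * j / ((n : ℝ) + 1)) :=
    mul_le_mul h1 h2 (by positivity) (by positivity)
  have h4 : (n : ℝ) * ((1 + 2 * j / ((n : ℝ) + 1) ^ 2) * (1 + 8 * j / ((n : ℝ) + 1)) - 1) ≤ 18 * j := by
    have h5 : (1 + 2 * j / ((n : ℝ) + 1) ^ 2) * (1 + 8 * j / ((n : ℝ) + 1)) - 1 =
        j * (8 / (n + 1) + 2 / (n + 1) ^ 2 + 16 * j / (n + 1) ^ 3) := by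
      field_simp
      ring
    rw [h5]
    have h6 : (n : ℝ) * (8 / (n + 1) + 2 / (n + 1) ^ 2 + 16 * j / (n + 1) ^ 3) ≤ 18 := by
      have h7 : (n : ℝ) * (8 / (n + 1)) ≤ 8 := by
        rw [mul_div_assoc', div_le_iff₀ hn1]; nlinarith [(Nat.cast_nonneg n : (0 : ℝ) ≤ n)]
      have h8 : (n : ℝ) * (2 / (n + 1) ^ 2) ≤ 2 := by
        rw [mul_div_assoc', div_le_iff₀ (by positivity)]; nlinarith [(Nat.cast_nonneg n : (0 : ℝ) ≤ n)]
      have h9 : (n : ℝ) * (16 * j / (n + 1) ^ 3) ≤ 8 := by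
        rw [mul_div_assoc', div_le_iff₀ (by positivity)]
        have hn0 : (0 : ℝ) ≤ n := Nat.cast_nonneg n
        have h10 : (n : ℝ) * (16 * j) ≤ 8 * n ^ 2 := by nlinarith
        have h11 : (n : ℝ) ^ 2 ≤ (n + 1) ^ 3 := by nlinarith [mul_nonneg hn0 hn0, pow_nonneg hn0 3]
        linarith
      linarith
    have h7 := mul_le_mul_of_nonneg_left h6 hj0
    calc (n : ℝ) * ((j : ℝ) * (8 / (n + 1) + 2 / (n + 1) ^ 2 + 16 * j / (n + 1) ^ 3)) =
        (j : ℝ) * ((n : ℝ) * (8 / (n + 1) + 2 / (n + 1) ^ 2 + 16 * j / (n + 1) ^ 3)) :=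
          mul_left_comm _ _ _
      _ ≤ (j : ℝ) * 18 := h7
      _ = 18 * j := mul_comm _ _
  refine le_trans (mul_le_mul_of_nonneg_left (sub_le_sub_right h3 1) (Nat.cast_nonneg n)) h4

/-- the pointwise limit of the excess -/
lemma ph_limit (j : ℕ) : Tendsto (fun n : ℕ => (n : ℝ) * (ph n j - 1)) atTop (𝓝 (2 * j)) := by
  -- the ratio
  have h1 : Tendsto (fun n : ℕ => (n : ℝ) * ((((n : ℝ) + 1) / ((n : ℝ) - j + 1)) - 1)) atTop (𝓝 (1 * j)) := by
    refine ((tendsto_natCast_div_add_atTop (1 - (j : ℝ))).mul_const (j : ℝ)).congr' ?_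
    filter_upwards [eventually_ge_atTop j] with n hn
    have hn' : (j : ℝ) ≤ n := by exact_mod_cast hn
    have h2 : (n : ℝ) - j + 1 ≠ 0 := by
      have : 0 < (n : ℝ) - j + 1 := by linarith
      exact this.ne'
    have h3 : (n : ℝ) + (1 - j) ≠ 0 := by
      have : 0 < (n : ℝ) + (1 - j) := by linarith
      exact this.ne'
    rw [show (n : ℝ) + (1 - j) = n - j + 1 by ring]
    field_simp
    ring
  have h2 : Tendsto (fun n : ℕ => ((n : ℝ) + 1) / ((n : ℝ) - j + 1)) atTop (𝓝 1) := by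
    have h3 : Tendsto (fun n : ℕ => (1 / (n : ℝ)) * ((n : ℝ) * ((((n : ℝ) + 1) / ((n : ℝ) - j + 1)) - 1)) + 1)
        atTop (𝓝 (0 * (1 * j) + 1)) :=
      (tendsto_one_div_atTop_nhds_zero_nat.mul h1).add_const 1
    rw [zero_mul, zero_add] at h3
    refine h3.congr' ?_
    filter_upwards [eventually_gt_atTop 0] with n hn
    have hn' : (n : ℝ) ≠ 0 := by positivity
    field_simp
    ring
  -- the part with e
  have h3 : Tendsto (fun n : ℕ => (n : ℝ) * (e (n - j) / e n - 1)) atTop (𝓝 0) := by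
    have h4 : Tendsto (fun n : ℕ => 2 * (j : ℝ) / ((n : ℝ) + 1)) atTop (𝓝 0) :=
      (tendsto_atTop_add_const_right _ _ tendsto_natCast_atTop_atTop).const_div_atTop _
    refine squeeze_zero' ?_ ?_ h4
    · filter_upwards with n
      apply mul_nonneg (Nat.cast_nonneg _)
      rw [sub_nonneg, one_le_div (e_pos n)]
      exact e_anti (Nat.sub_le n j)
    · filter_upwards [eventually_ge_atTop (2 * j)] with n hn
      have h5 := e_diff' n j (by omega)
      have hj0 : (0 : ℝ) ≤ j := Nat.cast_nonneg _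
      have hj' : 2 * (j : ℝ) ≤ n := by exact_mod_cast hn
      have h6 : (j : ℝ) / (4 * ((n : ℝ) - j + 1) ^ 2) ≤ j / ((n : ℝ) + 1) ^ 2 := by
        apply div_le_div_of_nonneg_left hj0 (by positivity)
        nlinarith
      have h7 : e (n - j) / e n - 1 ≤ 2 * (j / ((n : ℝ) + 1) ^ 2) := by
        have h8 := e_pos n
        have h9 := e_ge_half n
        rw [sub_le_iff_le_add, div_le_iff₀ h8]
        have h10 : 0 ≤ (j : ℝ) / ((n : ℝ) + 1) ^ 2 := by positivity
        nlinarith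
      calc (n : ℝ) * (e (n - j) / e n - 1) ≤ (n : ℝ) * (2 * (j / ((n : ℝ) + 1) ^ 2)) :=
            mul_le_mul_of_nonneg_left h7 (Nat.cast_nonneg _)
        _ = 2 * j / (n + 1) * (n / (n + 1)) := by field_simp
        _ ≤ 2 * j / (n + 1) * 1 := by
            apply mul_le_mul_of_nonneg_left _ (by positivity)
            rw [div_le_one (by positivity)]
            linarith
        _ = 2 * j / (n + 1) := mul_one _
  have h4 := (h3.mul (h2.pow 2)).add (h1.mul (h2.add_const 1))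
  have h5 : 0 * (1 : ℝ) ^ 2 + 1 * (j : ℝ) * (1 + 1) = 2 * j := by ring
  rw [h5] at h4
  refine h4.congr' ?_
  filter_upwards [eventually_ge_atTop j] with n hn
  rw [ph_eq hn]
  ring

/-- the part of large indices -/
lemma large_part {c : ℕ → ℝ} {δ : ℝ} (hδ : 0 ≤ δ) {n : ℕ} (hn : 1 ≤ n)
    (hc : ∀ j : ℕ, n < 2 * j → (j : ℝ) ^ 3 * |c j| ≤ δ) :
    ∑ j ∈ (range (n + 1)).filter (fun j => n < 2 * j), (n : ℝ) * (ph n j * |c j|) ≤ 128 * δ := by
  have hn' : (1 : ℝ) ≤ n := by exact_mod_cast hn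
  have h1 : ∑ j ∈ (range (n + 1)).filter (fun j => n < 2 * j), (n : ℝ) * (ph n j * |c j|) ≤
      ∑ j ∈ (range (n + 1)).filter (fun j => n < 2 * j), 64 * δ * (1 / ((n : ℝ) - j + 1) ^ 2) := by
    refine sum_le_sum fun j hj => ?_
    rw [mem_filter, mem_range] at hj
    have hj1 : j ≤ n := by omega
    have hj2 : (n : ℝ) < 2 * j := by exact_mod_cast hj.2
    have hj3 : (j : ℝ) ≤ n := by exact_mod_cast hj1
    have hd : 0 < (n : ℝ) - j + 1 := by linarith
    have hj0 : (0 : ℝ) < j := by linarith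
    have h2 := hc j hj.2
    have h3 : |c j| ≤ 8 * δ / (n : ℝ) ^ 3 := by
      rw [le_div_iff₀ (by positivity)]
      have h4 : (n : ℝ) ^ 3 ≤ (2 * j) ^ 3 := pow_le_pow_left₀ (by positivity) hj2.le 3
      have h5 := abs_nonneg (c j)
      nlinarith
    have h4 := ph_le hj1
    calc (n : ℝ) * (ph n j * |c j|) ≤ n * (2 * (((n : ℝ) + 1) / ((n : ℝ) - j + 1)) ^ 2 *
          (8 * δ / (n : ℝ) ^ 3)) := by
          apply mul_le_mul_of_nonneg_left _ (by positivity)
          exact mul_le_mul h4 h3 (abs_nonneg _) (by positivity)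
      _ = 16 * δ * (((n : ℝ) + 1) ^ 2 / n ^ 2) * (1 / ((n : ℝ) - j + 1) ^ 2) := by
          field_simp
          ring
      _ ≤ 16 * δ * 4 * (1 / ((n : ℝ) - j + 1) ^ 2) := by
          apply mul_le_mul_of_nonneg_right _ (by positivity)
          apply mul_le_mul_of_nonneg_left _ (by positivity)
          rw [div_le_iff₀ (by positivity)]
          nlinarith
      _ = 64 * δ * (1 / ((n : ℝ) - j + 1) ^ 2) := by ring
  refine h1.trans ?_
  have h2 : ∑ j ∈ (range (n + 1)).filter (fun j => n < 2 * j), 64 * δ * (1 / ((n : ℝ) - j + 1) ^ 2) ≤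
      ∑ j ∈ range (n + 1), 64 * δ * (1 / ((n : ℝ) - j + 1) ^ 2) := by
    apply sum_le_sum_of_subset_of_nonneg (filter_subset _ _)
    intro j hj _
    positivity
  refine h2.trans ?_
  rw [← mul_sum]
  have := mul_le_mul_of_nonneg_left (sum_inv_sq_le n) (show 0 ≤ 64 * δ by positivity)
  linarith

/-- the corrected sums, minus the sums: splitting -/
lemma split_corr {c : ℕ → ℝ} (hc : Summable c) (n : ℕ) :
    (n : ℝ) * (∑ j ∈ range (n + 1), ph n j * c j - ∑' j, c j) =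
      (∑' j, (if 2 * j ≤ n then (n : ℝ) * (ph n j - 1) * c j else -(n * c j))) +
      ∑ j ∈ (range (n + 1)).filter (fun j => n < 2 * j), (n : ℝ) * (ph n j * c j) := by
  have h1 : ∀ j, (if 2 * j ≤ n then (n : ℝ) * (ph n j - 1) * c j else -(n * c j)) =
      (if j ∈ (range (n + 1)).filter (fun j => ¬ n < 2 * j) then (n : ℝ) * (ph n j * c j) else 0) -
        n * c j := by
    intro j
    by_cases hj : 2 * j ≤ n
    · rw [if_pos hj, if_pos (by rw [mem_filter, mem_range]; omega)]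
      ring
    · rw [if_neg hj, if_neg (by rw [mem_filter, mem_range]; omega)]
      ring
  have h2 : HasSum (fun j => if j ∈ (range (n + 1)).filter (fun j => ¬ n < 2 * j) then
      (n : ℝ) * (ph n j * c j) else 0)
      (∑ j ∈ (range (n + 1)).filter (fun j => ¬ n < 2 * j), (n : ℝ) * (ph n j * c j)) := by
    have h := hasSum_sum_of_ne_finset_zero (L := SummationFilter.unconditional ℕ)
      (f := fun j : ℕ => if j ∈ (range (n + 1)).filter (fun j => ¬ n < 2 * j) then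
      (n : ℝ) * (ph n j * c j) else 0) (s := (range (n + 1)).filter (fun j => ¬ n < 2 * j))
      (fun j hj => if_neg hj)
    rw [sum_congr rfl (fun j hj => if_pos hj)] at h
    exact h
  simp only [h1]
  rw [(h2.sub (hc.hasSum.mul_left (n : ℝ))).tsum_eq]
  have h3 := sum_filter_add_sum_filter_not (range (n + 1)) (fun j => n < 2 * j)
    (fun j => (n : ℝ) * (ph n j * c j))
  rw [mul_sub, mul_sum, ← h3]
  ring

/-- the first part is dominated -/
lemma first_bound {c : ℕ → ℝ} (n j : ℕ) :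
    |if 2 * j ≤ n then (n : ℝ) * (ph n j - 1) * c j else -(n * c j)| ≤ 18 * (j * |c j|) := by
  split_ifs with h
  · rw [abs_mul, abs_of_nonneg (mul_nonneg (Nat.cast_nonneg _) (by linarith [ph_ge_one (n := n) (j := j)]))]
    have := mul_le_mul_of_nonneg_right (ph_excess h) (abs_nonneg (c j))
    linarith
  · rw [abs_neg, abs_mul, Nat.abs_cast]
    have h2 : (n : ℝ) ≤ 18 * j := by
      have : n ≤ 18 * j := by omega
      exact_mod_cast this
    have := mul_le_mul_of_nonneg_right h2 (abs_nonneg (c j))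
    linarith

theorem corr_limit {c : ℕ → ℝ} (hc : Summable c) (hjc : Summable fun j : ℕ => (j : ℝ) * |c j|)
    (h3 : Tendsto (fun j : ℕ => (j : ℝ) ^ 3 * c j) atTop (𝓝 0)) :
    Tendsto (fun n : ℕ => (n : ℝ) * (∑ j ∈ range (n + 1), ph n j * c j - ∑' j, c j)) atTop
      (𝓝 (∑' j : ℕ, 2 * (j : ℝ) * c j)) := by
  have h1 : Tendsto (fun n : ℕ => ∑' j, (if 2 * j ≤ n then (n : ℝ) * (ph n j - 1) * c j else
      -(n * c j))) atTop (𝓝 (∑' j : ℕ, 2 * (j : ℝ) * c j)) := by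
    apply tendsto_tsum_of_dominated_convergence (hjc.mul_left 18)
    · intro j
      refine ((ph_limit j).mul_const (c j)).congr' ?_
      filter_upwards [eventually_ge_atTop (2 * j)] with n hn
      rw [if_pos hn]
    · exact Eventually.of_forall fun n j => first_bound n j
  have h2 : Tendsto (fun n : ℕ => ∑ j ∈ (range (n + 1)).filter (fun j => n < 2 * j),
      (n : ℝ) * (ph n j * c j)) atTop (𝓝 0) := by
    rw [Metric.tendsto_atTop] at h3 ⊢
    intro ε hε
    obtain ⟨N, hN⟩ := h3 (ε / 256) (by positivity)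
    refine ⟨2 * N + 1, fun n hn => ?_⟩
    rw [Real.dist_eq, sub_zero]
    have h4 := large_part (c := c) (δ := ε / 256) (by positivity) (n := n) (by omega) (fun j hj => by
      have := hN j (by omega)
      rw [Real.dist_eq, sub_zero, abs_mul, abs_of_nonneg (show (0 : ℝ) ≤ (j : ℝ) ^ 3 by positivity)] at this
      exact this.le)
    refine lt_of_le_of_lt (abs_sum_le_sum_abs _ _) (lt_of_le_of_lt (le_of_eq ?_) (lt_of_le_of_lt h4 (by linarith)))
    refine sum_congr rfl fun j _ => ?_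
    rw [abs_mul, abs_mul, Nat.abs_cast, abs_of_pos (ph_pos n j)]
  have h4 := h1.add h2
  rw [add_zero] at h4
  exact h4.congr fun n => (split_corr hc n).symm

theorem corr_bound {c : ℕ → ℝ} (hc : Summable c) (hjc : Summable fun j : ℕ => (j : ℝ) * |c j|)
    {δ : ℝ} (hδ : 0 ≤ δ) (h3 : ∀ j : ℕ, 1 ≤ j → (j : ℝ) ^ 3 * |c j| ≤ δ) (n : ℕ) (hn : 1 ≤ n) :
    |(n : ℝ) * (∑ j ∈ range (n + 1), ph n j * c j - ∑' j, c j)| ≤
      18 * (∑' j : ℕ, (j : ℝ) * |c j|) + 128 * δ := by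
  rw [split_corr hc n]
  refine (abs_add_le _ _).trans (add_le_add ?_ ?_)
  · have h1 : Summable fun j => ‖if 2 * j ≤ n then (n : ℝ) * (ph n j - 1) * c j else -(n * c j)‖ :=
      Summable.of_nonneg_of_le (fun j => norm_nonneg _) (fun j => first_bound n j) (hjc.mul_left 18)
    refine (norm_tsum_le_tsum_norm h1).trans ?_
    rw [← tsum_mul_left]
    exact h1.tsum_le_tsum (fun j => first_bound n j) (hjc.mul_left 18)
  · refine (abs_sum_le_sum_abs _ _).trans (le_trans (le_of_eq ?_)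
      (large_part hδ hn (fun j hj => h3 j (by omega))))
    refine sum_congr rfl fun j _ => ?_
    rw [abs_mul, abs_mul, Nat.abs_cast, abs_of_pos (ph_pos n j)]

end Pool.Agent.Q89.ME
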