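import Pool.Agent.Q89.ME.G2

/-! # Mean and variance -/

set_option autoImplicit false

open Finset PowerSeries Filter Topology

namespace Pool.Agent.Q89.ME

lemma cube_b_le (j : ℕ) : (j : ℝ) ^ 3 * b j ≤ 1 / 16 := by
  rcases Nat.eq_zero_or_pos j with rfl | hj
  · simp
  · have h := b_le j hj
    have hj' : (0 : ℝ) < j := by exact_mod_cast hj
    calc (j : ℝ) ^ 3 * b j ≤ (j : ℝ) ^ 3 * (1 / (16 * (j : ℝ) ^ 3)) :=
          mul_le_mul_of_nonneg_left h (by positivity)
      _ = 1 / 16 := by field_simp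

lemma lim_b : Tendsto (fun j : ℕ => (j : ℝ) ^ 3 * b j) atTop (𝓝 (einf / 32)) := by
  rw [← tendsto_add_atTop_iff_nat 1]
  have h1 : Tendsto (fun m : ℕ => e m / 16 * (1 / 2 + (1 / 2) / (2 * (m : ℝ) + 1))) atTop
      (𝓝 (einf / 16 * (1 / 2 + 0))) := by
    apply (tendsto_e.div_const 16).mul
    apply Tendsto.const_add
    apply Tendsto.const_div_atTop
    apply tendsto_atTop_add_const_right
    exact tendsto_natCast_atTop_atTop.const_mul_atTop two_pos
  have h2 : einf / 16 * (1 / 2 + 0) = einf / 32 := by ring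
  rw [h2] at h1
  refine h1.congr fun m => ?_
  rw [b_eq]
  push_cast
  have : (2 * (m : ℝ) + 1) ≠ 0 := by positivity
  field_simp
  ring

lemma lim_b_shift (i : ℕ) : Tendsto (fun j : ℕ => (j : ℝ) ^ 3 * b (j - i)) atTop (𝓝 (einf / 32)) := by
  rw [← tendsto_add_atTop_iff_nat i]
  have h1 : Tendsto (fun n : ℕ => (1 + (i : ℝ) / n) ^ 3 * ((n : ℝ) ^ 3 * b n)) atTop
      (𝓝 ((1 + 0) ^ 3 * (einf / 32))) := by
    apply Tendsto.mul _ lim_b
    apply Tendsto.pow
    apply Tendsto.const_add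
    exact tendsto_natCast_atTop_atTop.const_div_atTop _
  rw [add_zero, one_pow, one_mul] at h1
  refine h1.congr' ?_
  filter_upwards [eventually_gt_atTop 0] with n hn
  have hn' : (n : ℝ) ≠ 0 := by positivity
  rw [Nat.add_sub_cancel]
  push_cast
  field_simp

lemma b2_sym (j : ℕ) : b2 j = ∑ i ∈ range (j + 1), ((if 2 * i ≤ j then b i * b (j - i) else 0) +
    (if 2 * i < j then b i * b (j - i) else 0)) := by
  rw [b2, Finset.Nat.sum_antidiagonal_eq_sum_range_succ (fun i k => b i * b k), sum_add_distrib]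
  have h1 : ∑ i ∈ range (j + 1), (if 2 * i < j then b i * b (j - i) else 0) =
      ∑ i ∈ range (j + 1), (if 2 * i ≤ j then 0 else b i * b (j - i)) := by
    rw [← sum_range_reflect]
    refine sum_congr rfl fun i hi => ?_
    rw [mem_range] at hi
    rw [show j + 1 - 1 - i = j - i by omega]
    by_cases h : 2 * i ≤ j
    · rw [if_neg (by omega), if_pos h]
    · rw [if_pos (by omega), if_neg h, show j - (j - i) = i by omega, mul_comm]
  rw [h1, ← sum_add_distrib]
  refine sum_congr rfl fun i _ => ?_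
  split_ifs <;> simp

lemma b2_nonneg (j : ℕ) : 0 ≤ b2 j := sum_nonneg fun _ _ => mul_nonneg (b_nonneg _) (b_nonneg _)

lemma lim_b2 : Tendsto (fun j : ℕ => (j : ℝ) ^ 3 * b2 j) atTop (𝓝 (2 * y0 * (einf / 32))) := by
  set f : ℕ → ℕ → ℝ := fun j i => (if 2 * i ≤ j then b i * ((j : ℝ) ^ 3 * b (j - i)) else 0) +
    (if 2 * i < j then b i * ((j : ℝ) ^ 3 * b (j - i)) else 0) with hf
  have h1 : ∀ j : ℕ, (j : ℝ) ^ 3 * b2 j = ∑' i, f j i := by
    intro j
    rw [tsum_eq_sum (s := range (j + 1)), b2_sym, mul_sum]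
    · refine sum_congr rfl fun i _ => ?_
      rw [hf]
      dsimp only
      split_ifs <;> ring
    · intro i hi
      rw [mem_range, not_lt] at hi
      rw [hf]
      dsimp only
      rw [if_neg (by omega), if_neg (by omega), add_zero]
  have h2 : Tendsto (fun j => ∑' i, f j i) atTop (𝓝 (∑' i, (b i * (einf / 32) + b i * (einf / 32)))) := by
    apply tendsto_tsum_of_dominated_convergence (bound := b) summable_b
    · intro i
      have h3 := (lim_b_shift i).const_mul (b i)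
      refine (h3.add h3).congr' ?_
      filter_upwards [eventually_gt_atTop (2 * i)] with j hj
      rw [hf]
      dsimp only
      rw [if_pos hj.le, if_pos hj]
    · refine Eventually.of_forall fun j i => ?_
      have hbi := b_nonneg i
      have h4 : 2 * i ≤ j → b i * ((j : ℝ) ^ 3 * b (j - i)) ≤ b i * (1 / 2) := by
        intro h
        apply mul_le_mul_of_nonneg_left _ hbi
        have h5 := cube_b_le (j - i)
        have h6 : (j : ℝ) ≤ 2 * ((j - i : ℕ) : ℝ) := by
          have : j ≤ 2 * (j - i) := by omega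
          exact_mod_cast this
        have h7 : (j : ℝ) ^ 3 ≤ (2 * ((j - i : ℕ) : ℝ)) ^ 3 := pow_le_pow_left₀ (Nat.cast_nonneg _) h6 3
        have h8 := mul_le_mul_of_nonneg_right h7 (b_nonneg (j - i))
        calc (j : ℝ) ^ 3 * b (j - i) ≤ (2 * ((j - i : ℕ) : ℝ)) ^ 3 * b (j - i) := h8
          _ = 8 * (((j - i : ℕ) : ℝ) ^ 3 * b (j - i)) := by ring
          _ ≤ 1 / 2 := by linarith
      have h5 : 0 ≤ b i * ((j : ℝ) ^ 3 * b (j - i)) :=
        mul_nonneg hbi (mul_nonneg (by positivity) (b_nonneg _))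
      rw [Real.norm_eq_abs, hf]
      dsimp only
      rw [abs_of_nonneg (by split_ifs <;> linarith)]
      split_ifs with h6 h7
      · have := h4 h6; linarith
      · have := h4 h6; linarith
      · omega
      · linarith
  have h3 : (∑' i, (b i * (einf / 32) + b i * (einf / 32))) = 2 * y0 * (einf / 32) := by
    rw [((summable_b.hasSum.mul_right (einf / 32)).add (summable_b.hasSum.mul_right (einf / 32))).tsum_eq]
    rw [y0]
    ring
  rw [h3] at h2
  exact h2.congr fun j => (h1 j).symm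

lemma hasSum_b2 : HasSum b2 (y0 * y0) :=
  conv_hasSum b_nonneg b_nonneg summable_b.hasSum summable_b.hasSum

lemma hasSum_jb2 : HasSum (fun j : ℕ => (j : ℝ) * b2 j) (mu1 * y0 + y0 * mu1) := by
  have h1 := conv_hasSum (fun n => mul_nonneg (Nat.cast_nonneg n) (b_nonneg n)) b_nonneg
    summable_mb.hasSum summable_b.hasSum
  have h2 := conv_hasSum b_nonneg (fun n => mul_nonneg (Nat.cast_nonneg n) (b_nonneg n))
    summable_b.hasSum summable_mb.hasSum
  have h3 := h1.add h2
  have h4 : (fun j : ℕ => (j : ℝ) * b2 j) = fun n : ℕ =>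
      ∑ x ∈ antidiagonal n, ((x.1 : ℕ) : ℝ) * b x.1 * b x.2 +
      ∑ x ∈ antidiagonal n, b x.1 * (((x.2 : ℕ) : ℝ) * b x.2) := by
    funext j
    rw [b2, mul_sum, ← sum_add_distrib]
    refine sum_congr rfl fun x hx => ?_
    rw [HasAntidiagonal.mem_antidiagonal] at hx
    rw [← hx]
    push_cast
    ring
  rw [h4]
  exact h3

/-- the combination -/
noncomputable def cmb (j : ℕ) : ℝ := b2 j - 2 * y0 * b j

lemma hasSum_cmb : HasSum cmb (-y0 ^ 2) := by
  have h := hasSum_b2.sub (summable_b.hasSum.mul_left (2 * y0))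
  have h2 : y0 * y0 - 2 * y0 * (∑' m, b m) = -y0 ^ 2 := by rw [← y0]; ring
  rw [h2] at h
  exact h

lemma hasSum_jcmb : HasSum (fun j : ℕ => 2 * (j : ℝ) * cmb j) 0 := by
  have h := (hasSum_jb2.mul_left 2).sub (summable_mb.hasSum.mul_left (4 * y0))
  have h2 : 2 * (mu1 * y0 + y0 * mu1) - 4 * y0 * (∑' m : ℕ, (m : ℝ) * b m) = 0 := by
    rw [← mu1]; ring
  rw [h2] at h
  have h3 : (fun j : ℕ => 2 * (j : ℝ) * cmb j) = fun j : ℕ => 2 * ((j : ℝ) * b2 j) - 4 * y0 * ((j : ℝ) * b j) := by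
    funext j; rw [cmb]; ring
  rw [h3]
  exact h

lemma summable_jcmb : Summable fun j : ℕ => (j : ℝ) * |cmb j| := by
  have hy := y0_pos
  refine Summable.of_nonneg_of_le (fun j => by positivity) (fun j => ?_)
    (hasSum_jb2.summable.add (summable_mb.mul_left (2 * y0)))
  have h1 : |cmb j| ≤ b2 j + 2 * y0 * b j := by
    rw [cmb, abs_le]
    have := b2_nonneg j
    have := b_nonneg j
    have : 0 ≤ 2 * y0 * b j := by positivity
    constructor <;> linarith
  calc (j : ℝ) * |cmb j| ≤ j * (b2 j + 2 * y0 * b j) := mul_le_mul_of_nonneg_left h1 (Nat.cast_nonneg _)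
    _ = _ := by ring

lemma cube_cmb : Tendsto (fun j : ℕ => (j : ℝ) ^ 3 * cmb j) atTop (𝓝 0) := by
  have h := lim_b2.sub (lim_b.const_mul (2 * y0))
  rw [sub_self] at h
  refine h.congr fun j => ?_
  rw [cmb]
  ring

lemma cmb_lim : Tendsto (fun n : ℕ => (n : ℝ) * (be n - 2 * y0 * al n + y0 ^ 2)) atTop (𝓝 0) := by
  have h := corr_limit hasSum_cmb.summable summable_jcmb cube_cmb
  rw [hasSum_cmb.tsum_eq, hasSum_jcmb.tsum_eq] at h
  refine h.congr fun n => ?_
  rw [be, al]
  unfold cmb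
  simp only [mul_sub, sum_sub_distrib]
  rw [show ∑ x ∈ range (n + 1), ph n x * (2 * y0 * b x) = 2 * y0 * ∑ x ∈ range (n + 1), ph n x * b x by
    rw [mul_sum]; exact sum_congr rfl fun x _ => by ring]
  ring

lemma al_bound : ∃ K : ℝ, 0 ≤ K ∧ ∀ n : ℕ, 1 ≤ n → |(n : ℝ) * (al n - y0)| ≤ K := by
  have h1 : Summable fun j : ℕ => (j : ℝ) * |b j| := by
    refine summable_mb.congr fun j => ?_
    rw [abs_of_nonneg (b_nonneg j)]
  refine ⟨18 * (∑' j : ℕ, (j : ℝ) * |b j|) + 128 * (1 / 16), ?_, fun n hn => ?_⟩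
  · have : 0 ≤ ∑' j : ℕ, (j : ℝ) * |b j| := tsum_nonneg fun j => by positivity
    linarith
  · exact corr_bound summable_b h1 (by norm_num) (fun j _ => by
      rw [abs_of_nonneg (b_nonneg j)]; exact cube_b_le j) n hn

/-- the mean -/
noncomputable def mY (n : ℕ) : ℝ := (2 * n + 1) * al n
/-- the variance -/
noncomputable def vY (n : ℕ) : ℝ := (2 * n + 1) * (2 * n) * be n + mY n - mY n ^ 2

lemma mY_bound : ∃ K : ℝ, 0 ≤ K ∧ ∀ n : ℕ, 1 ≤ n → |mY n - 2 * n * y0| ≤ K := by
  obtain ⟨K, hK, h⟩ := al_bound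
  have hy := y0_pos
  refine ⟨3 * K + y0, by positivity, fun n hn => ?_⟩
  have h1 := h n hn
  have hn' : (1 : ℝ) ≤ n := by exact_mod_cast hn
  have h2 : |al n - y0| ≤ K := by
    rw [abs_mul, Nat.abs_cast] at h1
    have := abs_nonneg (al n - y0)
    nlinarith
  have h3 : mY n - 2 * n * y0 = 2 * (n * (al n - y0)) + (al n - y0) + y0 := by rw [mY]; ring
  rw [h3]
  refine (abs_add_le _ _).trans ?_
  refine (add_le_add (abs_add_le _ _) le_rfl).trans ?_
  rw [abs_mul, abs_two, abs_of_pos hy]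
  linarith

lemma al_lim : Tendsto al atTop (𝓝 y0) := by
  obtain ⟨K, hK, h⟩ := al_bound
  rw [tendsto_iff_norm_sub_tendsto_zero]
  have h1 : Tendsto (fun n : ℕ => K / (n : ℝ)) atTop (𝓝 0) :=
    tendsto_natCast_atTop_atTop.const_div_atTop _
  refine squeeze_zero' (Eventually.of_forall fun n => norm_nonneg _) ?_ h1
  filter_upwards [eventually_ge_atTop 1] with n hn
  have hn' : (0 : ℝ) < n := by exact_mod_cast hn
  have := h n hn
  rw [abs_mul, Nat.abs_cast] at this
  rw [Real.norm_eq_abs, le_div_iff₀ hn', mul_comm]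
  exact this

/-- the variance is of order `n` -/
theorem vY_lim : Tendsto (fun n : ℕ => vY n / n) atTop (𝓝 (2 * y0 * (1 - y0))) := by
  obtain ⟨K, hK, h⟩ := al_bound
  have h1 : Tendsto (fun n : ℕ => (n : ℝ) * (al n - y0) ^ 2) atTop (𝓝 0) := by
    have h2 : Tendsto (fun n : ℕ => K ^ 2 / (n : ℝ)) atTop (𝓝 0) :=
      tendsto_natCast_atTop_atTop.const_div_atTop _
    refine squeeze_zero' (Eventually.of_forall fun n => by positivity) ?_ h2
    filter_upwards [eventually_ge_atTop 1] with n hn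
    have hn' : (0 : ℝ) < n := by exact_mod_cast hn
    have h3 := h n hn
    rw [le_div_iff₀ hn']
    calc (n : ℝ) * (al n - y0) ^ 2 * n = |(n : ℝ) * (al n - y0)| ^ 2 := by rw [sq_abs]; ring
      _ ≤ K ^ 2 := pow_le_pow_left₀ (abs_nonneg _) h3 2
  have h2 : Tendsto (fun n : ℕ => (n : ℝ) * (be n - al n ^ 2)) atTop (𝓝 (0 - 0)) := by
    refine (cmb_lim.sub h1).congr fun n => ?_
    ring
  rw [sub_zero] at h2
  have h3 : Tendsto (fun n : ℕ => 2 + 1 / (n : ℝ)) atTop (𝓝 (2 + 0)) :=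
    tendsto_one_div_atTop_nhds_zero_nat.const_add 2
  rw [add_zero] at h3
  have h4 := h3.mul ((h2.const_mul 2).add (al_lim.mul (al_lim.const_sub 1)))
  have h5 : (2 : ℝ) * (2 * 0 + y0 * (1 - y0)) = 2 * y0 * (1 - y0) := by ring
  rw [h5] at h4
  refine h4.congr' ?_
  filter_upwards [eventually_gt_atTop 0] with n hn
  have hn' : (n : ℝ) ≠ 0 := by positivity
  rw [vY, mY]
  field_simp
  ring

end Pool.Agent.Q89.ME
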