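import Pool.Agent.Q89.ME.G3
import Pool.Agent.Q89.ME.F
import Pool.Agent.Q89.ME.F1

/-! # Uniform laws on finite sets and the central limit theorem -/

set_option autoImplicit false

open Finset MeasureTheory ProbabilityTheory Filter Topology

namespace Pool.Agent.Q89.ME

/-- the law of `Z` under the uniform law on `P` -/
noncomputable def emp {ι : Type*} (P : Finset ι) (Z : ι → ℝ) : Measure ℝ :=
  ((P.card : ENNReal))⁻¹ • ∑ p ∈ P, Measure.dirac (Z p)

lemma emp_prob {ι : Type*} {P : Finset ι} (hP : P.Nonempty) (Z : ι → ℝ) :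
    IsProbabilityMeasure (emp P Z) := by
  constructor
  rw [emp, Measure.smul_apply, Measure.finsetSum_apply]
  simp only [measure_univ, sum_const, nsmul_eq_mul, mul_one, smul_eq_mul]
  rw [ENNReal.inv_mul_cancel]
  · exact_mod_cast hP.card_pos.ne'
  · exact ENNReal.natCast_ne_top _

lemma emp_integrable {ι : Type*} {P : Finset ι} (hP : P.Nonempty) (Z : ι → ℝ) (f : ℝ → ℝ) : Integrable f (emp P Z) := by
  apply Integrable.smul_measure
  · rw [integrable_finsetSum_measure]
    intro p _
    exact integrable_dirac (by simp)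
  · rw [ENNReal.inv_ne_top]
    exact_mod_cast hP.card_pos.ne'

lemma emp_integral {ι : Type*} {P : Finset ι} (Z : ι → ℝ) (f : ℝ → ℝ) :
    ∫ x, f x ∂(emp P Z) = (∑ p ∈ P, f (Z p)) / P.card := by
  rw [emp, integral_smul_measure, integral_finsetSum_measure]
  · simp only [integral_dirac]
    rw [ENNReal.toReal_inv, ENNReal.toReal_natCast, smul_eq_mul, inv_mul_eq_div]
  · intro p _
    exact integrable_dirac (by simp)

lemma emp_Iic {ι : Type*} {P : Finset ι} (Z : ι → ℝ) (x : ℝ) :
    (emp P Z).real (Set.Iic x) = ((P.filter fun p => Z p ≤ x).card : ℝ) / P.card := by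
  rw [← integral_indicator_one measurableSet_Iic, emp_integral]
  congr 1
  rw [card_filter]
  push_cast
  refine sum_congr rfl fun p _ => ?_
  rw [Set.indicator_apply]
  rfl

/-- convergence of the distribution functions, at moving points -/
theorem clt_general {ι : ℕ → Type*} (P : ∀ n, Finset (ι n)) (hP : ∀ n, (P n).Nonempty)
    (Z : ∀ n, ι n → ℝ) {C : ℝ}
    (hC : ∀ n, (∑ p ∈ P n, (Z n p) ^ 2) / (P n).card ≤ C)
    (hm : ∀ s : ℝ, 0 < s → Tendsto (fun n => (∑ p ∈ P n, Real.exp (s * Z n p)) / (P n).card) atTop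
      (𝓝 (Real.exp (s ^ 2 / 2))))
    {x : ℝ} {u : ℕ → ℝ} (hu : Tendsto u atTop (𝓝 x)) :
    Tendsto (fun n => (((P n).filter fun p => Z n p ≤ u n).card : ℝ) / (P n).card) atTop
      (𝓝 ((gaussianReal 0 1).real (Set.Iic x))) := by
  have hprob : ∀ n, IsProbabilityMeasure (emp (P n) (Z n)) := fun n => emp_prob (hP n) _
  set ρ : ℕ → ProbabilityMeasure ℝ := fun n => ⟨emp (P n) (Z n), hprob n⟩ with hρ
  set γ : ProbabilityMeasure ℝ := ⟨gaussianReal 0 1, inferInstance⟩ with hγ
  have hmg : ∀ s : ℝ, ∫ y, Real.exp (s * y) ∂(gaussianReal 0 1) = Real.exp (s ^ 2 / 2) := by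
    intro s
    have h := congrFun (mgf_fun_id_gaussianReal (μ := 0) (v := 1)) s
    unfold mgf at h
    rw [h]
    congr 1
    push_cast
    ring
  have hw : Tendsto ρ atTop (𝓝 γ) := by
    apply weak_of_mgf_pos (C := C)
    · intro n
      exact emp_integrable (hP n) _ _
    · intro n
      show ∫ y, y ^ 2 ∂(emp (P n) (Z n)) ≤ C
      rw [emp_integral]
      exact hC n
    · intro n s _
      exact emp_integrable (hP n) _ _
    · intro s _
      exact integrable_exp_mul_gaussianReal s
    · intro s hs
      show Tendsto (fun n => ∫ y, Real.exp (s * y) ∂(emp (P n) (Z n))) atTop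
        (𝓝 (∫ y, Real.exp (s * y) ∂(gaussianReal 0 1)))
      rw [hmg]
      simp only [emp_integral]
      exact hm s hs
  -- distribution functions at fixed points
  have hfix : ∀ y : ℝ, Tendsto (fun n => (emp (P n) (Z n)).real (Set.Iic y)) atTop
      (𝓝 ((gaussianReal 0 1).real (Set.Iic y))) := by
    intro y
    have h1 := ProbabilityMeasure.tendsto_measure_of_null_frontier_of_tendsto' hw
      (E := Set.Iic y) (by
        rw [frontier_Iic]
        show (gaussianReal 0 1) {y} = 0
        have := nullSingletonClass_gaussianReal (μ := 0) (v := 1) one_ne_zero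
        exact measure_singleton y)
    exact (ENNReal.tendsto_toReal (measure_ne_top _ _)).comp h1
  have hcont : Continuous fun y : ℝ => (gaussianReal 0 1).real (Set.Iic y) := by
    have := nullSingletonClass_gaussianReal (μ := 0) (v := 1) one_ne_zero
    rw [continuous_iff_continuousAt]
    intro y
    have h2 : (fun z : ℝ => (gaussianReal 0 1).real (Set.Iic z)) = cdf (gaussianReal 0 1) := by
      funext z; rw [cdf_eq_real]
    rw [h2]
    refine continuousAt_iff_continuous_left'_right'.2 ⟨?_, ?_⟩
    · rw [(monotone_cdf (gaussianReal 0 1)).continuousWithinAt_Iio_iff_leftLim_eq]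
      have h3 := (cdf (gaussianReal 0 1)).measure_singleton y
      rw [measure_cdf, measure_singleton] at h3
      have h4 := ENNReal.ofReal_eq_zero.1 h3.symm
      exact le_antisymm ((monotone_cdf (gaussianReal 0 1)).leftLim_le le_rfl) (by linarith)
    · exact ((cdf (gaussianReal 0 1)).right_continuous y).mono Set.Ioi_subset_Ici_self
  simp only [← emp_Iic]
  rw [tendsto_order]
  constructor
  · intro a ha
    obtain ⟨δ, hδ, h1⟩ := Metric.continuous_iff.1 hcont x
      ((gaussianReal 0 1).real (Set.Iic x) - a) (by linarith)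
    have h2 := h1 (x - δ / 2) (by rw [Real.dist_eq]; rw [abs_lt]; constructor <;> linarith)
    rw [Real.dist_eq, abs_lt] at h2
    have h3 : a < (gaussianReal 0 1).real (Set.Iic (x - δ / 2)) := by linarith [h2.1]
    filter_upwards [(hfix (x - δ / 2)).eventually (lt_mem_nhds h3),
      hu.eventually (lt_mem_nhds (show x - δ / 2 < x by linarith))] with n h4 h5
    have := hprob n
    exact h4.trans_le (measureReal_mono (Set.Iic_subset_Iic.2 h5.le))
  · intro a ha
    obtain ⟨δ, hδ, h1⟩ := Metric.continuous_iff.1 hcont x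
      (a - (gaussianReal 0 1).real (Set.Iic x)) (by linarith)
    have h2 := h1 (x + δ / 2) (by rw [Real.dist_eq]; rw [abs_lt]; constructor <;> linarith)
    rw [Real.dist_eq, abs_lt] at h2
    have h3 : (gaussianReal 0 1).real (Set.Iic (x + δ / 2)) < a := by linarith [h2.2]
    filter_upwards [(hfix (x + δ / 2)).eventually (gt_mem_nhds h3),
      hu.eventually (gt_mem_nhds (show x < x + δ / 2 by linarith))] with n h4 h5
    have := hprob n
    exact lt_of_le_of_lt (measureReal_mono (Set.Iic_subset_Iic.2 h5.le)) h4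

end Pool.Agent.Q89.ME
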