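import Pool.Agent.Q89.ME.H
import Mathlib.Analysis.Real.Pi.Wallis

/-! # The constant, the matchings and the central limit theorem -/

set_option autoImplicit false

open Finset MeasureTheory ProbabilityTheory Filter Topology

namespace Pool.Agent.Q89.ME

lemma e_W (k : ℕ) : e k * Real.Wallis.W k = 1 := by
  induction k with
  | zero => rw [e_zero, Real.Wallis.W]; simp
  | succ k ih =>
    rw [e_succ, Real.Wallis.W_succ]
    have h1 : e k * ((2 * k + 1) * (2 * k + 3) / (4 * ((k : ℝ) + 1) ^ 2)) *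
        (Real.Wallis.W k * ((2 * k + 2) / (2 * k + 1) * ((2 * k + 2) / (2 * k + 3)))) =
        e k * Real.Wallis.W k := by
      field_simp
      ring
    rw [h1, ih]

lemma einf_eq : einf = 2 / Real.pi := by
  have h1 := tendsto_e.mul Real.Wallis.tendsto_W_nhds_pi_div_two
  simp only [e_W] at h1
  have h2 := tendsto_nhds_unique h1 tendsto_const_nhds
  have := Real.pi_pos
  field_simp at h2 ⊢
  linarith

lemma partial_b (n : ℕ) : ∑ m ∈ range (n + 1), b m = (4 * n + 1) / (4 * (2 * n + 1)) * e n - 1 / 4 := by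
  induction n with
  | zero => rw [zero_add, sum_range_one, b_zero, e_zero]; norm_num
  | succ n ih =>
    rw [sum_range_succ, ih, b_eq, e_succ]
    push_cast
    field_simp
    ring

/-- the closed form of the constant -/
theorem y0_eq : y0 = 1 / Real.pi - 1 / 4 := by
  have h1 : Tendsto (fun n : ℕ => ∑ m ∈ range (n + 1), b m) atTop (𝓝 y0) :=
    (tendsto_add_atTop_iff_nat 1).2 summable_b.hasSum.tendsto_sum_nat
  have h2 : Tendsto (fun n : ℕ => (1 / 2 - (1 / 4) / (2 * (n : ℝ) + 1)) * e n - 1 / 4) atTop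
      (𝓝 ((1 / 2 - 0) * einf - 1 / 4)) := by
    apply Tendsto.sub_const
    apply Tendsto.mul _ tendsto_e
    apply Tendsto.const_sub
    apply Tendsto.const_div_atTop
    apply tendsto_atTop_add_const_right
    exact tendsto_natCast_atTop_atTop.const_mul_atTop two_pos
  have h3 : Tendsto (fun n : ℕ => ∑ m ∈ range (n + 1), b m) atTop
      (𝓝 ((1 / 2 - 0) * einf - 1 / 4)) := by
    refine h2.congr fun n => ?_
    rw [partial_b]
    field_simp
    ring
  rw [tendsto_nhds_unique h1 h3, einf_eq]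
  have := Real.pi_pos
  field_simp
  ring

/-- the main limit for the pairs of matchings of `S n`, a set of `2n` points -/
theorem clt_full (S : ℕ → Finset ℕ) (hS : ∀ n, (S n).card = 2 * n) {x : ℝ} {u : ℕ → ℝ}
    (hu : Tendsto u atTop (𝓝 x)) :
    Tendsto (fun n : ℕ => (((full (S n) ×ˢ full (S n)).filter fun M =>
      ((((M.1 ∩ M.2).card : ℝ) - 2 * n * y0) / (√(2 * y0 * (1 - y0)) * √n)) ≤ u n).card : ℝ) /
        ((full (S n) ×ˢ full (S n)).card : ℝ)) atTop
      (𝓝 ((gaussianReal 0 1).real (Set.Iic x))) := by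
  have hy := y0_pos
  have hy1 := y0_lt_one
  set σ : ℝ := √(2 * y0 * (1 - y0)) with hσ
  have hσ2 : σ ^ 2 = 2 * y0 * (1 - y0) := Real.sq_sqrt (by nlinarith)
  have hσ0 : 0 < σ := Real.sqrt_pos.2 (by nlinarith)
  rw [← tendsto_add_atTop_iff_nat 1]
  have hcard : ∀ n, ((full (S n) ×ˢ full (S n)).card : ℝ) = (catalan n : ℝ) ^ 2 := by
    intro n
    rw [card_product, card_full (hS n)]
    push_cast
    ring
  have hne : ∀ n, (full (S n) ×ˢ full (S n)).Nonempty := by
    intro n
    rw [← card_pos]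
    have := catalan_pos n
    have h2 := hcard n
    have : (0 : ℝ) < ((full (S n) ×ˢ full (S n)).card : ℝ) := by rw [h2]; positivity
    exact_mod_cast this
  -- boundedness of the second moments
  obtain ⟨C, hC⟩ : ∃ C : ℝ, ∀ n : ℕ, (∑ M ∈ full (S (n + 1)) ×ˢ full (S (n + 1)),
      ((((M.1 ∩ M.2).card : ℝ) - 2 * ((n + 1 : ℕ) : ℝ) * y0) / (σ * √((n + 1 : ℕ) : ℝ))) ^ 2) /
        ((full (S (n + 1)) ×ˢ full (S (n + 1))).card : ℝ) ≤ C := by
    obtain ⟨K, hK, hK2⟩ := mY_bound
    obtain ⟨B, hB⟩ := vY_lim.bddAbove_range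
    refine ⟨(B + K ^ 2) / σ ^ 2, fun n => ?_⟩
    have h1 := moment_one (n + 1) (S (n + 1)) (hS _)
    have h2 := moment_two (n + 1) (S (n + 1)) (hS _) (by omega)
    have h3 := hK2 (n + 1) (by omega)
    have h4 : vY (n + 1) / ((n + 1 : ℕ) : ℝ) ≤ B := hB ⟨n + 1, rfl⟩
    have hc := catalan_pos (n + 1)
    set m : ℝ := ((n + 1 : ℕ) : ℝ) with hm
    have hm1 : 1 ≤ m := by rw [hm]; push_cast; linarith [(Nat.cast_nonneg n : (0 : ℝ) ≤ n)]
    have hm0 : 0 < m := by linarith
    have hsq : √m ^ 2 = m := Real.sq_sqrt hm0.le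
    set P := full (S (n + 1)) ×ˢ full (S (n + 1)) with hP
    have h1' : (∑ M ∈ P, ((M.1 ∩ M.2).card : ℝ)) / (catalan (n + 1) : ℝ) ^ 2 =
        (2 * m + 1) * al (n + 1) := by
      rw [hP, sum_product]; exact h1
    have h2' : (∑ M ∈ P, ((M.1 ∩ M.2).card : ℝ) * (((M.1 ∩ M.2).card : ℝ) - 1)) /
        (catalan (n + 1) : ℝ) ^ 2 = (2 * m + 1) * (2 * m) * be (n + 1) := by
      rw [hP, sum_product]; exact h2
    have hPc : (P.card : ℝ) = (catalan (n + 1) : ℝ) ^ 2 := hcard (n + 1)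
    have h5 : (∑ M ∈ P, ((((M.1 ∩ M.2).card : ℝ) - 2 * m * y0) / (σ * √m)) ^ 2) / (P.card : ℝ) =
        (vY (n + 1) + (mY (n + 1) - 2 * m * y0) ^ 2) / (σ ^ 2 * m) := by
      have h6 : ∀ M ∈ P, ((((M.1 ∩ M.2).card : ℝ) - 2 * m * y0) / (σ * √m)) ^ 2 =
          (((M.1 ∩ M.2).card : ℝ) * (((M.1 ∩ M.2).card : ℝ) - 1) +
            (1 - 4 * m * y0) * ((M.1 ∩ M.2).card : ℝ) + (2 * m * y0) ^ 2) / (σ ^ 2 * m) := by
        intro M _
        rw [div_pow, mul_pow, hsq]
        ring
      rw [sum_congr rfl h6, ← sum_div, sum_add_distrib, sum_add_distrib, ← mul_sum, sum_const,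
        nsmul_eq_mul, div_right_comm]
      congr 1
      rw [add_div, add_div, mul_div_assoc, hPc, h1', h2', mul_div_cancel_left₀ _ (by positivity)]
      rw [vY, mY]
      ring
    rw [h5, div_le_div_iff₀ (by positivity) (by positivity)]
    have h6 : vY (n + 1) ≤ B * m := by rwa [div_le_iff₀ hm0] at h4
    have h7 : (mY (n + 1) - 2 * m * y0) ^ 2 ≤ K ^ 2 * m := by
      have h8 : (mY (n + 1) - 2 * m * y0) ^ 2 ≤ K ^ 2 := by
        rw [← sq_abs]
        exact pow_le_pow_left₀ (abs_nonneg _) h3 2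
      nlinarith [sq_nonneg K]
    have h8 : vY (n + 1) + (mY (n + 1) - 2 * m * y0) ^ 2 ≤ (B + K ^ 2) * m := by linarith
    calc (vY (n + 1) + (mY (n + 1) - 2 * m * y0) ^ 2) * σ ^ 2 ≤ (B + K ^ 2) * m * σ ^ 2 :=
          mul_le_mul_of_nonneg_right h8 (by positivity)
      _ = _ := by ring
  -- the moment generating functions
  have hmgf : ∀ s : ℝ, 0 < s → Tendsto (fun n : ℕ => (∑ M ∈ full (S (n + 1)) ×ˢ full (S (n + 1)),
      Real.exp (s * ((((M.1 ∩ M.2).card : ℝ) - 2 * ((n + 1 : ℕ) : ℝ) * y0) /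
        (σ * √((n + 1 : ℕ) : ℝ))))) / ((full (S (n + 1)) ×ˢ full (S (n + 1))).card : ℝ)) atTop
      (𝓝 (Real.exp (s ^ 2 / 2))) := by
    intro s hs
    set r : ℝ := s / σ with hr
    have hr0 : 0 < r := by positivity
    set t : ℕ → ℝ := fun n => Real.exp (r / √n) - 1 with ht
    have ht0 : ∀ n, 0 ≤ t n := by
      intro n
      rw [ht]
      have : 1 ≤ Real.exp (r / √n) := Real.one_le_exp (by positivity)
      linarith
    have htA : ∀ n : ℕ, 1 ≤ n → t n * √n ≤ r * Real.exp r := by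
      intro n hn
      have hn' : (1 : ℝ) ≤ n := by exact_mod_cast hn
      have hs1 : 1 ≤ √(n : ℝ) := by rw [Real.one_le_sqrt]; exact hn'
      have h1 : t n ≤ r / √n * Real.exp (r / √n) := by
        have h2 := Real.add_one_le_exp (-(r / √n))
        have h3 : Real.exp (-(r / √n)) * Real.exp (r / √n) = 1 := by
          rw [← Real.exp_add]; simp
        have h4 := Real.exp_pos (r / √n)
        rw [ht]
        dsimp only
        nlinarith
      have h2 : Real.exp (r / √n) ≤ Real.exp r := by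
        apply Real.exp_le_exp.2
        exact div_le_self hr0.le hs1
      calc t n * √n ≤ r / √n * Real.exp (r / √n) * √n := by gcongr
        _ = r * Real.exp (r / √n) := by field_simp
        _ ≤ r * Real.exp r := by gcongr
    have h1 := R_tendsto ht0 (by positivity) htA
    have h2 := (main_limit y0 r).mul h1
    rw [mul_one] at h2
    have h3 : y0 * (1 - y0) * r ^ 2 = s ^ 2 / 2 := by
      rw [hr, div_pow, hσ2]
      have : (1 - y0) ≠ 0 := by linarith
      field_simp
    rw [h3] at h2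
    have h4 := (tendsto_add_atTop_iff_nat 1).2 h2
    refine h4.congr fun k => ?_
    set n := k + 1 with hn
    have hn0 : (0 : ℝ) < n := by rw [hn]; positivity
    have hsn : 0 < √(n : ℝ) := Real.sqrt_pos.2 hn0
    have hsq : √(n : ℝ) * √n = n := Real.mul_self_sqrt hn0.le
    have hid := identity (t n) n (S n) (hS n)
    have h5 : ∑ j ∈ range (n + 1), ph n j * PowerSeries.coeff j (Fs (t n) ^ (2 * n + 1)) =
        (1 + t n * y0) ^ (2 * n + 1) * R (t n) n := by
      rw [R, mul_sum]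
      refine sum_congr rfl fun j _ => ?_
      rw [Q]
      have := (one_add_pos (ht0 n)).ne'
      field_simp
    rw [h5] at hid
    have h6 : ∀ M ∈ full (S n) ×ˢ full (S n),
        Real.exp (s * ((((M.1 ∩ M.2).card : ℝ) - 2 * (n : ℝ) * y0) / (σ * √(n : ℝ)))) =
          (1 + t n) ^ (M.1 ∩ M.2).card * Real.exp (-(2 * √n * (y0 * r))) := by
      intro M _
      rw [ht]
      dsimp only
      rw [add_sub_cancel, ← Real.exp_nat_mul, ← Real.exp_add]
      congr 1
      have h7 : (n : ℝ) / √n = √n := by rw [div_eq_iff hsn.ne']; exact hsq.symm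
      calc s * ((((M.1 ∩ M.2).card : ℝ) - 2 * (n : ℝ) * y0) / (σ * √(n : ℝ))) =
          ((M.1 ∩ M.2).card : ℝ) * (r / √n) + -(2 * ((n : ℝ) / √n) * (y0 * r)) := by
            rw [hr]; field_simp; ring
        _ = _ := by rw [h7]
    rw [sum_congr rfl h6, ← sum_mul, hcard, sum_product, mul_div_right_comm, hid]
    ring
  have h := clt_general (fun n => full (S (n + 1)) ×ˢ full (S (n + 1))) (fun n => hne (n + 1))
    (fun n M => (((M.1 ∩ M.2).card : ℝ) - 2 * ((n + 1 : ℕ) : ℝ) * y0) / (σ * √((n + 1 : ℕ) : ℝ)))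
    hC hmgf ((tendsto_add_atTop_iff_nat 1).2 hu)
  exact h

end Pool.Agent.Q89.ME
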